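import Pool.Agent.TH99.RJ.GenW
import Pool.Agent.H128R3.GJC

set_option autoImplicit false

/-!
# The criterion for the number of zeros of the Jensen polynomials, for Hecke series
-/

namespace Pool.Agent.TH99.RJ.WH

open Complex Filter Topology
open Pool.Agent.H471R3.GJ (Dat Hk IsHk dat kp)
open Pool.Agent.H128R3.GJB (X1 pr ga X1_kp kp_pos rh_iff)
open Pool.Agent.TH99.RJ.GW (CCrit ccrit_of_scale ccrit_congr)

theorem isL_up {D : Dat} (h : Pool.Agent.H471R3.GJ.IsL D) : Pool.Agent.W355.GJ.IsL D where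
  κ_pos := h.κ_pos
  c_pos := h.c_pos
  A_nonneg := h.A_nonneg
  A0_one := h.A0_one
  w_large := h.w_large
  w_large2 := h.w_large2
  Φ_cont := h.Φ_cont
  Φ_even := h.Φ_even
  Φ_pos := h.Φ_pos
  Φ_dec := h.Φ_dec
  XX_eq := h.XX_eq
  XX_zero := h.XX_zero
  HH_diff := ⟨0, le_rfl, h.HH_diff⟩
  HH_log := h.HH_log
  a_one := h.a_one
  a_le := h.a_le
  XX_dir := h.XX_dir

open Classical in
theorem scaleH {H : Hk} (h : IsHk H) :
    Pool.Agent.W355.GJ.Crit.Scale (dat H) (pr H) (X1 H) (kp H) 1 where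
  isL := isL_up (Pool.Agent.H128R3.GJA.isHk_isL H h).2.2.2
  hr := by
    unfold pr
    split_ifs
    · exact Or.inl rfl
    · exact Or.inr rfl
  hc := kp_pos h
  hK := one_pos
  hX := by
    intro z
    have h1 := X1_kp h z
    rw [Complex.ofReal_one, one_mul, ← h1]
    congr 1
    unfold pr
    split_ifs
    · rw [pow_zero]
    · rw [pow_one]

theorem mcritH {H : Hk} (h : IsHk H) : CCrit (pr H) (X1 H)
    (∀ s : ℂ, mellin (fun y : ℝ => ((H.φ y : ℝ) : ℂ)) s = 0 → s.re = H.k / 2) :=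
  ccrit_congr (rh_iff h) (ccrit_of_scale (scaleH h))

end Pool.Agent.TH99.RJ.WH
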