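import Pool.Agent.TH99.RJ.GenW
import Pool.Agent.TH99.RJ.WH
import Pool.Agent.W355.HW.Fin

set_option autoImplicit false

/-!
# The criterion for the number of zeros of the Jensen polynomials, for `H^i(E^g)`, `i` odd
-/

open Complex Filter Topology Set

namespace Pool.Agent.TH99.RJ.WW

open scoped ComplexConjugate
open Pool.Agent.W355.LJ Pool.Agent.W355.HW
open Pool.Agent.TH99.RJ.GW (CCrit ccrit_of_scale ccrit_congr)

theorem scale_up {D : Pool.Agent.H471R3.GJ.Dat} {r : ℕ} {F : ℂ → ℂ} {c K : ℝ}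
    (h : Pool.Agent.H471R3.GJ.Crit.Scale D r F c K) : Pool.Agent.W355.GJ.Crit.Scale D r F c K :=
  ⟨Pool.Agent.TH99.RJ.WH.isL_up h.isL, h.hr, h.hc, h.hK, h.hX⟩

theorem critL' {D : Pool.Agent.W355.LJ.LD} (h : Pool.Agent.W355.LJ.IsLD D) :
    CCrit (Pool.Agent.W355.LJ.rL D) (fun z => D.Λ (1 / 2 + z))
      (∀ s : ℂ, D.Λ s = 0 → s.re = 1 / 2) :=
  ccrit_congr (Pool.Agent.W355.LJ.rhL h) (ccrit_of_scale (scale_up (Pool.Agent.W355.LJ.scaleL h)))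

/-- The criterion for self-dual completed L-functions. -/
theorem critR' {l : List Pc} {L : ℝ} {b : ℕ → ℂ} {w : ℂ} {Λ : ℂ → ℂ} (h : IsC l L b w Λ)
    (hb : ∀ n, conj (b n) = b n) (hl : l ≠ []) :
    ∃ r : ℕ, r ≤ 1 ∧ (∀ z : ℂ, Λ (1 / 2 + -z) = (-1) ^ r * Λ (1 / 2 + z)) ∧
      CCrit r (fun z => Λ (1 / 2 + z)) (∀ s : ℂ, Λ s = 0 → s.re = 1 / 2) := by
  obtain ⟨D, hD, hD1, hD2⟩ := h.toLD hb hl
  have h1 := critL' hD
  have h2 := Pool.Agent.W355.LJ.parL hD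
  rw [hD1] at h1 h2
  exact ⟨Pool.Agent.W355.LJ.rL D, Pool.Agent.W355.LJ.rL_le D, h2, h1⟩

theorem critS' {l : List Pc} {M : ℝ} {b : ℕ → ℂ} {w : ℂ} {Λ : ℂ → ℂ} (h : IsC l M b w Λ)
    (hl : l ≠ []) (hs : st Λ = Λ) :
    ∃ r : ℕ, r ≤ 1 ∧ (∀ z : ℂ, Λ (1 / 2 + -z) = (-1) ^ r * Λ (1 / 2 + z)) ∧
      CCrit r (fun z => Λ (1 / 2 + z)) (∀ s : ℂ, Λ s = 0 → s.re = 1 / 2) := by
  classical
  have h1 : IsC l M (fun n => if n = 0 then 0 else b n) w Λ := by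
    refine h.congr' fun n hn => ?_
    rw [if_neg (by omega)]
  refine critR' h1 (fun n => ?_) hl
  by_cases hn : n = 0
  · simp [hn]
  · rw [if_neg hn]
    exact h.real_of_star hl hs n (Nat.one_le_iff_ne_zero.2 hn)

/-- the completed L-function, centred at `1/2` -/
theorem main_half' (g m : ℕ) (hm : m < g) : ∃ (Λ : ℂ → ℂ) (r : ℕ), r ≤ 1 ∧ Differentiable ℂ Λ ∧
    (∀ s : ℂ, -(1 / 2 : ℝ) < s.re → Λ s = GP g m s) ∧
    (∀ s : ℂ, Λ (conj s) = conj (Λ s)) ∧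
    (∀ z : ℂ, Λ (1 / 2 + -z) = (-1) ^ r * Λ (1 / 2 + z)) ∧
    CCrit r (fun z => Λ (1 / 2 + z)) (∀ s : ℂ, Λ s = 0 → s.re = 1 / 2) := by
  obtain ⟨Λ, ⟨w, hg⟩, hst⟩ := goodR_prod G1 goodR_one (mu g m) (mu_zero hm) m
  obtain ⟨l, M, b, hl, hw, hc, σ, hσ⟩ := hg
  obtain ⟨r, hr, h1, h2⟩ := critS' hc hl hst
  refine ⟨Λ, r, hr, hc.entire, ?_, ?_, h1, h2⟩
  · exact half_eqL (fun s _ => hc.entire.analyticAt s) (fun s hs => GP_an g m hs)
      (fun s hs => by rw [hσ s hs, GP_eq])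
  · intro s
    have := congrFun hst (conj s)
    unfold st at this
    rw [Complex.conj_conj] at this
    exact this.symm

theorem main' (g m : ℕ) (hm : m < g) : ∃ (Λ : ℂ → ℂ) (r : ℕ), r ≤ 1 ∧ Differentiable ℂ Λ ∧
    (∀ s : ℂ, (((2 * m + 1 : ℕ) : ℝ) - 1) / 2 < s.re →
      Λ s = (Cond g (2 * m + 1) : ℂ) ^ ((s - ((2 * m + 1 : ℕ) : ℂ) / 2) / 2) *
        GamF g (2 * m + 1) s * LL0 g m (s - ((2 * m + 1 : ℕ) : ℂ) / 2)) ∧
    (∀ s : ℂ, Λ (conj s) = conj (Λ s)) ∧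
    (∀ s : ℂ, Λ (((2 * m + 1 : ℕ) : ℂ) + 1 - s) = (-1) ^ r * Λ s) ∧
    CCrit r (fun z => Λ ((((2 * m + 1 : ℕ) : ℂ) + 1) / 2 + z))
      (∀ s : ℂ, Λ s = 0 → s.re = (((2 * m + 1 : ℕ) : ℝ) + 1) / 2) := by
  obtain ⟨Λ1, r, hr, hd, h1, h2, h3, h4⟩ := main_half' g m hm
  generalize hi : ((2 * m + 1 : ℕ) : ℂ) = c at *
  generalize hi' : ((2 * m + 1 : ℕ) : ℝ) = x at *
  have hcx : c = (x : ℂ) := by
    rw [← hi, ← hi']
    push_cast
    rfl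
  have hc2 : c / 2 = ((x / 2 : ℝ) : ℂ) := by rw [hcx]; push_cast; rfl
  have hre : ∀ s : ℂ, (s - c / 2).re = s.re - x / 2 := by
    intro s
    rw [hc2, Complex.sub_re, Complex.ofReal_re]
  have hF : (fun z => Λ1 ((c + 1) / 2 + z - c / 2)) = fun z => Λ1 (1 / 2 + z) := by
    funext z
    congr 1
    ring
  have hrh : (∀ s : ℂ, Λ1 s = 0 → s.re = 1 / 2) ↔
      (∀ s : ℂ, Λ1 (s - c / 2) = 0 → s.re = (x + 1) / 2) := by
    constructor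
    · intro h s hs
      have := h _ hs
      rw [hre] at this
      linarith
    · intro h s hs
      have := h (s + c / 2) (by rw [add_sub_cancel_right]; exact hs)
      rw [hc2, Complex.add_re, Complex.ofReal_re] at this
      linarith
  refine ⟨fun s => Λ1 (s - c / 2), r, hr, hd.comp (by fun_prop), ?_, ?_, ?_, ?_⟩
  · intro s hs
    have h6 := h1 (s - c / 2) (by rw [hre]; linarith)
    show Λ1 (s - c / 2) = _
    rw [h6]
    unfold GP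
    rw [BB_eq, ← GamF_eq, hi]
  · intro s
    show Λ1 (conj s - c / 2) = conj (Λ1 (s - c / 2))
    rw [← h2, map_sub, hc2, Complex.conj_ofReal]
  · intro s
    have h6 := h3 (s - c / 2 - 1 / 2)
    show Λ1 (c + 1 - s - c / 2) = (-1) ^ r * Λ1 (s - c / 2)
    have e1 : (1 / 2 + -(s - c / 2 - 1 / 2) : ℂ) = c + 1 - s - c / 2 := by ring
    have e2 : (1 / 2 + (s - c / 2 - 1 / 2) : ℂ) = s - c / 2 := by ring
    rw [e1, e2] at h6
    exact h6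
  · show CCrit r (fun z => Λ1 ((c + 1) / 2 + z - c / 2)) _
    rw [hF]
    exact ccrit_congr hrh h4

end Pool.Agent.TH99.RJ.WW
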