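import Pool.Agent.W355.EK.Main
import Pool.Agent.TH99.RJ.WH

set_option autoImplicit false

/-!
# `L(E/K, s)`: the criterion for the number of zeros of the Jensen polynomials

As `Pool.Agent.W355.EK.Main`, with the criterion for the number of zeros of the Jensen polynomials in place of that for Jensen polynomials.
-/

namespace Pool.Agent.TH99.RJ.WE

open Complex Filter Topology Set NumberField IsDedekindDomain
open scoped ComplexConjugate
open Pool.Agent.W355.LJ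
open H385 (ZI RQ im1 chiZ FQs phiQ nrm)
open Pool.Agent.H304R3.HK (tc HC LH bH psi bb goodH uh_psi)
open Pool.Agent.W164.RC
open Pool.Agent.W355.EK
open Pool.Agent.TH99.RJ.GW (CCrit ccrit_of_scale ccrit_congr)

theorem scale_up {D : Pool.Agent.H471R3.GJ.Dat} {r : ℕ} {F : ℂ → ℂ} {c K : ℝ}
    (h : Pool.Agent.H471R3.GJ.Crit.Scale D r F c K) : Pool.Agent.W355.GJ.Crit.Scale D r F c K :=
  ⟨Pool.Agent.TH99.RJ.WH.isL_up h.isL, h.hr, h.hc, h.hK, h.hX⟩

/-- The criterion for the product of a completed L-function and its dual. -/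
theorem critJ {l : List Pc} {L : ℝ} {b : ℕ → ℂ} {w : ℂ} {Λ : ℂ → ℂ} (h : IsC l L b w Λ)
    (hw : ‖w‖ = 1) (hl : l ≠ []) :
    (∀ z : ℂ, Λ (1 / 2 + -z) * st Λ (1 / 2 + -z) = Λ (1 / 2 + z) * st Λ (1 / 2 + z)) ∧
    CCrit 0 (fun z => Λ (1 / 2 + z) * st Λ (1 / 2 + z))
      (∀ s : ℂ, Λ s = 0 → s.re = 1 / 2) := by
  obtain ⟨D, hD, hD1, hD2⟩ := h.double hw hl
  have hr : rL D = 0 := by
    unfold rL
    rw [if_pos hD2]
  have h1 := ccrit_congr (rhL hD) (ccrit_of_scale (scale_up (scaleL hD)))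
  rw [hr, hD1] at h1
  refine ⟨fun z => ?_, ccrit_congr (rh_double Λ) h1⟩
  have h2 := parL hD z
  rw [hr, hD1, pow_zero, one_mul] at h2
  exact h2

section
variable (cd : (q : ZI) → MulChar (RQ q) ℂ → ZI)
    (pr : (q : ZI) → MulChar (RQ q) ℂ → (ZI →* ℂ))
    (hprim : ∀ q : ZI, q ≠ 0 → ∀ χ ∈ FQs q, cd q χ ∣ q ∧ HC (cd q χ) (pr q χ) ∧
      ∀ a : ZI, IsCoprime a q → pr q χ a = chiZ q χ a)

include hprim

theorem mainM {q : ZI} (hq : q ≠ 0) (h2 : two2 ∣ q) (K : Type) [Field K] [NumberField K]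
    (ι : ZI →+* 𝓞 K) (art : (RQ q)ˣ →* (𝓞 K ≃+* 𝓞 K)) (H : IsRayClassField q K ι art)
    {D : ℤ} (hD : D ≠ 0) (hd : ∃ d : 𝓞 K, d ^ 4 = (D : 𝓞 K))
    (a ε : HeightOneSpectrum (𝓞 K) → ℤ)
    (hpos : ∀ v ∈ exc q ι D, Poss (Ideal.absNorm v.asIdeal) (a v) (ε v)) :
    (exc q ι D).Finite ∧ ∃ (L Λ B : ℂ → ℂ) (A : ℝ), 0 < A ∧
      AnalyticOnNhd ℂ L {s : ℂ | 1 / 2 < s.re} ∧
      (∀ s : ℂ, 3 / 2 < s.re → HasProd (fac q ι D a ε s) (L s)) ∧
      Differentiable ℂ Λ ∧ (∀ s : ℂ, Λ (2 - s) = Λ s) ∧ (∀ s : ℂ, Λ (conj s) = conj (Λ s)) ∧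
      EulerQuot B ∧ AnalyticOnNhd ℂ B {s : ℂ | 1 / 2 < s.re} ∧ (∀ s : ℂ, 1 / 2 < s.re → B s ≠ 0) ∧
      (∀ s : ℂ, 1 / 2 < s.re → Λ s = (A : ℂ) ^ (s / 2) *
        ((2 * (Real.pi : ℂ)) ^ (-s) * Complex.Gamma s) ^ (2 * Nat.card art.range) *
          (B s * L s)) ∧
      CCrit 0 (fun z => Λ (1 + z)) (∀ s : ℂ, 1 / 2 < s.re → L s = 0 → s.re = 1) := by
  classical
  have hιinj := iota_inj ι
  have h8 := eight_le_nrm hq h2
  have hcard : (FQs q).card = Nat.card art.range := by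
    have c1 := H385.fq_card q (by omega)
    have c2 := ray_card hq h2 H
    have c3 : ((4 * Nat.card art.range : ℕ) : ℝ) = (phiQ q : ℝ) := by exact_mod_cast c2
    push_cast at c3
    have c4 : ((FQs q).card : ℝ) = (Nat.card art.range : ℝ) := by
      rw [c1, ← c3]
      ring
    exact_mod_cast c4
  have hphi : 0 < phiQ q := (H385.fq_finite q hq).2.1
  have hne : (FQs q).Nonempty := by
    rw [← Finset.card_pos, hcard]
    have c2 := ray_card hq h2 H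
    omega
  obtain ⟨w, Λ1, hg⟩ := good_Q cd pr hprim hq hne
  have hhalf : ∀ {s : ℂ}, -(1 / 2 : ℝ) < s.re → Λ1 s = GG cd q s * LQ pr q s :=
    fun hs => good_Q_half cd pr hprim hq hg hs
  obtain ⟨l, M, b, hl, hw, hc, -⟩ := hg
  obtain ⟨hcr1, hcr2⟩ := critJ hc hw hl
  obtain ⟨hfin, R, hRq, hR, hprod⟩ := curve (F := fun s => FE pr q (s - 1 / 2) * FE pr (star q) (s - 1 / 2))
    hq h2 K ι D hιinj (fun s hs => hasProd_K cd pr hprim hq h2 H hs) hD hd a ε hpos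
  have hq' : star q ≠ 0 := fun h => hq (by rw [← star_star q, h, star_zero])
  have hA0 := A0_pos cd pr hprim hq
  set m : ℕ := Nat.card art.range with hm
  set L : ℂ → ℂ := fun s => FE pr q (s - 1 / 2) * FE pr (star q) (s - 1 / 2) * R s with hL
  set Λ : ℂ → ℂ := fun s => Λ1 (s - 1 / 2) * st Λ1 (s - 1 / 2) with hΛ
  set B : ℂ → ℂ := fun s => ((A0 cd q : ℝ) : ℂ) ^ (-(1 / 2) : ℂ) * 2 ^ (2 * m) *
    (CQ pr q (s - 1 / 2) * st (CQ pr q) (s - 1 / 2) * R s)⁻¹ with hB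
  have hre : ∀ s : ℂ, (s - 1 / 2).re = s.re - 1 / 2 := fun s => by simp
  have hden : ∀ s : ℂ, 1 / 2 < s.re →
      CQ pr q (s - 1 / 2) * st (CQ pr q) (s - 1 / 2) * R s ≠ 0 := by
    intro s hs
    have h0 : 0 < (s - 1 / 2).re := by rw [hre]; linarith
    refine mul_ne_zero (mul_ne_zero (CQ_ne cd pr hprim hq h0) ?_) (hR s hs).2
    unfold st
    rw [map_ne_zero]
    refine CQ_ne cd pr hprim hq ?_
    rwa [Complex.conj_re]
  have hAc : ((A0 cd q : ℝ) : ℂ) ≠ 0 := by exact_mod_cast hA0.ne'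
  have hkey : ∀ s : ℂ, 1 / 2 < s.re → Λ s = (((A0 cd q) ^ 2 : ℝ) : ℂ) ^ (s / 2) *
        ((2 * (Real.pi : ℂ)) ^ (-s) * Complex.Gamma s) ^ (2 * m) * (B s * L s) := by
    intro s hs
    have h0 : 0 < (s - 1 / 2).re := by rw [hre]; linarith
    have h1 : -(1 / 2 : ℝ) < (s - 1 / 2).re := by linarith
    have h1' : -(1 / 2 : ℝ) < (conj (s - 1 / 2)).re := by rw [Complex.conj_re]; linarith
    have e1 := hhalf h1
    have e2 : st Λ1 (s - 1 / 2) = GG cd q (s - 1 / 2) * st (LQ pr q) (s - 1 / 2) := by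
      unfold st
      rw [hhalf h1', map_mul, GG_conj cd pr hprim hq, Complex.conj_conj]
    have e3 : FE pr (star q) (s - 1 / 2) = st (LQ pr q) (s - 1 / 2) * st (CQ pr q) (s - 1 / 2) := by
      rw [FE_star cd pr hprim hq h2 H, FE_eq_mul, map_mul]
      rfl
    have e4 : GG cd q (s - 1 / 2) * GG cd q (s - 1 / 2) = (((A0 cd q) ^ 2 : ℝ) : ℂ) ^ (s / 2) *
        ((2 * (Real.pi : ℂ)) ^ (-s) * Complex.Gamma s) ^ (2 * m) *
        (((A0 cd q : ℝ) : ℂ) ^ (-(1 / 2) : ℂ) * 2 ^ (2 * m)) := by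
      rw [GG_eq cd pr hprim hq, hcard]
      have e5 : (s - 1 / 2 + 1 / 2 : ℂ) = s := by ring
      rw [e5, Complex.Gammaℂ_def]
      have e6 : (((A0 cd q) ^ 2 : ℝ) : ℂ) ^ (s / 2) = ((A0 cd q : ℝ) : ℂ) ^ (s / 2) *
          ((A0 cd q : ℝ) : ℂ) ^ (s / 2) := by
        rw [sq, Complex.ofReal_mul, Complex.mul_cpow_ofReal_nonneg hA0.le hA0.le]
      have e7 : ((A0 cd q : ℝ) : ℂ) ^ ((s - 1 / 2) / 2) * ((A0 cd q : ℝ) : ℂ) ^ ((s - 1 / 2) / 2) =
          ((A0 cd q : ℝ) : ℂ) ^ (s / 2) * ((A0 cd q : ℝ) : ℂ) ^ (s / 2) *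
            ((A0 cd q : ℝ) : ℂ) ^ (-(1 / 2) : ℂ) := by
        rw [← Complex.cpow_add _ _ hAc, ← Complex.cpow_add _ _ hAc, ← Complex.cpow_add _ _ hAc]
        congr 1
        ring
      calc _ = (((A0 cd q : ℝ) : ℂ) ^ ((s - 1 / 2) / 2) * ((A0 cd q : ℝ) : ℂ) ^ ((s - 1 / 2) / 2)) *
            ((2 * (Real.pi : ℂ)) ^ (-s) * Complex.Gamma s) ^ (2 * m) * 2 ^ (2 * m) := by ring
        _ = _ := by rw [e7, e6]; ring
    show Λ1 (s - 1 / 2) * st Λ1 (s - 1 / 2) = _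
    have e8 : B s * L s = (((A0 cd q : ℝ) : ℂ) ^ (-(1 / 2) : ℂ) * 2 ^ (2 * m)) *
        (LQ pr q (s - 1 / 2) * st (LQ pr q) (s - 1 / 2)) := by
      show ((A0 cd q : ℝ) : ℂ) ^ (-(1 / 2) : ℂ) * 2 ^ (2 * m) *
        (CQ pr q (s - 1 / 2) * st (CQ pr q) (s - 1 / 2) * R s)⁻¹ *
        (FE pr q (s - 1 / 2) * FE pr (star q) (s - 1 / 2) * R s) = _
      rw [e3, FE_eq_mul]
      have h9 := hden s hs
      have : LQ pr q (s - 1 / 2) * CQ pr q (s - 1 / 2) * (st (LQ pr q) (s - 1 / 2) *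
          st (CQ pr q) (s - 1 / 2)) * R s = (CQ pr q (s - 1 / 2) * st (CQ pr q) (s - 1 / 2) * R s) *
          (LQ pr q (s - 1 / 2) * st (LQ pr q) (s - 1 / 2)) := by ring
      rw [this, mul_assoc _ (_)⁻¹, ← mul_assoc (_)⁻¹, inv_mul_cancel₀ h9, one_mul]
    rw [e8, e1, e2]
    calc _ = (GG cd q (s - 1 / 2) * GG cd q (s - 1 / 2)) *
        (LQ pr q (s - 1 / 2) * st (LQ pr q) (s - 1 / 2)) := by ring
      _ = _ := by rw [e4]; ring
  have hLan : AnalyticOnNhd ℂ L {s : ℂ | 1 / 2 < s.re} := by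
    intro s hs
    have hd1 := FE_diff cd pr hprim hq
    have hd2 := FE_diff cd pr hprim hq'
    have h1 : Differentiable ℂ fun s : ℂ => FE pr q (s - 1 / 2) * FE pr (star q) (s - 1 / 2) :=
      (hd1.comp (by fun_prop)).mul (hd2.comp (by fun_prop))
    exact (h1.analyticAt s).mul (hR s hs).1
  have hBan : AnalyticOnNhd ℂ B {s : ℂ | 1 / 2 < s.re} := by
    intro s hs
    have hd1 := CQ_diff pr q
    have h1 : Differentiable ℂ fun s : ℂ => CQ pr q (s - 1 / 2) * st (CQ pr q) (s - 1 / 2) :=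
      (hd1.comp (by fun_prop)).mul ((st_diff hd1).comp (by fun_prop))
    exact analyticAt_const.mul (((h1.analyticAt s).mul (hR s hs).1).inv (hden s hs))
  have hBq : EulerQuot B := by
    have hCQ : EulerQuot (CQ pr q) := EulerQuot.prod _ _ fun χ _ => cq_quot q _
    have hc : ((A0 cd q : ℝ) : ℂ) ^ (-(1 / 2) : ℂ) * 2 ^ (2 * m) ≠ 0 := by
      refine mul_ne_zero ?_ (pow_ne_zero _ two_ne_zero)
      rw [Complex.cpow_ne_zero_iff]
      exact Or.inl hAc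
    refine EulerQuot.mul (EulerQuot.const _ hc) (EulerQuot.inv (EulerQuot.mul
      (EulerQuot.mul ?_ ?_) hRq))
    · refine (hCQ.shift (1 / 2)).congr fun s => ?_
      push_cast
      rfl
    · refine (hCQ.star.shift (1 / 2)).congr fun s => ?_
      push_cast
      rfl
  have hBne : ∀ s : ℂ, 1 / 2 < s.re → B s ≠ 0 := by
    intro s hs
    refine mul_ne_zero (mul_ne_zero ?_ (pow_ne_zero _ two_ne_zero)) (inv_ne_zero (hden s hs))
    rw [Complex.cpow_ne_zero_iff]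
    exact Or.inl hAc
  have hfe : ∀ s : ℂ, Λ (2 - s) = Λ s := by
    intro s
    have h1 := hcr1 (s - 1)
    show Λ1 (2 - s - 1 / 2) * st Λ1 (2 - s - 1 / 2) = Λ1 (s - 1 / 2) * st Λ1 (s - 1 / 2)
    have e1 : (2 - s - 1 / 2 : ℂ) = 1 / 2 + -(s - 1) := by ring
    have e2 : (s - 1 / 2 : ℂ) = 1 / 2 + (s - 1) := by ring
    rw [e1, e2]
    exact h1
  have hzero : ∀ s : ℂ, 1 / 2 < s.re → (Λ s = 0 ↔ L s = 0) := by
    intro s hs
    rw [hkey s hs]
    have hs0 : 0 < s.re := by linarith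
    have h1 : (((A0 cd q) ^ 2 : ℝ) : ℂ) ^ (s / 2) ≠ 0 := by
      rw [Complex.cpow_ne_zero_iff]
      left
      exact_mod_cast (pow_pos hA0 2).ne'
    have h3 : ((2 * (Real.pi : ℂ)) ^ (-s) * Complex.Gamma s) ^ (2 * m) ≠ 0 := by
      refine pow_ne_zero _ (mul_ne_zero ?_ (Complex.Gamma_ne_zero_of_re_pos hs0))
      rw [Complex.cpow_ne_zero_iff]
      left
      exact mul_ne_zero two_ne_zero (by exact_mod_cast Real.pi_ne_zero)
    constructor
    · intro h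
      rcases mul_eq_zero.1 h with h4 | h4
      · rcases mul_eq_zero.1 h4 with h5 | h5
        · exact absurd h5 h1
        · exact absurd h5 h3
      · exact (mul_eq_zero.1 h4).resolve_left (hBne s hs)
    · intro h
      rw [h, mul_zero, mul_zero]
  have hrh : (∀ s : ℂ, Λ1 s = 0 → s.re = 1 / 2) ↔
      (∀ s : ℂ, 1 / 2 < s.re → L s = 0 → s.re = 1) := by
    constructor
    · intro h s hs hs0
      rcases mul_eq_zero.1 ((hzero s hs).2 hs0) with h1 | h1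
      · have := h _ h1
        rw [hre] at this
        linarith
      · unfold st at h1
        have := h _ ((map_eq_zero _).1 h1)
        rw [Complex.conj_re, hre] at this
        linarith
    · intro h u hu
      have h1 : Λ (u + 1 / 2) = 0 := by
        show Λ1 (u + 1 / 2 - 1 / 2) * _ = 0
        rw [add_sub_cancel_right, hu, zero_mul]
      have e0 : (u + 1 / 2).re = u.re + 1 / 2 := by simp
      by_cases hcase : 1 / 2 < (u + 1 / 2).re
      · have := h _ hcase ((hzero _ hcase).1 h1)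
        rw [e0] at this
        linarith
      · exfalso
        have e3 : (2 - (u + 1 / 2)).re = 2 - (u.re + 1 / 2) := by simp
        rw [e0] at hcase
        have h3 : Λ (2 - (u + 1 / 2)) = 0 := by rw [hfe, h1]
        have h4 : 1 / 2 < (2 - (u + 1 / 2)).re := by rw [e3]; linarith
        have := h _ h4 ((hzero _ h4).1 h3)
        rw [e3] at this
        linarith
  have hFeq : (fun z => Λ (1 + z)) = fun z => Λ1 (1 / 2 + z) * st Λ1 (1 / 2 + z) := by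
    funext z
    show Λ1 (1 + z - 1 / 2) * st Λ1 (1 + z - 1 / 2) = _
    have : (1 + z - 1 / 2 : ℂ) = 1 / 2 + z := by ring
    rw [this]
  refine ⟨hfin, L, Λ, B, (A0 cd q) ^ 2, pow_pos hA0 2, hLan, hprod, ?_, hfe, ?_, hBq, hBan, hBne, hkey,
    ?_⟩
  · exact (hc.entire.comp (by fun_prop)).mul ((st_diff hc.entire).comp (by fun_prop))
  · intro s
    show Λ1 (conj s - 1 / 2) * st Λ1 (conj s - 1 / 2) =
      conj (Λ1 (s - 1 / 2) * st Λ1 (s - 1 / 2))
    have e : conj s - 1 / 2 = conj (s - 1 / 2) := by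
      rw [map_sub, map_div₀, map_one, map_ofNat]
    unfold st
    rw [e, Complex.conj_conj, map_mul, Complex.conj_conj, mul_comm]
  · rw [hFeq]
    exact ccrit_congr hrh hcr2

end

end Pool.Agent.TH99.RJ.WE
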