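import Pool.Agent.TH99.RJ.Gen
import Pool.Agent.H471R3.GJ.Prod

set_option autoImplicit false

/-!
# Counting the zeros outside the negative real half-line
-/

namespace Pool.Agent.TH99.RJ

open Polynomial Filter Topology
open Pool.Agent.H24R2.JP (Par App Good Hyperbolic)
open Pool.Agent.H471R3.GJ (NH)

/-- The number of zeros outside `(-∞, 0]`. -/
noncomputable def bad (p : ℝ[X]) : ℕ :=
  ((p.map (algebraMap ℝ ℂ)).roots.filter fun z => ¬ (z.im = 0 ∧ z.re ≤ 0)).card

theorem filter_real (p : ℝ[X]) :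
    ((p.map (algebraMap ℝ ℂ)).roots.filter fun z => z.im = 0) = p.roots.map (algebraMap ℝ ℂ) := by
  classical
  by_cases hp : p = 0
  · simp [hp]
  ext z
  by_cases hz : z.im = 0
  · have hzr : z = algebraMap ℝ ℂ z.re := by
      apply Complex.ext
      · simp
      · simp [hz]
    rw [Multiset.count_filter_of_pos (by simpa using hz), hzr,
      Multiset.count_map_eq_count' _ _ (algebraMap ℝ ℂ).injective, count_roots, count_roots,
      ← eq_rootMultiplicity_map (algebraMap ℝ ℂ).injective]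
  · rw [Multiset.count_filter_of_neg (by simpa using hz)]
    symm
    rw [Multiset.count_eq_zero]
    intro h3
    obtain ⟨r, -, rfl⟩ := Multiset.mem_map.1 h3
    exact hz (by simp)

theorem bad_le (p : ℝ[X]) : bad p ≤ nonreal p + cnt p (Set.Ioi 0) := by
  classical
  have h1 : (p.map (algebraMap ℝ ℂ)).roots.filter (fun z => ¬ (z.im = 0 ∧ z.re ≤ 0)) ≤
      (p.map (algebraMap ℝ ℂ)).roots.filter (fun z => z.im ≠ 0) +
      (p.map (algebraMap ℝ ℂ)).roots.filter (fun z => z.im = 0 ∧ 0 < z.re) := by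
    rw [Multiset.le_iff_count]
    intro z
    rw [Multiset.count_add, Multiset.count_filter, Multiset.count_filter, Multiset.count_filter]
    by_cases h1 : z.im = 0
    · by_cases h2 : z.re ≤ 0
      · simp [h1, h2]
      · simp [h1, h2, not_le.1 h2]
    · simp [h1]
  have h2 := Multiset.card_le_card h1
  rw [Multiset.card_add] at h2
  have h3 : ((p.map (algebraMap ℝ ℂ)).roots.filter (fun z => z.im = 0 ∧ 0 < z.re)).card =
      cnt p (Set.Ioi 0) := by
    have e1 : (p.map (algebraMap ℝ ℂ)).roots.filter (fun z => z.im = 0 ∧ 0 < z.re) =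
        ((p.map (algebraMap ℝ ℂ)).roots.filter fun z => z.im = 0).filter fun z => 0 < z.re := by
      rw [Multiset.filter_filter]
      exact Multiset.filter_congr fun z _ => by tauto
    rw [e1, filter_real, Multiset.filter_map, Multiset.card_map]
    unfold cnt
    congr 1
  rw [h3] at h2
  exact h2

theorem bad_eq_zero (p : ℝ[X]) : bad p = 0 ↔ NH p := by
  unfold bad
  rw [Multiset.card_eq_zero, Multiset.filter_eq_nil]
  constructor
  · intro h
    by_cases hp : p = 0
    · exact Or.inl hp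
    right
    have hne : p.map (algebraMap ℝ ℂ) ≠ 0 := by
      rwa [Ne, Polynomial.map_eq_zero_iff (algebraMap ℝ ℂ).injective]
    intro z hz
    have h1 := h z (by
      rw [mem_roots hne]
      show _ = _
      rw [← aeval_eq_map]
      exact hz)
    exact not_not.1 h1
  · rintro (h | h) z hz
    · rw [h] at hz
      simp at hz
    · rw [not_not]
      apply h
      rw [aeval_eq_map]
      exact isRoot_of_mem_roots hz

/-- Rolle for the positive zeros. -/
theorem cnt_pos_deriv (p : ℝ[X]) (hp : derivative p ≠ 0) :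
    cnt p (Set.Ioi 0) ≤ cnt (derivative p) (Set.Ioi 0) + 1 := by
  have hp0 : p ≠ 0 := by
    rintro rfl
    simp at hp
  set M := cnt p (Set.Ioi 0) with hM
  rcases Nat.eq_zero_or_pos M with h0 | h0
  · omega
  obtain ⟨t, ht, hd⟩ := dvd_of_cnt (M := M) (p := p) (s := Set.Ioi (0 : ℝ)) le_rfl
  have hne : (Finset.univ : Finset (Fin M)).Nonempty := ⟨⟨0, h0⟩, Finset.mem_univ _⟩
  obtain ⟨i0, -, hi0⟩ := Finset.exists_min_image Finset.univ t hne
  obtain ⟨i1, -, hi1⟩ := Finset.exists_max_image Finset.univ t hne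
  have h1 : M ≤ cnt p (Set.Ico (t i0) (t i0 + (t i1 + 1 - t i0))) := by
    refine cnt_of_dvd hp0 (fun i => ⟨hi0 i (Finset.mem_univ _), ?_⟩) hd
    have := hi1 i (Finset.mem_univ _)
    linarith
  have h2 := cnt_lin p 0 (by simpa using hp) (t i0) (t i1 + 1 - t i0)
  have h3 : derivative p - C 0 * p = derivative p := by simp
  rw [h3] at h2
  have h4 : cnt (derivative p) (Set.Ico (t i0) (t i0 + (t i1 + 1 - t i0))) ≤
      cnt (derivative p) (Set.Ioi 0) := cnt_mono fun y hy => lt_of_lt_of_le (ht i0) hy.1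
  omega

theorem derivative_Jp (d : ℕ) (γ : ℕ → ℝ) :
    derivative (Jp (d + 1) γ) = C ((d : ℝ) + 1) * Jp d fun j => γ (j + 1) := by
  unfold Jp
  rw [derivative_sum, Finset.sum_range_succ', Finset.mul_sum]
  simp only [derivative_C_mul_X_pow, Nat.cast_zero, mul_zero, C_0, zero_mul, add_zero]
  refine Finset.sum_congr rfl fun i _ => ?_
  rw [Nat.add_sub_cancel, ← mul_assoc, ← C_mul]
  congr 2
  have h := Nat.add_one_mul_choose_eq d i
  have h' : ((d : ℝ) + 1) * (d.choose i : ℝ) = ((d + 1).choose (i + 1) : ℝ) * ((i : ℝ) + 1) := by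
    exact_mod_cast h
  push_cast
  rw [← mul_assoc, h']
  ring

theorem cnt_pos_Jp {γ : ℕ → ℝ} {n0 : ℕ} (hpos : ∀ n, n0 ≤ n → 0 < γ n) (m : ℕ) :
    ∀ (n d : ℕ), n0 ≤ n + m → cnt (Jp d fun j => γ (n + j)) (Set.Ioi 0) ≤ m := by
  induction m with
  | zero =>
    intro n d hn
    by_contra hcon
    push Not at hcon
    obtain ⟨t, ht, hd⟩ := dvd_of_cnt (M := 1) (p := Jp d fun j => γ (n + j))
      (s := Set.Ioi (0 : ℝ)) (by omega)
    have h1 : (Jp d fun j => γ (n + j)).IsRoot (t 0) :=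
      dvd_iff_isRoot.1 ((Finset.dvd_prod_of_mem (fun i : Fin 1 => (X - C (t i) : ℝ[X]))
        (Finset.mem_univ 0)).trans hd)
    have h2 : 0 < (Jp d fun j => γ (n + j)).eval (t 0) := by
      unfold Jp
      rw [eval_finsetSum]
      have hx : 0 < t 0 := ht 0
      refine Finset.sum_pos (fun j hj => ?_) ⟨0, Finset.mem_range.2 (by omega)⟩
      have hj' : j ≤ d := Nat.lt_succ_iff.1 (Finset.mem_range.1 hj)
      have h3 : 0 < γ (n + j) := hpos _ (by omega)
      have h4 : 0 < d.choose j := Nat.choose_pos hj'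
      rw [eval_mul, eval_C, eval_pow, eval_X]
      positivity
    rw [h1] at h2
    exact lt_irrefl _ h2
  | succ m ih =>
    intro n d hn
    rcases d with _ | d
    · have h1 : (Jp 0 fun j => γ (n + j)).roots = 0 := by
        unfold Jp
        simp
      unfold cnt
      rw [h1]
      simp
    · have h1 := derivative_Jp d fun j => γ (n + j)
      have h2 := ih (n + 1) d (by omega)
      have e1 : (fun j => γ (n + (j + 1))) = fun j => γ (n + 1 + j) := by
        funext j
        congr 1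
        ring
      rw [e1] at h1
      by_cases hz : derivative (Jp (d + 1) fun j => γ (n + j)) = 0
      · have h3 := derivative_eq_zero.1 hz
        obtain ⟨c, hc⟩ := natDegree_eq_zero.1 h3
        rw [← hc]
        unfold cnt
        simp
      · have h3 := cnt_pos_deriv _ hz
        have h4 : cnt (derivative (Jp (d + 1) fun j => γ (n + j))) (Set.Ioi 0) =
            cnt (Jp d fun j => γ (n + 1 + j)) (Set.Ioi 0) := by
          rw [h1]
          unfold cnt
          rw [roots_C_mul _ (by positivity)]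
        omega

/-- **The general theorem for the zeros outside `(-∞, 0]`.** -/
theorem Hyp.cnt_bad {F : ℂ → ℂ} {γ : ℕ → ℝ} {n0 : ℕ} (h : Hyp F γ n0) :
    ∃ C : ℝ, 0 < C ∧ ∀ d n : ℕ,
      (bad (Jp d fun j => γ (n + j)) : ℝ) ≤ C * ((d : ℝ) ^ (2 / 3 : ℝ) * Real.log (d + 1)) := by
  obtain ⟨C, hC, hb⟩ := h.cnt
  refine ⟨C + 2 * n0, by positivity, fun d n => ?_⟩
  rcases Nat.eq_zero_or_pos d with hd | hd
  · subst hd
    have h1 : bad (Jp 0 fun j => γ (n + j)) = 0 := by
      unfold bad Jp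
      simp
    rw [h1]
    simp
  have hd1 : (1 : ℝ) ≤ d := by exact_mod_cast hd
  have h1 := bad_le (Jp d fun j => γ (n + j))
  have h2 := cnt_pos_Jp h.pos n0 n d (by omega)
  have h3 : (bad (Jp d fun j => γ (n + j)) : ℝ) ≤
      nonreal (Jp d fun j => γ (n + j)) + n0 := by
    have : bad (Jp d fun j => γ (n + j)) ≤ nonreal (Jp d fun j => γ (n + j)) + n0 := by omega
    exact_mod_cast this
  have h4 : 1 ≤ (d : ℝ) ^ (2 / 3 : ℝ) := Real.one_le_rpow hd1 (by norm_num)
  have h5 : 1 / 2 ≤ Real.log ((d : ℝ) + 1) :=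
    log2_half.trans (Real.log_le_log (by norm_num) (by linarith))
  have h6 : 1 / 2 ≤ (d : ℝ) ^ (2 / 3 : ℝ) * Real.log (d + 1) := by nlinarith
  have h7 : (n0 : ℝ) ≤ 2 * n0 * ((d : ℝ) ^ (2 / 3 : ℝ) * Real.log (d + 1)) := by
    have : (0 : ℝ) ≤ n0 := Nat.cast_nonneg _
    nlinarith
  have h8 := hb d n
  calc (bad (Jp d fun j => γ (n + j)) : ℝ) ≤ nonreal (Jp d fun j => γ (n + j)) + n0 := h3
    _ ≤ C * ((d : ℝ) ^ (2 / 3 : ℝ) * Real.log (d + 1)) +
        2 * n0 * ((d : ℝ) ^ (2 / 3 : ℝ) * Real.log (d + 1)) := by linarith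
    _ = _ := by ring

/-- scaling -/
theorem bad_C_comp (p : ℝ[X]) (c a : ℝ) (hc : c ≠ 0) (ha : 0 < a) :
    bad (C c * p.comp (C a * X)) = bad p := by
  unfold bad
  have ha' : ((a : ℝ) : ℂ) ≠ 0 := by exact_mod_cast ha.ne'
  have h1 : (C c * p.comp (C a * X)).map (algebraMap ℝ ℂ) =
      C (c : ℂ) * (p.map (algebraMap ℝ ℂ)).comp (C (a : ℂ) * X + C 0) := by
    rw [Polynomial.map_mul, Polynomial.map_comp]
    simp
  rw [h1, roots_C_mul _ (by exact_mod_cast hc),
    roots_comp_C_mul_X_add_C _ _ _ (isUnit_iff_ne_zero.2 ha'), Multiset.filter_map,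
    Multiset.card_map]
  congr 1
  refine Multiset.filter_congr fun z _ => ?_
  simp only [Function.comp_apply, sub_zero, Ring.inverse_eq_inv]
  have h2 : ((a : ℂ)⁻¹ * z).im = a⁻¹ * z.im := by
    rw [← Complex.ofReal_inv, Complex.im_ofReal_mul]
  have h3 : ((a : ℂ)⁻¹ * z).re = a⁻¹ * z.re := by
    rw [← Complex.ofReal_inv, Complex.re_ofReal_mul]
  rw [h2, h3]
  have hai : 0 < a⁻¹ := inv_pos.2 ha
  have h4 : a⁻¹ * z.im = 0 ↔ z.im = 0 := by
    constructor
    · intro h5
      exact (mul_eq_zero.1 h5).resolve_left hai.ne'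
    · intro h5
      rw [h5, mul_zero]
  have h5 : a⁻¹ * z.re ≤ 0 ↔ z.re ≤ 0 := by
    constructor
    · intro h6
      by_contra h7
      push Not at h7
      have := mul_pos hai h7
      linarith
    · intro h6
      exact mul_nonpos_of_nonneg_of_nonpos hai.le h6
  rw [h4, h5]

theorem bad_scale (d : ℕ) (γ δ : ℕ → ℝ) (c a : ℝ) (hc : c ≠ 0) (ha : 0 < a)
    (h : ∀ j, γ j = c * a ^ j * δ j) : bad (Jp d γ) = bad (Jp d δ) := by
  have h1 : Jp d γ = C c * (Jp d δ).comp (C a * X) := by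
    unfold Jp
    rw [Polynomial.sum_comp, Finset.mul_sum]
    refine Finset.sum_congr rfl fun j _ => ?_
    rw [h j, mul_comp, C_comp, pow_comp, X_comp, mul_pow]
    simp only [C_mul, C_pow]
    ring
  rw [h1, bad_C_comp _ c a hc ha]

end Pool.Agent.TH99.RJ
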