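import Mathlib

set_option autoImplicit false

/-!
# Counting real zeros of real polynomials: closedness under limits
-/

namespace Pool.Agent.TH99.RJ

open Polynomial Filter Topology

/-- coefficientwise convergence -/
def CT (p : ℕ → ℝ[X]) (P : ℝ[X]) : Prop :=
  ∀ n, Tendsto (fun k => (p k).coeff n) atTop (𝓝 (P.coeff n))

theorem CT.const (P : ℝ[X]) : CT (fun _ => P) P := fun _ => tendsto_const_nhds

theorem CT.add {p q : ℕ → ℝ[X]} {P Q : ℝ[X]} (hp : CT p P) (hq : CT q Q) :
    CT (fun k => p k + q k) (P + Q) := by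
  intro n; simpa using (hp n).add (hq n)

theorem CT.sub {p q : ℕ → ℝ[X]} {P Q : ℝ[X]} (hp : CT p P) (hq : CT q Q) :
    CT (fun k => p k - q k) (P - Q) := by
  intro n; simpa using (hp n).sub (hq n)

theorem CT.mul {p q : ℕ → ℝ[X]} {P Q : ℝ[X]} (hp : CT p P) (hq : CT q Q) :
    CT (fun k => p k * q k) (P * Q) := by
  intro n
  simp only [coeff_mul]
  exact tendsto_finsetSum _ fun x _ => (hp x.1).mul (hq x.2)

theorem CT.C {c : ℕ → ℝ} {a : ℝ} (h : Tendsto c atTop (𝓝 a)) : CT (fun k => C (c k)) (C a) := by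
  intro n
  simp only [coeff_C]
  split_ifs
  · exact h
  · exact tendsto_const_nhds

theorem CT.derivative {p : ℕ → ℝ[X]} {P : ℝ[X]} (hp : CT p P) :
    CT (fun k => derivative (p k)) (derivative P) := by
  intro n
  simp only [coeff_derivative]
  exact (hp (n + 1)).mul_const _

theorem CT.prod {M : ℕ} {p : ℕ → Fin M → ℝ[X]} {P : Fin M → ℝ[X]}
    (hp : ∀ i, CT (fun k => p k i) (P i)) : CT (fun k => ∏ i, p k i) (∏ i, P i) := by
  induction M with
  | zero => simpa using CT.const 1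
  | succ M ih =>
    simp only [Fin.prod_univ_succ]
    exact (hp 0).mul (ih fun i => hp i.succ)

theorem CT.natDegree_le {p : ℕ → ℝ[X]} {P : ℝ[X]} (hp : CT p P) {D : ℕ}
    (hD : ∀ k, (p k).natDegree ≤ D) : P.natDegree ≤ D := by
  rw [natDegree_le_iff_coeff_eq_zero]
  intro n hn
  refine tendsto_nhds_unique (hp n) ?_
  have : (fun k => (p k).coeff n) = fun _ => (0 : ℝ) := by
    funext k
    exact coeff_eq_zero_of_natDegree_lt ((hD k).trans_lt hn)
  rw [this]
  exact tendsto_const_nhds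

theorem CT.eval {p : ℕ → ℝ[X]} {P : ℝ[X]} (hp : CT p P) {D : ℕ}
    (hD : ∀ k, (p k).natDegree ≤ D) (x : ℝ) :
    Tendsto (fun k => (p k).eval x) atTop (𝓝 (P.eval x)) := by
  have h1 : ∀ Q : ℝ[X], Q.natDegree ≤ D →
      Q.eval x = ∑ i ∈ Finset.range (D + 1), Q.coeff i * x ^ i := fun Q hQ =>
    eval_eq_sum_range' (Nat.lt_succ_of_le hQ) x
  rw [h1 P (hp.natDegree_le hD)]
  simp_rw [fun k => h1 (p k) (hD k)]
  exact tendsto_finsetSum _ fun i _ => (hp i).mul_const _

theorem CT.comp {p : ℕ → ℝ[X]} {P : ℝ[X]} (hp : CT p P) {φ : ℕ → ℕ} (hφ : Tendsto φ atTop atTop) :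
    CT (fun k => p (φ k)) P := fun n => (hp n).comp hφ

theorem eval_prodX {M : ℕ} (t : Fin M → ℝ) (x : ℝ) :
    (∏ i, (X - C (t i)) : ℝ[X]).eval x = ∏ i, (x - t i) := by
  rw [eval_prod]
  simp

theorem prodX_ne {M : ℕ} (t : Fin M → ℝ) : (∏ i, (X - C (t i)) : ℝ[X]) ≠ 0 :=
  Finset.prod_ne_zero_iff.2 fun _ _ => X_sub_C_ne_zero _

/-- a limit of polynomials with `M` zeros in an interval has `M` zeros there -/
theorem closed {M D : ℕ} {p : ℕ → ℝ[X]} {P : ℝ[X]} (hp : CT p P) (hD : ∀ k, (p k).natDegree ≤ D)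
    {l r : ℝ} {lk rk : ℕ → ℝ} (hl : Tendsto lk atTop (𝓝 l)) (hr : Tendsto rk atTop (𝓝 r))
    (h : ∀ᶠ k in atTop, ∃ t : Fin M → ℝ, (∀ i, lk k ≤ t i ∧ t i ≤ rk k) ∧
      (∏ i, (X - C (t i))) ∣ p k) :
    ∃ t : Fin M → ℝ, (∀ i, l ≤ t i ∧ t i ≤ r) ∧ (∏ i, (X - C (t i))) ∣ P := by
  have e1 : ∀ᶠ k in atTop, l - 1 < lk k := hl.eventually (lt_mem_nhds (by linarith))
  have e2 : ∀ᶠ k in atTop, rk k < r + 1 := hr.eventually (gt_mem_nhds (by linarith))
  obtain ⟨K0, hK0⟩ := eventually_atTop.1 (h.and (e1.and e2))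
  have hsh : Tendsto (fun k : ℕ => k + K0) atTop atTop := tendsto_add_atTop_nat K0
  have h' : ∀ k : ℕ, ∃ t : Fin M → ℝ, (∀ i, lk (k + K0) ≤ t i ∧ t i ≤ rk (k + K0)) ∧
      (∏ i, (X - C (t i))) ∣ p (k + K0) := fun k => (hK0 (k + K0) (by omega)).1
  choose t ht1 ht2 using h'
  have hcomp : IsCompact (Set.pi Set.univ fun _ : Fin M => Set.Icc (l - 1) (r + 1)) :=
    isCompact_univ_pi fun _ => isCompact_Icc
  have hmem : ∀ k, t k ∈ Set.pi Set.univ fun _ : Fin M => Set.Icc (l - 1) (r + 1) := by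
    intro k i _
    have h3 := (hK0 (k + K0) (by omega)).2
    have h4 := ht1 k i
    exact ⟨by linarith [h3.1], by linarith [h3.2]⟩
  obtain ⟨T, hT, φ, hφ, hlim⟩ := hcomp.tendsto_subseq hmem
  have hφt : Tendsto φ atTop atTop := hφ.tendsto_atTop
  have hTi : ∀ i, Tendsto (fun k => t (φ k) i) atTop (𝓝 (T i)) := fun i =>
    (tendsto_pi_nhds.1 hlim) i
  choose s hs using ht2
  set q : ℕ → ℝ[X] := fun k => p (φ k + K0) with hq
  have hqCT : CT q P := hp.comp (hsh.comp hφt)
  have hqD : ∀ k, (q k).natDegree ≤ D := fun k => hD _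
  have hqs : ∀ k, q k = (∏ i, (X - C (t (φ k) i))) * s (φ k) := fun k => hs (φ k)
  have hsD : ∀ k, (s (φ k)).natDegree ≤ D := by
    intro k
    by_cases h0 : s (φ k) = 0
    · rw [h0]; simp
    · have h1 := hqD k
      rw [hqs k, natDegree_mul (prodX_ne _) h0] at h1
      omega
  have hmev : ∀ x : ℝ, Tendsto (fun k => (∏ i, (X - C (t (φ k) i)) : ℝ[X]).eval x) atTop
      (𝓝 ((∏ i, (X - C (T i)) : ℝ[X]).eval x)) := by
    intro x
    simp_rw [eval_prodX]
    exact tendsto_finsetProd _ fun i _ => tendsto_const_nhds.sub (hTi i)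
  have hpev : ∀ x : ℝ, Tendsto (fun k => (q k).eval x) atTop (𝓝 (P.eval x)) := fun x =>
    hqCT.eval hqD x
  set v : ℕ → ℝ := fun j => r + 2 + j with hv
  have hvinj : Set.InjOn v (Finset.range (D + 1) : Set ℕ) := by
    intro a _ b _ hab
    have : (a : ℝ) = b := by simpa [hv] using hab
    exact_mod_cast this
  have hmv : ∀ (S : Fin M → ℝ), (∀ i, S i ≤ r + 1) → ∀ j : ℕ,
      (∏ i, (X - C (S i)) : ℝ[X]).eval (v j) ≠ 0 := by
    intro S hS j
    rw [eval_prodX]
    refine Finset.prod_ne_zero_iff.2 fun i _ => ?_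
    have h1 := hS i
    have h2 : (0 : ℝ) ≤ j := Nat.cast_nonneg j
    have : 0 < v j - S i := by simp only [hv]; linarith
    exact this.ne'
  have hsv : ∀ j, Tendsto (fun k => (s (φ k)).eval (v j)) atTop
      (𝓝 (P.eval (v j) / (∏ i, (X - C (T i)) : ℝ[X]).eval (v j))) := by
    intro j
    have h1 : (fun k => (s (φ k)).eval (v j)) = fun k => (q k).eval (v j) /
        (∏ i, (X - C (t (φ k) i)) : ℝ[X]).eval (v j) := by
      funext k
      rw [hqs k, eval_mul, mul_div_cancel_left₀]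
      exact hmv _ (fun i => (hmem (φ k) i trivial).2) j
    rw [h1]
    exact (hpev _).div (hmev _) (hmv _ (fun i => (hT i trivial).2) j)
  set S : ℝ[X] := Lagrange.interpolate (Finset.range (D + 1)) v
    (fun j => P.eval (v j) / (∏ i, (X - C (T i)) : ℝ[X]).eval (v j)) with hS
  have hSev : ∀ x : ℝ, Tendsto (fun k => (s (φ k)).eval x) atTop (𝓝 (S.eval x)) := by
    intro x
    have h1 : ∀ k, s (φ k) = Lagrange.interpolate (Finset.range (D + 1)) v
        (fun j => (s (φ k)).eval (v j)) := by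
      intro k
      refine Lagrange.eq_interpolate hvinj ?_
      rw [Finset.card_range]
      exact lt_of_le_of_lt degree_le_natDegree (by exact_mod_cast Nat.lt_succ_of_le (hsD k))
    have h2 : ∀ k, (s (φ k)).eval x = ∑ j ∈ Finset.range (D + 1),
        (s (φ k)).eval (v j) * (Lagrange.basis (Finset.range (D + 1)) v j).eval x := by
      intro k
      conv_lhs => rw [h1 k]
      rw [Lagrange.interpolate_apply, eval_finsetSum]
      simp
    simp_rw [h2]
    rw [hS, Lagrange.interpolate_apply, eval_finsetSum]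
    simp only [eval_mul, eval_C]
    exact tendsto_finsetSum _ fun j _ => (hsv j).mul_const _
  refine ⟨T, fun i => ⟨?_, ?_⟩, S, ?_⟩
  · refine le_of_tendsto_of_tendsto' ((hl.comp hsh).comp hφt) (hTi i) fun k => (ht1 (φ k) i).1
  · refine le_of_tendsto_of_tendsto' (hTi i) ((hr.comp hsh).comp hφt) fun k => (ht1 (φ k) i).2
  · refine Polynomial.funext fun x => ?_
    rw [eval_mul]
    refine tendsto_nhds_unique (hpev x) ?_
    have : (fun k => (q k).eval x) = fun k => (∏ i, (X - C (t (φ k) i)) : ℝ[X]).eval x *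
        (s (φ k)).eval x := by
      funext k
      rw [hqs k, eval_mul]
    rw [this]
    exact (hmev x).mul (hSev x)

open Classical in
/-- the number of zeros of `p` in `s`, with multiplicity -/
noncomputable def cnt (p : ℝ[X]) (s : Set ℝ) : ℕ := (p.roots.filter (· ∈ s)).card

theorem cnt_of_dvd {p : ℝ[X]} (hp : p ≠ 0) {s : Set ℝ} {M : ℕ} {t : Fin M → ℝ}
    (ht : ∀ i, t i ∈ s) (hd : (∏ i, (X - C (t i))) ∣ p) : M ≤ cnt p s := by
  classical
  have h1 := Polynomial.roots.le_of_dvd hp hd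
  have h2 : (∏ i, (X - C (t i)) : ℝ[X]).roots = Finset.univ.val.map t := by
    have : (∏ i, (X - C (t i)) : ℝ[X]) =
        ((Finset.univ.val.map t).map fun a => X - C a).prod := by
      rw [Multiset.map_map]
      rfl
    rw [this, roots_multiset_prod_X_sub_C]
  unfold cnt
  have h3 := Multiset.card_le_card (Multiset.filter_le_filter (· ∈ s) h1)
  refine le_trans ?_ h3
  rw [h2, Multiset.filter_eq_self.2]
  · simp
  · intro a ha
    obtain ⟨i, -, rfl⟩ := Multiset.mem_map.1 ha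
    exact ht i

theorem dvd_of_cnt {p : ℝ[X]} {s : Set ℝ} {M : ℕ} (h : M ≤ cnt p s) :
    ∃ t : Fin M → ℝ, (∀ i, t i ∈ s) ∧ (∏ i, (X - C (t i))) ∣ p := by
  classical
  unfold cnt at h
  obtain ⟨u, hu, hcard⟩ : ∃ u ≤ p.roots.filter (· ∈ s), u.card = M := by
    refine ⟨(((p.roots.filter (· ∈ s)).toList.take M : List ℝ) : Multiset ℝ), ?_, ?_⟩
    · have h2 := Multiset.coe_le.2
        ((List.take_sublist M (p.roots.filter (· ∈ s)).toList).subperm)
      rwa [Multiset.coe_toList] at h2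
    · simp [h]
  refine ⟨fun i => u.toList.get (i.cast (by simp [hcard])), fun i => ?_, ?_⟩
  · have : u.toList.get (i.cast (by simp [hcard])) ∈ u := by
      rw [← Multiset.mem_toList]
      exact List.get_mem _ _
    exact (Multiset.mem_filter.1 (Multiset.mem_of_le hu this)).2
  · have h1 : (∏ i : Fin M, (X - C (u.toList.get (i.cast (by simp [hcard]))) : ℝ[X])) =
        (u.map fun a => X - C a).prod := by
      have h2 : u = (u.toList : Multiset ℝ) := (Multiset.coe_toList u).symm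
      conv_rhs => rw [h2]
      rw [Multiset.map_coe, Multiset.prod_coe]
      subst hcard
      rw [← List.prod_ofFn]
      congr 1
      apply List.ext_get
      · simp
      · intro n h1 h2
        simp
    rw [h1]
    exact (Multiset.prod_dvd_prod_of_le (Multiset.map_le_map
      (hu.trans (Multiset.filter_le _ _)))).trans (prod_multiset_X_sub_C_dvd p)

theorem cnt_univ (p : ℝ[X]) : cnt p Set.univ = p.roots.card := by
  unfold cnt
  simp

theorem cnt_mono {p : ℝ[X]} {s t : Set ℝ} (h : s ⊆ t) : cnt p s ≤ cnt p t := by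
  classical
  unfold cnt
  exact Multiset.card_le_card (Multiset.monotone_filter_right _ fun a ha => h ha)

end Pool.Agent.TH99.RJ
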