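import Pool.Agent.TH99.RJ.Grow
import Pool.Agent.H24R2.JP.Had
import Pool.Agent.H24R2.JP.B1
import Pool.Agent.H24R2.JP.Der
import Pool.Agent.H24R2.JP.Polys
import Pool.Agent.H24R2.JP.Newton
import Pool.Agent.H471R3.GJ.Good

set_option autoImplicit false

/-!
# Jensen polynomials of an entire function of order 1/2 with zeros in a parabola
-/

namespace Pool.Agent.TH99.RJ

open Polynomial Filter Topology
open Pool.Agent.H24R2.JP (Par App Good Hyperbolic)

/-- The growth condition of the library. -/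
theorem Gr.grow34 {F : ℂ → ℂ} (h : Gr F) :
    ∃ K : ℝ, ∀ x, ‖F x‖ ≤ Real.exp (K * (1 + ‖x‖) ^ (3 / 4 : ℝ)) := by
  obtain ⟨K, hK, hb⟩ := h
  refine ⟨8 * K, fun x => (hb x).trans (Real.exp_le_exp.2 ?_)⟩
  have hx : 0 ≤ ‖x‖ := norm_nonneg x
  obtain ⟨u, hu⟩ : ∃ u : ℝ, u = (1 + ‖x‖) ^ (1 / 4 : ℝ) := ⟨_, rfl⟩
  have hu1 : (1 : ℝ) ≤ u := by
    rw [hu]
    exact Real.one_le_rpow (by linarith) (by norm_num)
  have hx0 : (0 : ℝ) ≤ 1 + ‖x‖ := by positivity
  have hu3 : (1 + ‖x‖) ^ (3 / 4 : ℝ) = u ^ 3 := by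
    rw [hu, ← Real.rpow_natCast, ← Real.rpow_mul hx0]; norm_num
  have hu4 : u ^ 4 = 1 + ‖x‖ := by
    rw [hu, ← Real.rpow_natCast, ← Real.rpow_mul hx0]; norm_num
  rw [hu3]
  unfold BB
  have e1 : √(1 + ‖x‖) = u ^ 2 := by
    rw [← hu4, show u ^ 4 = (u ^ 2) ^ 2 by ring, Real.sqrt_sq (by positivity)]
  have e2 : Real.log (2 + ‖x‖) ≤ 8 * u := by
    have h1 : 2 + ‖x‖ ≤ 2 * u ^ 4 := by linarith
    have h2 : Real.log (2 + ‖x‖) ≤ Real.log (2 * u ^ 4) := Real.log_le_log (by linarith) h1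
    rw [Real.log_mul (by norm_num) (by positivity), Real.log_pow] at h2
    have h3 : Real.log 2 ≤ 1 := by
      have := Real.log_le_sub_one_of_pos (by norm_num : (0 : ℝ) < 2)
      linarith
    have h4 : Real.log u ≤ u - 1 := Real.log_le_sub_one_of_pos (by linarith)
    push_cast at h2
    linarith
  rw [e1]
  calc K * (u ^ 2 * Real.log (2 + ‖x‖)) ≤ K * (u ^ 2 * (8 * u)) := by gcongr
    _ = 8 * K * u ^ 3 := by ring

/-- log-concavity from the Jensen polynomials of degree two -/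
theorem lc_of_hyp' {γ : ℕ → ℝ} {n : ℕ} (h2 : 0 < γ (n + 2))
    (h : ∀ z : ℂ, aeval z (Jp 2 fun j => γ (n + j)) = 0 → z.im = 0) :
    γ n * γ (n + 2) ≤ γ (n + 1) ^ 2 := by
  by_contra hcon
  push Not at hcon
  set a : ℝ := γ (n + 2)
  set b : ℝ := γ (n + 1)
  set c : ℝ := γ n
  set s : ℝ := √(c * a - b ^ 2) with hs
  have hs2 : s ^ 2 = c * a - b ^ 2 := Real.sq_sqrt (by linarith)
  have hs0 : 0 < s := Real.sqrt_pos.2 (by linarith)
  have h1 : aeval ((-b + s * Complex.I) / a : ℂ) (Jp 2 fun j => γ (n + j)) = 0 := by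
    unfold Jp
    rw [map_sum, Finset.sum_range_succ, Finset.sum_range_succ, Finset.sum_range_one]
    simp only [map_mul, aeval_C, map_pow, aeval_X, Complex.coe_algebraMap, Nat.choose_zero_right,
      Nat.choose_one_right, Nat.choose_self, Nat.cast_one, one_mul, add_zero, pow_zero, mul_one,
      pow_one, Nat.cast_ofNat]
    have ha0 : (a : ℂ) ≠ 0 := by exact_mod_cast h2.ne'
    have hsc : (s : ℂ) ^ 2 = c * a - b ^ 2 := by exact_mod_cast hs2
    show (c : ℂ) + ((2 : ℝ) : ℂ) * (b : ℂ) * ((-b + s * Complex.I) / a) +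
      (a : ℂ) * ((-b + s * Complex.I) / a) ^ 2 = 0
    push_cast
    field_simp
    ring_nf
    rw [Complex.I_sq, hsc]
    ring
  have h3 := h _ h1
  rw [Complex.div_ofReal_im] at h3
  simp at h3
  rcases h3 with h3 | h3
  · exact hs0.ne' h3
  · exact h2.ne' h3

/-- The standing hypothesis. -/
structure Hyp (F : ℂ → ℂ) (γ : ℕ → ℝ) (n0 : ℕ) : Prop where
  diff : Differentiable ℂ F
  grow : Gr F
  conj : ∀ x, F ((starRingEnd ℂ) x) = (starRingEnd ℂ) (F x)
  zeros : ∀ x, F x = 0 → x ∈ Par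
  coef : ∀ n, iteratedDeriv n F 0 = ((γ n : ℝ) : ℂ)
  pos : ∀ n, n0 ≤ n → 0 < γ n
  lc : ∀ n, n0 ≤ n → γ n * γ (n + 2) ≤ γ (n + 1) ^ 2

/-- polynomial approximation of a function with a zero at the origin -/
theorem app_of {f g : ℂ → ℂ} {m : ℕ} (hgd : Differentiable ℂ g) (hg0 : g 0 ≠ 0)
    (hfg : ∀ x, f x = x ^ m * g x)
    (hgc : ∀ x, g ((starRingEnd ℂ) x) = (starRingEnd ℂ) (g x))
    (hK : ∃ K : ℝ, ∀ x, ‖g x‖ ≤ Real.exp (K * (1 + ‖x‖) ^ (3 / 4 : ℝ)))
    (hz : ∀ x, g x = 0 → x ∈ Par) :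
    ∃ P : ℕ → ℝ[X], App g P ∧ App f (fun N => X ^ m * P N) := by
  obtain ⟨K, hK⟩ := hK
  obtain ⟨P, hP, hlim⟩ := Pool.Agent.H24R2.JP.had g K hgd hg0 hgc hK
  refine ⟨P, ⟨fun N x hx => hz x (hP N x hx), hlim⟩, fun N x hx => ?_, ?_⟩
  · rw [map_mul, map_pow, aeval_X, mul_eq_zero] at hx
    rcases hx with hx | hx
    · have hx0 : x = 0 := by
        by_contra h
        exact pow_ne_zero m h hx
      rw [hx0]
      show (0 : ℂ).re + (0 : ℂ).im ^ 2 ≤ 1 / 4
      norm_num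
    · exact hz x (hP N x hx)
  · have h8 : TendstoLocallyUniformly (fun (_ : ℕ) (x : ℂ) => x ^ m) (fun x : ℂ => x ^ m) atTop := by
      intro u hu x
      exact ⟨Set.univ, Filter.univ_mem, Filter.Eventually.of_forall fun N y _ => refl_mem_uniformity hu⟩
    have h9 := h8.mul₀ hlim (continuous_pow m) hgd.continuous
    have e1 : (fun (N : ℕ) (x : ℂ) => aeval x (Polynomial.X ^ m * P N)) =
        (fun (_ : ℕ) (x : ℂ) => x ^ m) * fun (N : ℕ) (x : ℂ) => aeval x (P N) := by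
      funext N x
      simp
    have e2 : f = (fun x : ℂ => x ^ m) * g := by
      funext x
      exact hfg x
    rw [e1, e2]
    exact h9

theorem Hyp.app {F : ℂ → ℂ} {γ : ℕ → ℝ} {n0 : ℕ} (h : Hyp F γ n0) :
    ∃ P : ℕ → ℝ[X], App F P := by
  obtain ⟨m, g, hgd, hg0, hfg, hgc, hK⟩ :=
    Pool.Agent.H471R3.GJ.GoodAux.exists_div F h.diff
      ⟨n0, by rw [h.coef]; exact_mod_cast (h.pos n0 le_rfl).ne'⟩ h.conj h.grow.grow34
  obtain ⟨P, -, hP⟩ := app_of hgd hg0 hfg hgc hK (fun x hx => h.zeros x (by rw [hfg, hx, mul_zero]))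
  exact ⟨_, hP⟩

/-- real form of the coefficient convergence -/
theorem der_real {F : ℂ → ℂ} {P : ℕ → ℝ[X]} (hP : App F P) {γ : ℕ → ℝ}
    (hγ : ∀ n, iteratedDeriv n F 0 = ((γ n : ℝ) : ℂ)) (n j : ℕ) :
    Tendsto (fun N => (j.factorial : ℝ) * (derivative^[n] (P N)).coeff j) atTop
      (𝓝 (γ (n + j))) := by
  have hcoef := (Pool.Agent.H24R2.JP.der F P hP n).2 j
  have h1 := (Complex.continuous_re.tendsto _).comp hcoef
  rw [hγ (n + j), Complex.ofReal_re] at h1
  refine h1.congr fun N => ?_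
  simp only [Function.comp_apply]
  rw [← Complex.ofReal_natCast, ← Complex.ofReal_mul, Complex.ofReal_re]

/-- the case of a nonzero constant term -/
theorem Hyp.cnt_ne {F : ℂ → ℂ} {γ : ℕ → ℝ} {n0 : ℕ} (h : Hyp F γ n0) :
    ∃ C : ℝ, 0 < C ∧ ∀ n, γ n ≠ 0 → ∀ d : ℕ, 1 ≤ d →
      (nonreal (Jp d fun j => γ (n + j)) : ℝ) ≤ C * ((d : ℝ) ^ (2 / 3 : ℝ) * Real.log (d + 1)) := by
  obtain ⟨K, hK, hb⟩ := unif h.diff h.grow h.coef h.pos h.lc
  obtain ⟨P, hP⟩ := h.app
  refine ⟨110 * K + 2, by positivity, fun n hn d hd => ?_⟩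
  refine final_bound hK d hd _ fun x hx hx1 => ?_
  have hloc := (Pool.Agent.H24R2.JP.der F P hP n).1
  have hcoef' := der_real hP h.coef n
  refine limCountJ (iteratedDeriv n F) (fun N => derivative^[n] (P N)) (fun j => γ (n + j)) ?_
    hloc hcoef' hn d hd x _ _ hx hx1 ?_ ?_
  · have e2 : ∀ᶠ N in atTop, ((0 : ℕ).factorial : ℝ) * (derivative^[n] (P N)).coeff 0 ≠ 0 :=
      (hcoef' 0).eventually_ne hn
    filter_upwards [e2] with N hN y hy
    refine Pool.Agent.H24R2.JP.gl (P N) n (hP.1 N) ?_ y hy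
    intro h1
    rw [h1] at hN
    simp at hN
  · intro w hw
    have h1 := hb n hn w
    rw [hw] at h1
    exact h1
  · intro w hw
    have h1 := hb n hn w
    rw [hw] at h1
    exact h1

/-- the derivatives have their zeros in the parabola -/
theorem Hyp.zeros_iter {F : ℂ → ℂ} {γ : ℕ → ℝ} {n0 : ℕ} (h : Hyp F γ n0) (n : ℕ) (w : ℂ)
    (hw : iteratedDeriv n F w = 0) : w ∈ Par := by
  obtain ⟨P, hP⟩ := h.app
  have hloc := (Pool.Agent.H24R2.JP.der F P hP n).1
  -- the derivative does not vanish identically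
  have hne : ∃ z1, iteratedDeriv n F z1 ≠ 0 := by
    by_contra hcon
    push Not at hcon
    have h1 : iteratedDeriv n F = fun _ => 0 := funext hcon
    have h2 := iter_add F n n0
    rw [h1] at h2
    have h3 := congrFun h2 0
    have h4 : iteratedDeriv n0 (fun _ : ℂ => (0 : ℂ)) 0 = 0 := by simp
    rw [h4, h.coef] at h3
    have h5 := h.pos (n + n0) (by omega)
    have h6 : (γ (n + n0) : ℂ) ≠ 0 := by exact_mod_cast h5.ne'
    exact h6 h3.symm
  obtain ⟨z1, hz1⟩ := hne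
  have hnz : ∀ᶠ N in atTop, derivative^[n] (P N) ≠ 0 := by
    have h1 := ((tendstoLocallyUniformlyOn_univ.2 hloc).tendsto_at (Set.mem_univ z1))
    filter_upwards [h1.eventually_ne hz1] with N hN h0
    rw [h0] at hN
    simp at hN
  have hur := fun (ε : ℝ) (hε : 0 < ε) => Pool.Agent.H24R2.JP.NewtonAux.hurwitz
    (fun (N : ℕ) (x : ℂ) => aeval x (derivative^[n] (P N))) (iteratedDeriv n F)
    (fun N => fun x => ((derivative^[n] (P N)).hasDerivAt_aeval x).differentiableAt) hloc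
    (diff_iter h.diff n) z1 hz1 w hw ε hε
  have hcl : IsClosed Par := by
    have : Par = {x : ℂ | x.re + x.im ^ 2 ≤ 1 / 4} := rfl
    rw [this]
    exact isClosed_le (Complex.continuous_re.add (Complex.continuous_im.pow 2)) continuous_const
  rw [← hcl.closure_eq, Metric.mem_closure_iff]
  intro ε hε
  obtain ⟨N, ⟨z, hz1, hz2⟩, hN⟩ := ((hur (ε / 2) (by linarith)).and hnz).exists
  refine ⟨z, Pool.Agent.H24R2.JP.gl (P N) n (hP.1 N) hN z hz2, ?_⟩
  rw [dist_comm, dist_eq_norm]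
  linarith

theorem nonreal_C_X_mul (c : ℝ) (hc : c ≠ 0) (k : ℕ) (p : ℝ[X]) :
    nonreal (C c * (X ^ k * p)) = nonreal p := by
  unfold nonreal
  by_cases hp : p = 0
  · simp [hp]
  have hp' : p.map (algebraMap ℝ ℂ) ≠ 0 := by
    rwa [Ne, Polynomial.map_eq_zero_iff (algebraMap ℝ ℂ).injective]
  rw [Polynomial.map_mul, Polynomial.map_mul, Polynomial.map_pow, map_C, map_X,
    roots_C_mul _ (by simpa using hc), roots_mul (mul_ne_zero (pow_ne_zero _ X_ne_zero) hp'),
    roots_pow, roots_X, Multiset.filter_add, Multiset.card_add]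
  have : Multiset.filter (fun z : ℂ => z.im ≠ 0) (k • {0}) = 0 := by
    rw [Multiset.filter_eq_nil]
    intro a ha
    have h1 : a = 0 := by
      rw [Multiset.nsmul_singleton, Multiset.mem_replicate] at ha
      exact ha.2
    rw [h1]
    simp
  rw [this]
  simp

/-- factoring out the zero at the origin -/
theorem Jp_shift (k d : ℕ) (hkd : k ≤ d) (γ δ : ℕ → ℝ) (h0 : ∀ j, j < k → γ j = 0)
    (h1 : ∀ i, γ (k + i) = ((k + i).factorial : ℝ) / (i.factorial : ℝ) * δ i) :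
    Jp d γ = C ((d.factorial : ℝ) / ((d - k).factorial : ℝ)) * (X ^ k * Jp (d - k) δ) := by
  unfold Jp
  rw [Finset.mul_sum, Finset.mul_sum]
  obtain ⟨m, rfl⟩ : ∃ m, d = k + m := ⟨d - k, by omega⟩
  have e1 : k + m + 1 = k + (m + 1) := by ring
  rw [e1, Finset.sum_range_add]
  have e2 : ∑ x ∈ Finset.range k, C (((k + m).choose x : ℝ) * γ x) * (X : ℝ[X]) ^ x = 0 := by
    refine Finset.sum_eq_zero fun j hj => ?_
    rw [h0 j (Finset.mem_range.1 hj), mul_zero, C_0, zero_mul]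
  rw [e2, zero_add]
  have e3 : k + m - k = m := by omega
  rw [e3]
  refine Finset.sum_congr rfl fun i hi => ?_
  have hi' : i ≤ m := Nat.lt_succ_iff.1 (Finset.mem_range.1 hi)
  rw [h1 i, pow_add]
  have e4 : ((k + m).choose (k + i) : ℝ) * (((k + i).factorial : ℝ) / (i.factorial : ℝ) * δ i) =
      ((k + m).factorial : ℝ) / (m.factorial : ℝ) * ((m.choose i : ℝ) * δ i) := by
    have f1 := Nat.choose_mul_factorial_mul_factorial (show k + i ≤ k + m by omega)
    have f2 := Nat.choose_mul_factorial_mul_factorial hi'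
    have e5 : k + m - (k + i) = m - i := by omega
    rw [e5] at f1
    have f1' : ((k + m).choose (k + i) : ℝ) * ((k + i).factorial : ℝ) * ((m - i).factorial : ℝ) =
      ((k + m).factorial : ℝ) := by exact_mod_cast f1
    have f2' : (m.choose i : ℝ) * (i.factorial : ℝ) * ((m - i).factorial : ℝ) =
      (m.factorial : ℝ) := by exact_mod_cast f2
    have g1 : (i.factorial : ℝ) ≠ 0 := by positivity
    have g2 : ((m - i).factorial : ℝ) ≠ 0 := by positivity
    have g3 : (m.choose i : ℝ) ≠ 0 := by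
      have := Nat.choose_pos hi'
      positivity
    rw [← f1', ← f2']
    field_simp
  rw [e4, C_mul]
  ring

/-- every single shift -/
theorem Hyp.cnt_one {F : ℂ → ℂ} {γ : ℕ → ℝ} {n0 : ℕ} (h : Hyp F γ n0) (n : ℕ) :
    ∃ C : ℝ, 0 < C ∧ ∀ d : ℕ, 1 ≤ d →
      (nonreal (Jp d fun j => γ (n + j)) : ℝ) ≤ C * ((d : ℝ) ^ (2 / 3 : ℝ) * Real.log (d + 1)) := by
  set f : ℂ → ℂ := iteratedDeriv n F with hf
  have hfd : Differentiable ℂ f := diff_iter h.diff n
  have hfc : ∀ j, iteratedDeriv j f 0 = ((γ (n + j) : ℝ) : ℂ) := fun j => by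
    rw [hf, iter_add, h.coef]
  have hfconj : ∀ x, f ((starRingEnd ℂ) x) = (starRingEnd ℂ) (f x) :=
    Pool.Agent.H24R2.JP.B1h.iter_conj F h.conj n
  obtain ⟨m, g, hgd, hg0, hfg, hgc, hK⟩ :=
    Pool.Agent.H471R3.GJ.GoodAux.exists_div f hfd
      ⟨n0, by rw [hfc]; exact_mod_cast (h.pos (n + n0) (by omega)).ne'⟩ hfconj
      (h.grow.iter h.diff n).grow34
  obtain ⟨P, hPg, hPf⟩ := app_of hgd hg0 hfg hgc hK
    (fun x hx => h.zeros_iter n x (by rw [← hf, hfg, hx, mul_zero]))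
  set δ : ℕ → ℝ := fun j => (iteratedDeriv j g 0).re with hδ
  have hδc : ∀ j, iteratedDeriv j g 0 = ((δ j : ℝ) : ℂ) := by
    intro j
    have h1 := Pool.Agent.H24R2.JP.B1h.iter_conj g hgc j 0
    rw [map_zero] at h1
    exact (Complex.conj_eq_iff_re.1 h1.symm).symm
  have hδ0 : δ 0 ≠ 0 := by
    intro h1
    have h2 := hδc 0
    rw [h1, iteratedDeriv_zero] at h2
    exact hg0 (by simpa using h2)
  have c1 : ∀ j, Tendsto (fun N => (j.factorial : ℝ) * (P N).coeff j) atTop (𝓝 (δ j)) := by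
    intro j
    have := der_real hPg hδc 0 j
    simpa using this
  have c2 : ∀ j, Tendsto (fun N => (j.factorial : ℝ) * (X ^ m * P N).coeff j) atTop
      (𝓝 (γ (n + j))) := by
    intro j
    have := der_real hPf (γ := fun j => γ (n + j)) hfc 0 j
    simpa using this
  have r0 : ∀ j, j < m → γ (n + j) = 0 := by
    intro j hj
    refine tendsto_nhds_unique (c2 j) ?_
    have : (fun N => (j.factorial : ℝ) * (X ^ m * P N).coeff j) = fun _ => (0 : ℝ) := by
      funext N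
      rw [coeff_X_pow_mul', if_neg (by omega), mul_zero]
    rw [this]
    exact tendsto_const_nhds
  have r1 : ∀ i, γ (n + (m + i)) = ((m + i).factorial : ℝ) / (i.factorial : ℝ) * δ i := by
    intro i
    refine tendsto_nhds_unique (c2 (m + i)) ?_
    have : (fun N => ((m + i).factorial : ℝ) * (X ^ m * P N).coeff (m + i)) =
        fun N => ((m + i).factorial : ℝ) / (i.factorial : ℝ) * ((i.factorial : ℝ) * (P N).coeff i) := by
      funext N
      rw [coeff_X_pow_mul', if_pos (by omega), Nat.add_sub_cancel_left]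
      have g1 : (i.factorial : ℝ) ≠ 0 := by positivity
      field_simp
    rw [this]
    exact (c1 i).const_mul _
  obtain ⟨K, hK0, hKb⟩ := h.grow.iter h.diff n
  set K' : ℝ := K + 2 * abs (Real.log (abs (δ 0))) with hK'
  have hK'0 : 0 ≤ K' := by positivity
  have hgb : ∀ w : ℂ, 1 ≤ ‖w‖ → ‖g w‖ ≤ |δ 0| * Real.exp (K' * BB ‖w‖) := by
    intro w hw
    have h1 : ‖g w‖ ≤ ‖f w‖ := by
      rw [hfg w, norm_mul, norm_pow]
      exact le_mul_of_one_le_left (norm_nonneg _) (one_le_pow₀ hw)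
    have h2 : 0 < |δ 0| := abs_pos.2 hδ0
    have h3 : |δ 0| = Real.exp (Real.log |δ 0|) := (Real.exp_log h2).symm
    refine h1.trans ((hKb w).trans ?_)
    conv_rhs => rw [h3]
    rw [← Real.exp_add]
    apply Real.exp_le_exp.2
    have h4 := BB_half (norm_nonneg w)
    have h5 := neg_abs_le (Real.log |δ 0|)
    have h6 := abs_nonneg (Real.log |δ 0|)
    nlinarith
  have hJz : ∀ e : ℕ → ℝ, nonreal (Jp 0 e) = 0 := by
    intro e
    have h1 := nonreal_eq (Jp 0 e)
    have h2 : (Jp 0 e).natDegree = 0 := by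
      unfold Jp
      simp
    omega
  refine ⟨110 * K' + 2, by positivity, fun d hd => ?_⟩
  have hd1 : (1 : ℝ) ≤ d := by exact_mod_cast hd
  have hR0 : 0 ≤ (110 * K' + 2) * ((d : ℝ) ^ (2 / 3 : ℝ) * Real.log (d + 1)) := by
    have : 0 ≤ Real.log ((d : ℝ) + 1) := Real.log_nonneg (by linarith)
    positivity
  rcases Nat.lt_or_ge d m with hdm | hdm
  · have h1 : Jp d (fun j => γ (n + j)) = 0 := by
      unfold Jp
      refine Finset.sum_eq_zero fun j hj => ?_
      have hj' : γ (n + j) = 0 := r0 j (by have := Finset.mem_range.1 hj; omega)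
      simp only [hj', mul_zero, C_0, zero_mul]
    have h2 : nonreal (Jp d fun j => γ (n + j)) = 0 := by
      rw [h1]
      unfold nonreal
      simp
    rw [h2]
    exact_mod_cast hR0
  · have h1 := Jp_shift m d hdm (fun j => γ (n + j)) δ r0 r1
    rw [h1, nonreal_C_X_mul _ (by positivity)]
    rcases Nat.eq_zero_or_pos (d - m) with hz | hz
    · rw [hz, hJz]
      exact_mod_cast hR0
    · have h2 : (nonreal (Jp (d - m) δ) : ℝ) ≤ (110 * K' + 2) *
          (((d - m : ℕ) : ℝ) ^ (2 / 3 : ℝ) * Real.log (((d - m : ℕ) : ℝ) + 1)) := by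
        refine final_bound hK'0 (d - m) hz _ fun x hx hx1 => ?_
        have hz1 : (1 : ℝ) ≤ ((d - m : ℕ) : ℝ) := by exact_mod_cast hz
        refine limCountJ g P δ (Eventually.of_forall fun N => hPg.1 N) hPg.2 c1 hδ0 (d - m) hz x
          _ _ hx hx1 ?_ ?_
        · intro w hw
          have h3 := hgb w (by rw [hw]; linarith)
          rw [hw] at h3
          exact h3
        · intro w hw
          have h3 := hgb w (by
            rw [hw, le_div_iff₀ hx]
            linarith)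
          rw [hw] at h3
          exact h3
      refine h2.trans (mul_le_mul_of_nonneg_left ?_ (by positivity))
      have h3 : ((d - m : ℕ) : ℝ) ≤ d := by exact_mod_cast Nat.sub_le d m
      have h4 : (0 : ℝ) ≤ ((d - m : ℕ) : ℝ) := Nat.cast_nonneg _
      exact mul_le_mul (Real.rpow_le_rpow h4 h3 (by norm_num))
        (Real.log_le_log (by linarith) (by linarith)) (Real.log_nonneg (by linarith))
        (by positivity)

/-- **The general theorem.** -/
theorem Hyp.cnt {F : ℂ → ℂ} {γ : ℕ → ℝ} {n0 : ℕ} (h : Hyp F γ n0) :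
    ∃ C : ℝ, 0 < C ∧ ∀ d n : ℕ,
      (nonreal (Jp d fun j => γ (n + j)) : ℝ) ≤ C * ((d : ℝ) ^ (2 / 3 : ℝ) * Real.log (d + 1)) := by
  obtain ⟨C1, hC1, h1⟩ := h.cnt_ne
  have h2 := h.cnt_one
  choose C2 hC2 h3 using h2
  set Ct : ℝ := ∑ i ∈ Finset.range n0, C2 i with hCt
  have hCt0 : 0 ≤ Ct := Finset.sum_nonneg fun i _ => (hC2 i).le
  refine ⟨C1 + Ct, by positivity, fun d n => ?_⟩
  rcases Nat.eq_zero_or_pos d with hd | hd
  · subst hd
    have h4 := nonreal_eq (Jp 0 fun j => γ (n + j))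
    have h5 : (Jp 0 fun j => γ (n + j)).natDegree = 0 := by
      unfold Jp
      simp
    have h6 : nonreal (Jp 0 fun j => γ (n + j)) = 0 := by omega
    rw [h6]
    simp
  have hd1 : (1 : ℝ) ≤ d := by exact_mod_cast hd
  have hR : 0 ≤ (d : ℝ) ^ (2 / 3 : ℝ) * Real.log (d + 1) := by
    have : 0 ≤ Real.log ((d : ℝ) + 1) := Real.log_nonneg (by linarith)
    positivity
  by_cases hn : n < n0
  · refine (h3 n d hd).trans (mul_le_mul_of_nonneg_right ?_ hR)
    have : C2 n ≤ Ct := Finset.single_le_sum (f := C2) (fun j _ => (hC2 j).le)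
      (Finset.mem_range.2 hn)
    linarith
  · refine (h1 n (h.pos n (by omega)).ne' d hd).trans (mul_le_mul_of_nonneg_right ?_ hR)
    linarith

end Pool.Agent.TH99.RJ
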