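import Pool.Agent.TH99.RJ.Bad
import Pool.Agent.W355.GJ.Crit

set_option autoImplicit false

/-!
# Jensen polynomials of L-functions (the class `IsL` of `Pool.Agent.W355.GJ`)
-/

namespace Pool.Agent.TH99.RJ.GW

open Polynomial Filter Topology MeasureTheory
open Pool.Agent.TH99.RJ
open Pool.Agent.H24R2.JP (Par App Good Hyperbolic)
open Pool.Agent.H471R3.GJ (Dat FF gam jensen NH)
open Pool.Agent.W355.GJ (IsL)
open Pool.Agent.W355.GJ.Crit (Scale jensenP gamma gam_eq)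

/-- Growth of order 1/2 (with the logarithm). -/
theorem gr_isL (D : Dat) (h : IsL D) : Gr (FF D) := by
  obtain ⟨-, hXX, -, -⟩ := Pool.Agent.W355.GJ.T.b1T D h
  obtain ⟨C, c1, c2, hc1, hc2, hΦ⟩ := h.Φ_dec
  have hC : 0 ≤ C := by
    by_contra hneg
    push Not at hneg
    have h0 := hΦ 0
    have h1 : 0 ≤ |D.Φ 0| := abs_nonneg _
    have h2 : C * Real.exp (-c1 * Real.exp (c2 * |(0 : ℝ)|)) < 0 :=
      mul_neg_of_neg_of_pos hneg (Real.exp_pos _)
    linarith
  obtain ⟨a, ha⟩ : ∃ a : ℝ, a = c1 * c2 ^ 2 / 4 := ⟨_, rfl⟩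
  have ha0 : 0 < a := by rw [ha]; positivity
  obtain ⟨I0, hI0⟩ : ∃ I0 : ℝ, I0 = ∫ t : ℝ, Real.exp (-a * t ^ 2) := ⟨_, rfl⟩
  have hI0n : 0 ≤ I0 := by
    rw [hI0]; exact integral_nonneg fun t => (Real.exp_pos _).le
  -- the exponent
  obtain ⟨k, hk⟩ : ∃ k : ℕ, 8 / (c1 * c2) ≤ (2 : ℝ) ^ k := by
    obtain ⟨k, hk⟩ := pow_unbounded_of_one_lt (8 / (c1 * c2)) (by norm_num : (1 : ℝ) < 2)
    exact ⟨k, hk.le⟩
  have hcc : 0 < c1 * c2 := by positivity
  have hk' : 8 ≤ c1 * c2 * 2 ^ k := by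
    rw [div_le_iff₀ hcc] at hk
    linarith
  -- the pointwise inequality
  have hleg : ∀ y s : ℝ, 0 ≤ y → 0 ≤ s →
      y * s ≤ c1 / 2 * Real.exp (c2 * s) + y * (2 * ((k : ℝ) + 1) * Real.log (2 + y) / c2) := by
    intro y s hy hs
    have hlog : 0 ≤ Real.log (2 + y) := Real.log_nonneg (by linarith)
    rcases le_total s (2 * ((k : ℝ) + 1) * Real.log (2 + y) / c2) with h1 | h1
    · have h2 : y * s ≤ y * (2 * ((k : ℝ) + 1) * Real.log (2 + y) / c2) :=
        mul_le_mul_of_nonneg_left h1 hy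
      have h3 : 0 ≤ c1 / 2 * Real.exp (c2 * s) := by positivity
      linarith
    · have h2 : ((k : ℝ) + 1) * Real.log (2 + y) ≤ c2 * s / 2 := by
        rw [div_le_iff₀ hc2] at h1
        linarith
      have h3 : (2 + y) ^ (k + 1) ≤ Real.exp (c2 * s / 2) := by
        have h4 : Real.log ((2 + y) ^ (k + 1)) ≤ c2 * s / 2 := by
          rw [Real.log_pow]
          push_cast
          exact h2
        rw [← Real.exp_log (show (0 : ℝ) < (2 + y) ^ (k + 1) by positivity)]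
        exact Real.exp_le_exp.2 h4
      have h5 : c2 * s / 2 ≤ Real.exp (c2 * s / 2) := by
        have := Real.add_one_le_exp (c2 * s / 2)
        linarith
      have h6 : Real.exp (c2 * s) = Real.exp (c2 * s / 2) * Real.exp (c2 * s / 2) := by
        rw [← Real.exp_add]
        ring_nf
      have h7 : (2 : ℝ) ^ k * y ≤ (2 + y) ^ (k + 1) := by
        rw [pow_succ]
        exact mul_le_mul (pow_le_pow_left₀ (by norm_num) (by linarith) k) (by linarith) hy
          (by positivity)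
      have h8 : (2 : ℝ) ^ k * y * (c2 * s / 2) ≤ Real.exp (c2 * s) := by
        rw [h6]
        exact mul_le_mul (h7.trans h3) h5 (by positivity) (Real.exp_pos _).le
      have h9 : y * s ≤ c1 / 2 * Real.exp (c2 * s) := by
        have h10 : c1 / 2 * ((2 : ℝ) ^ k * y * (c2 * s / 2)) ≤ c1 / 2 * Real.exp (c2 * s) :=
          mul_le_mul_of_nonneg_left h8 (by positivity)
        have h11 : c1 / 2 * ((2 : ℝ) ^ k * y * (c2 * s / 2)) = (c1 * c2 * 2 ^ k) / 4 * (y * s) := by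
          ring
        rw [h11] at h10
        have h12 : 0 ≤ y * s := mul_nonneg hy hs
        nlinarith
      have h13 : 0 ≤ y * (2 * ((k : ℝ) + 1) * Real.log (2 + y) / c2) := by positivity
      linarith
  refine ⟨4 * ((k : ℝ) + 1) / c2 + 2 * (C * I0), by positivity, fun x => ?_⟩
  have hx0 : 0 ≤ ‖x‖ := norm_nonneg x
  have hhalf := BB_half hx0
  obtain ⟨z, hz⟩ : ∃ z : ℂ, z ^ 2 = x := by
    obtain ⟨z, hz⟩ := IsAlgClosed.exists_pow_nat_eq x (by norm_num : 0 < 2)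
    exact ⟨z, hz⟩
  obtain ⟨v, hv⟩ : ∃ v : ℝ, v = √(1 + ‖x‖) := ⟨_, rfl⟩
  have hv1 : 1 ≤ v := by rw [hv, Real.one_le_sqrt]; linarith
  have hv2 : v ^ 2 = 1 + ‖x‖ := by rw [hv, Real.sq_sqrt (by linarith)]
  obtain ⟨l, hl⟩ : ∃ l : ℝ, l = Real.log (2 + ‖x‖) := ⟨_, rfl⟩
  have hl2 : 1 / 2 ≤ l := by
    rw [hl]
    exact log2_half.trans (Real.log_le_log (by norm_num) (by linarith))
  have hBB : BB ‖x‖ = v * l := by rw [BB, ← hv, ← hl]
  have hy : |z.re| ≤ v := by
    have h1 : |z.re| ≤ ‖z‖ := Complex.abs_re_le_norm z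
    have h2 : ‖z‖ ^ 2 = ‖x‖ := by rw [← hz, norm_pow]
    have h3 : ‖z‖ ^ 2 ≤ v ^ 2 := by
      rw [h2, hv2]; linarith
    exact h1.trans (le_of_sq_le_sq h3 (by positivity))
  obtain ⟨y, hyd⟩ : ∃ y : ℝ, y = |z.re| := ⟨_, rfl⟩
  have hy0 : 0 ≤ y := by rw [hyd]; exact abs_nonneg _
  rw [← hyd] at hy
  have hlog : Real.log (2 + y) ≤ 2 * l := by
    have h1 : 2 + y ≤ (2 + ‖x‖) ^ 2 := by nlinarith
    have h2 : Real.log (2 + y) ≤ Real.log ((2 + ‖x‖) ^ 2) := Real.log_le_log (by linarith) h1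
    rw [Real.log_pow, ← hl] at h2
    exact_mod_cast h2
  have hlog0 : 0 ≤ Real.log (2 + y) := Real.log_nonneg (by linarith)
  set L : ℝ := y * (2 * ((k : ℝ) + 1) * Real.log (2 + y) / c2) with hL
  have hLb : L ≤ 4 * ((k : ℝ) + 1) / c2 * (v * l) := by
    rw [hL]
    have h1 : y * (2 * ((k : ℝ) + 1) * Real.log (2 + y) / c2) =
        2 * ((k : ℝ) + 1) / c2 * (y * Real.log (2 + y)) := by ring
    rw [h1]
    have h2 : y * Real.log (2 + y) ≤ v * (2 * l) := mul_le_mul hy hlog hlog0 (by linarith)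
    calc 2 * ((k : ℝ) + 1) / c2 * (y * Real.log (2 + y)) ≤ 2 * ((k : ℝ) + 1) / c2 * (v * (2 * l)) :=
          mul_le_mul_of_nonneg_left h2 (by positivity)
      _ = _ := by ring
  have hpt : ∀ t : ℝ, ‖((D.Φ t : ℝ) : ℂ) * Complex.exp (z * t)‖ ≤
      C * Real.exp L * Real.exp (-a * t ^ 2) := by
    intro t
    rw [norm_mul, Complex.norm_real, Complex.norm_exp, Real.norm_eq_abs]
    have hs : 0 ≤ |t| := abs_nonneg t
    have e1 : (z * (t : ℂ)).re ≤ y * |t| := by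
      have : (z * (t : ℂ)).re = z.re * t := by simp
      rw [this, hyd]
      calc z.re * t ≤ |z.re * t| := le_abs_self _
        _ = |z.re| * |t| := abs_mul _ _
    have e2 : a * t ^ 2 ≤ c1 / 2 * Real.exp (c2 * |t|) := by
      have h1 : (c2 * |t|) ^ 2 / 2 ≤ Real.exp (c2 * |t|) := by
        have := Real.pow_div_factorial_le_exp (c2 * |t|) (by positivity) 2
        simpa [Nat.factorial] using this
      have h2 : c1 / 2 * ((c2 * |t|) ^ 2 / 2) ≤ c1 / 2 * Real.exp (c2 * |t|) :=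
        mul_le_mul_of_nonneg_left h1 (by positivity)
      have h3 : c1 / 2 * ((c2 * |t|) ^ 2 / 2) = a * t ^ 2 := by
        rw [ha, mul_pow, sq_abs]; ring
      linarith
    have e3 := hleg y |t| hy0 hs
    have e6 : -c1 * Real.exp (c2 * |t|) + y * |t| ≤ L + -a * t ^ 2 := by
      rw [← hL] at e3
      linarith
    calc |D.Φ t| * Real.exp (z * (t : ℂ)).re
        ≤ (C * Real.exp (-c1 * Real.exp (c2 * |t|))) * Real.exp (y * |t|) :=
          mul_le_mul (hΦ t) (Real.exp_le_exp.2 e1) (Real.exp_pos _).le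
            (mul_nonneg hC (Real.exp_pos _).le)
      _ = C * Real.exp (-c1 * Real.exp (c2 * |t|) + y * |t|) := by
          rw [Real.exp_add]; ring
      _ ≤ C * Real.exp (L + -a * t ^ 2) :=
          mul_le_mul_of_nonneg_left (Real.exp_le_exp.2 e6) hC
      _ = C * Real.exp L * Real.exp (-a * t ^ 2) := by
          rw [Real.exp_add]; ring
  have hint : Integrable (fun t : ℝ => C * Real.exp L * Real.exp (-a * t ^ 2)) :=
    (integrable_exp_neg_mul_sq ha0).const_mul _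
  have e1 := hXX z
  rw [hz] at e1
  rw [e1, h.XX_eq z]
  calc ‖∫ t : ℝ, ((D.Φ t : ℝ) : ℂ) * Complex.exp (z * t)‖
      ≤ ∫ t : ℝ, C * Real.exp L * Real.exp (-a * t ^ 2) :=
        norm_integral_le_of_norm_le hint (Eventually.of_forall hpt)
    _ = C * Real.exp L * I0 := by
        rw [integral_const_mul, ← hI0]
    _ = Real.exp L * (C * I0) := by ring
    _ ≤ Real.exp L * Real.exp (C * I0) := by
        apply mul_le_mul_of_nonneg_left _ (Real.exp_pos _).le
        have h4 := Real.add_one_le_exp (C * I0)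
        linarith
    _ = Real.exp (L + C * I0) := by rw [Real.exp_add]
    _ ≤ Real.exp ((4 * ((k : ℝ) + 1) / c2 + 2 * (C * I0)) * BB ‖x‖) := by
        apply Real.exp_le_exp.2
        rw [hBB] at hhalf ⊢
        have h2 : 0 ≤ C * I0 := mul_nonneg hC hI0n
        nlinarith

/-- The class `IsL` satisfies the hypotheses. -/
theorem hyp_isL (D : Dat) (h : IsL D) : ∃ n0 : ℕ, Hyp (FF D) (gam D) n0 := by
  obtain ⟨hd, -, hc, h0⟩ := Pool.Agent.W355.GJ.T.b1T D h
  obtain ⟨k0, hk0, -⟩ := Pool.Agent.W355.GJ.T.gamT D h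
  obtain ⟨C0, hC0, hhyp⟩ := Pool.Agent.W355.GJ.T.hypT D h
  refine ⟨max k0 ⌈C0 * Real.log 3⌉₊, hd, gr_isL D h, hc, Pool.Agent.W355.GJ.T.zerosT D h, h0,
    fun n hn => hk0 n ((le_max_left _ _).trans hn), fun n hn => ?_⟩
  have hn1 : k0 ≤ n := (le_max_left _ _).trans hn
  have hn2 : ⌈C0 * Real.log 3⌉₊ ≤ n := (le_max_right _ _).trans hn
  refine lc_of_hyp' (hk0 _ (by omega)) fun z hz => ?_
  refine hhyp 2 n (by norm_num) ?_ z hz
  have h1 : C0 * Real.log 3 ≤ (⌈C0 * Real.log 3⌉₊ : ℕ) := Nat.le_ceil _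
  have h2 : ((⌈C0 * Real.log 3⌉₊ : ℕ) : ℝ) ≤ n := by exact_mod_cast hn2
  have h3 : (((2 : ℕ) : ℝ) + 1) = 3 := by norm_num
  rw [h3]
  linarith

/-- The criterion: few zeros outside `(-∞, 0]`, and none at all if and only if `RH`. -/
def CCrit (r : ℕ) (F : ℂ → ℂ) (RH : Prop) : Prop :=
  (∃ C : ℝ, 0 < C ∧ ∀ d n : ℕ,
    (bad (jensenP r F d n) : ℝ) ≤ C * ((d : ℝ) ^ (2 / 3 : ℝ) * Real.log (d + 1))) ∧
  (RH ↔ ∀ d n : ℕ, bad (jensenP r F d n) = 0)

theorem ccrit_of_scale {D : Dat} {r : ℕ} {F : ℂ → ℂ} {c K : ℝ} (h : Scale D r F c K) :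
    CCrit r F (∀ z : ℂ, D.XX z = 0 → z.re = 0) := by
  obtain ⟨n0, hn0⟩ := hyp_isL D h.isL
  obtain ⟨C, hC, hb⟩ := hn0.cnt_bad
  have key : ∀ d n : ℕ, bad (jensen D d n) = bad (jensenP r F d n) := by
    intro d n
    refine bad_scale d (fun j => gam D (n + j)) (fun j => gamma r F (n + j))
      (K * c ^ (2 * n + r)) (c ^ 2)
      (mul_ne_zero h.hK.ne' (pow_ne_zero _ h.hc.ne')) (pow_pos h.hc 2) fun j => ?_
    rw [gam_eq h]
    have : 2 * (n + j) + r = (2 * n + r) + 2 * j := by ring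
    rw [this, pow_add, pow_mul c 2 j]
    ring
  refine ⟨⟨C, hC, fun d n => ?_⟩, ?_⟩
  · rw [← key]
    exact hb d n
  · obtain ⟨C1, hC1, h1, h2⟩ := Pool.Agent.W355.GJ.T.criterion D h.isL
    rw [h2]
    constructor
    · intro h3 d n
      rw [← key, bad_eq_zero]
      rcases Nat.eq_zero_or_pos d with hd | hd
      · subst hd
        by_cases h0 : gam D n = 0
        · left
          simp [jensen, h0]
        · right
          intro z hz
          exfalso
          apply h0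
          simp [jensen] at hz
          exact hz
      · rcases lt_or_ge (n : ℝ) (C1 * Real.log (d + 1)) with h4 | h4
        · exact h3 d n hd h4
        · right
          intro z hz
          have h5 := (h1 d n hd h4).2.2 z hz
          exact ⟨h5.1, h5.2.le⟩
    · intro h3 d n _ _
      rw [← bad_eq_zero, key]
      exact h3 d n

theorem ccrit_congr {r : ℕ} {F : ℂ → ℂ} {P Q : Prop} (hPQ : P ↔ Q) (h : CCrit r F P) :
    CCrit r F Q := ⟨h.1, hPQ.symm.trans h.2⟩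

end Pool.Agent.TH99.RJ.GW
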