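import Pool.Agent.TH99.RJ.Main

set_option autoImplicit false

/-!
# Growth of all derivatives, uniformly
-/

namespace Pool.Agent.TH99.RJ

open Filter Topology

/-- The majorant. -/
noncomputable def BB (ρ : ℝ) : ℝ := √(1 + ρ) * Real.log (2 + ρ)

theorem log2_half : 1 / 2 ≤ Real.log 2 := by
  have := Real.log_two_gt_d9
  linarith

theorem BB_half {ρ : ℝ} (hρ : 0 ≤ ρ) : 1 / 2 ≤ BB ρ := by
  unfold BB
  have h1 : 1 ≤ √(1 + ρ) := by
    rw [Real.one_le_sqrt]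
    linarith
  have h2 : Real.log 2 ≤ Real.log (2 + ρ) := Real.log_le_log (by norm_num) (by linarith)
  have h3 := log2_half
  nlinarith

theorem BB_nonneg {ρ : ℝ} (hρ : 0 ≤ ρ) : 0 ≤ BB ρ := le_trans (by norm_num) (BB_half hρ)

theorem BB_mono {ρ σ : ℝ} (hρ : 0 ≤ ρ) (h : ρ ≤ σ) : BB ρ ≤ BB σ := by
  unfold BB
  refine mul_le_mul (Real.sqrt_le_sqrt (by linarith)) (Real.log_le_log (by linarith) (by linarith))
    (Real.log_nonneg (by linarith)) (Real.sqrt_nonneg _)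

theorem BB_succ {ρ : ℝ} (hρ : 0 ≤ ρ) : BB (ρ + 1) ≤ 4 * BB ρ := by
  unfold BB
  have h1 : √(1 + (ρ + 1)) ≤ 2 * √(1 + ρ) := by
    rw [Real.sqrt_le_left (by positivity), mul_pow, Real.sq_sqrt (by linarith)]
    linarith
  have h2 : Real.log (2 + (ρ + 1)) ≤ 2 * Real.log (2 + ρ) := by
    have : Real.log (2 + (ρ + 1)) ≤ Real.log ((2 + ρ) ^ 2) :=
      Real.log_le_log (by linarith) (by nlinarith)
    rwa [Real.log_pow] at this
  have h3 : 0 ≤ Real.log (2 + (ρ + 1)) := Real.log_nonneg (by linarith)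
  calc √(1 + (ρ + 1)) * Real.log (2 + (ρ + 1)) ≤ (2 * √(1 + ρ)) * (2 * Real.log (2 + ρ)) :=
        mul_le_mul h1 h2 h3 (by positivity)
    _ = _ := by ring

/-- order one half, maximal type allowed -/
def Gr (F : ℂ → ℂ) : Prop := ∃ K : ℝ, 0 ≤ K ∧ ∀ x, ‖F x‖ ≤ Real.exp (K * BB ‖x‖)

theorem Gr.iter {F : ℂ → ℂ} (hF : Differentiable ℂ F) (h : Gr F) (n : ℕ) :
    Gr (iteratedDeriv n F) := by
  obtain ⟨K, hK, hb⟩ := h
  refine ⟨4 * K + 2 * Real.log n.factorial, ?_, fun x => ?_⟩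
  · have : 0 ≤ Real.log n.factorial := Real.log_natCast_nonneg _
    positivity
  have hx : 0 ≤ ‖x‖ := norm_nonneg x
  have h1 := Complex.norm_iteratedDeriv_le_of_forall_mem_sphere_norm_le (c := x) (R := 1)
    (C := Real.exp (K * BB (‖x‖ + 1))) (f := F) n one_pos hF.diffContOnCl (fun z hz => by
      refine (hb z).trans (Real.exp_le_exp.2 (mul_le_mul_of_nonneg_left ?_ hK))
      refine BB_mono (norm_nonneg z) ?_
      have h2 : ‖z - x‖ = 1 := by simpa [dist_eq_norm] using hz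
      have h3 := norm_add_le (z - x) x
      rw [sub_add_cancel, h2] at h3
      linarith)
  rw [one_pow, div_one] at h1
  refine h1.trans ?_
  have h2 : (0 : ℝ) < n.factorial := by positivity
  rw [← Real.exp_log h2, ← Real.exp_add]
  apply Real.exp_le_exp.2
  rw [Real.log_exp]
  have h3 := BB_succ hx
  have h4 := BB_half hx
  have h5 : 0 ≤ Real.log n.factorial := Real.log_natCast_nonneg _
  have h6 : K * BB (‖x‖ + 1) ≤ K * (4 * BB ‖x‖) := mul_le_mul_of_nonneg_left h3 hK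
  have h7 : Real.log n.factorial * (1 / 2) ≤ Real.log n.factorial * BB ‖x‖ :=
    mul_le_mul_of_nonneg_left h4 h5
  linarith

theorem iter_add (f : ℂ → ℂ) (n j : ℕ) :
    iteratedDeriv j (iteratedDeriv n f) = iteratedDeriv (n + j) f := by
  rw [iteratedDeriv_eq_iterate, iteratedDeriv_eq_iterate, iteratedDeriv_eq_iterate,
    ← Function.iterate_add_apply, Nat.add_comm]

theorem diff_iter {f : ℂ → ℂ} (hf : Differentiable ℂ f) (n : ℕ) :
    Differentiable ℂ (iteratedDeriv n f) :=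
  (hf.contDiff (n := (⊤ : ℕ∞))).differentiable_iteratedDeriv n (by exact_mod_cast WithTop.coe_lt_top n)

/-- Taylor series of the derivatives -/
theorem taylor {F : ℂ → ℂ} (hF : Differentiable ℂ F) {γ : ℕ → ℝ}
    (hγ : ∀ n, iteratedDeriv n F 0 = ((γ n : ℝ) : ℂ)) (n : ℕ) (w : ℂ) :
    HasSum (fun j : ℕ => (((γ (n + j) / (j.factorial : ℝ) : ℝ)) : ℂ) * w ^ j)
      (iteratedDeriv n F w) := by
  have h1 := Complex.hasSum_taylorSeries_of_entire (diff_iter hF n) 0 w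
  have h2 : (fun j : ℕ => (((γ (n + j) / (j.factorial : ℝ) : ℝ)) : ℂ) * w ^ j) =
      fun j : ℕ => ((j.factorial : ℂ))⁻¹ • (w - 0) ^ j •
        iteratedDeriv j (iteratedDeriv n F) 0 := by
    funext j
    rw [iter_add, hγ, smul_eq_mul, smul_eq_mul, sub_zero]
    push_cast
    ring
  rw [h2]
  exact h1

/-- a log-concave sequence -/
theorem logconc {γ : ℕ → ℝ} {n0 : ℕ} (hpos : ∀ n, n0 ≤ n → 0 < γ n)
    (hlc : ∀ n, n0 ≤ n → γ n * γ (n + 2) ≤ γ (n + 1) ^ 2) (n : ℕ) (hn : n0 ≤ n) (j : ℕ) :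
    γ (n + j) * γ n0 ≤ γ (n0 + j) * γ n := by
  have hr : ∀ m, n0 ≤ m → γ (m + 2) / γ (m + 1) ≤ γ (m + 1) / γ m := by
    intro m hm
    rw [div_le_div_iff₀ (hpos _ (by omega)) (hpos _ hm)]
    have := hlc m hm
    nlinarith
  have hanti : ∀ (m k : ℕ), n0 ≤ m → γ (m + k + 1) / γ (m + k) ≤ γ (m + 1) / γ m := by
    intro m k hm
    induction k with
    | zero => simp
    | succ k ih => exact (hr (m + k) (by omega)).trans ih
  induction j with
  | zero => simp [mul_comm]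
  | succ j ih =>
    have h1 : 0 < γ (n + j) := hpos _ (by omega)
    have h2 : 0 < γ (n0 + j) := hpos _ (by omega)
    have h3 : 0 < γ n := hpos _ hn
    have h4 : 0 < γ n0 := hpos _ le_rfl
    obtain ⟨k, rfl⟩ : ∃ k, n = n0 + k := ⟨n - n0, by omega⟩
    have h5 := hanti (n0 + j) k (by omega)
    have e1 : n0 + j + k + 1 = n0 + k + (j + 1) := by ring
    have e2 : n0 + j + k = n0 + k + j := by ring
    rw [e1, e2] at h5
    have h6 : γ (n0 + k + (j + 1)) = γ (n0 + k + (j + 1)) / γ (n0 + k + j) * γ (n0 + k + j) := by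
      field_simp
    have h7 : γ (n0 + (j + 1)) = γ (n0 + j + 1) / γ (n0 + j) * γ (n0 + j) := by
      have : n0 + (j + 1) = n0 + j + 1 := by ring
      rw [this]
      field_simp
    rw [h6, h7, mul_assoc, mul_assoc]
    have h8 : 0 < γ (n0 + j + 1) := hpos _ (by omega)
    exact mul_le_mul h5 ih (by positivity) (by positivity)

/-- The uniform bound. -/
theorem unif {F : ℂ → ℂ} (hF : Differentiable ℂ F) (hG : Gr F) {γ : ℕ → ℝ}
    (hγ : ∀ n, iteratedDeriv n F 0 = ((γ n : ℝ) : ℂ)) {n0 : ℕ} (hpos : ∀ n, n0 ≤ n → 0 < γ n)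
    (hlc : ∀ n, n0 ≤ n → γ n * γ (n + 2) ≤ γ (n + 1) ^ 2) :
    ∃ K : ℝ, 0 ≤ K ∧ ∀ n, γ n ≠ 0 → ∀ w, ‖iteratedDeriv n F w‖ ≤ |γ n| * Real.exp (K * BB ‖w‖) := by
  have h1 : ∀ n, ∃ K : ℝ, 0 ≤ K ∧ (γ n ≠ 0 → ∀ w, ‖iteratedDeriv n F w‖ ≤
      |γ n| * Real.exp (K * BB ‖w‖)) := by
    intro n
    obtain ⟨K, hK, hb⟩ := hG.iter hF n
    refine ⟨K + 2 * abs (Real.log (abs (γ n))), by positivity, fun hn w => ?_⟩
    have h2 : 0 < |γ n| := abs_pos.2 hn
    have h3 : |γ n| = Real.exp (Real.log |γ n|) := (Real.exp_log h2).symm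
    refine (hb w).trans ?_
    conv_rhs => rw [h3]
    rw [← Real.exp_add]
    apply Real.exp_le_exp.2
    have h4 := BB_half (norm_nonneg w)
    have h5 := neg_abs_le (Real.log |γ n|)
    have h6 := abs_nonneg (Real.log |γ n|)
    rw [Real.log_exp]
    nlinarith
  choose K hK0 hK using h1
  set Kt : ℝ := ∑ i ∈ Finset.range (n0 + 1), K i with hKt
  have hle : ∀ i, i ≤ n0 → K i ≤ Kt := fun i hi =>
    Finset.single_le_sum (f := K) (fun j _ => hK0 j) (Finset.mem_range.2 (by omega))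
  refine ⟨Kt, Finset.sum_nonneg fun j _ => hK0 j, fun n hn w => ?_⟩
  have hB := BB_nonneg (norm_nonneg w)
  by_cases hnn : n ≤ n0
  · refine (hK n hn w).trans (mul_le_mul_of_nonneg_left ?_ (abs_nonneg _))
    exact Real.exp_le_exp.2 (mul_le_mul_of_nonneg_right (hle n hnn) hB)
  · have hnn' : n0 ≤ n := by omega
    have hγn := hpos n hnn'
    have hγ0 := hpos n0 le_rfl
    have s1 := taylor hF hγ n w
    have s2 := taylor hF hγ n0 ((‖w‖ : ℝ) : ℂ)
    have s2' : HasSum (fun j : ℕ => γ (n0 + j) / (j.factorial : ℝ) * ‖w‖ ^ j)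
        (iteratedDeriv n0 F ((‖w‖ : ℝ) : ℂ)).re := by
      have h2 := Complex.hasSum_re s2
      have h3 : (fun j : ℕ => ((((γ (n0 + j) / (j.factorial : ℝ) : ℝ)) : ℂ) *
          ((‖w‖ : ℝ) : ℂ) ^ j).re) = fun j : ℕ => γ (n0 + j) / (j.factorial : ℝ) * ‖w‖ ^ j := by
        funext j
        rw [← Complex.ofReal_pow, ← Complex.ofReal_mul, Complex.ofReal_re]
      rwa [h3] at h2
    have h2 : ‖iteratedDeriv n F w‖ ≤ γ n / γ n0 * (iteratedDeriv n0 F ((‖w‖ : ℝ) : ℂ)).re := by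
      rw [← s1.tsum_eq]
      refine tsum_of_norm_bounded (s2'.mul_left (γ n / γ n0)) fun j => ?_
      rw [norm_mul, Complex.norm_real, norm_pow, Real.norm_eq_abs,
        abs_of_pos (div_pos (hpos _ (by omega)) (by positivity)), ← mul_assoc]
      refine mul_le_mul_of_nonneg_right ?_ (by positivity)
      have h3 := logconc hpos hlc n hnn' j
      have h4 : (0 : ℝ) < j.factorial := by positivity
      rw [div_mul_div_comm, div_le_div_iff₀ h4 (by positivity)]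
      calc γ (n + j) * (γ n0 * (j.factorial : ℝ)) = (γ (n + j) * γ n0) * j.factorial := by ring
        _ ≤ (γ (n0 + j) * γ n) * j.factorial := mul_le_mul_of_nonneg_right h3 h4.le
        _ = _ := by ring
    have h3 := hK n0 hγ0.ne' ((‖w‖ : ℝ) : ℂ)
    rw [Complex.norm_real, norm_norm, abs_of_pos hγ0] at h3
    have h4 : (iteratedDeriv n0 F ((‖w‖ : ℝ) : ℂ)).re ≤ γ n0 * Real.exp (K n0 * BB ‖w‖) :=
      (Complex.re_le_norm _).trans h3
    rw [abs_of_pos hγn]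
    calc ‖iteratedDeriv n F w‖ ≤ γ n / γ n0 * (iteratedDeriv n0 F ((‖w‖ : ℝ) : ℂ)).re := h2
      _ ≤ γ n / γ n0 * (γ n0 * Real.exp (K n0 * BB ‖w‖)) :=
          mul_le_mul_of_nonneg_left h4 (by positivity)
      _ = γ n * Real.exp (K n0 * BB ‖w‖) := by field_simp
      _ ≤ _ := by
          refine mul_le_mul_of_nonneg_left (Real.exp_le_exp.2 ?_) hγn.le
          exact mul_le_mul_of_nonneg_right (hle n0 le_rfl) hB

/-- The numerical conclusion. -/
theorem final_bound {K : ℝ} (hK : 0 ≤ K) (d : ℕ) (hd : 1 ≤ d) (N : ℝ)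
    (h : ∀ x : ℝ, 0 < x → x ≤ 3 / 4 → N * Real.log 2 ≤ K * BB (6 * d / x) + Real.log 2 +
      K * BB (12 * d) * (2 * x * √d + 1)) :
    N ≤ (110 * K + 2) * ((d : ℝ) ^ (2 / 3 : ℝ) * Real.log (d + 1)) := by
  have hd1 : (1 : ℝ) ≤ d := by exact_mod_cast hd
  have hd0 : (0 : ℝ) ≤ d := by linarith
  -- the sixth root
  obtain ⟨u, hu, hu1, hu6⟩ : ∃ u : ℝ, u = (d : ℝ) ^ (1 / 6 : ℝ) ∧ 1 ≤ u ∧ u ^ 6 = d := by
    refine ⟨_, rfl, Real.one_le_rpow hd1 (by norm_num), ?_⟩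
    rw [← Real.rpow_natCast, ← Real.rpow_mul hd0]
    norm_num
  have hu4 : (d : ℝ) ^ (2 / 3 : ℝ) = u ^ 4 := by
    rw [hu, ← Real.rpow_natCast, ← Real.rpow_mul hd0]
    norm_num
  have hsq : √(d : ℝ) = u ^ 3 := by
    rw [← hu6, show u ^ 6 = (u ^ 3) ^ 2 by ring, Real.sqrt_sq (by positivity)]
  have hupos : 0 < u := by linarith
  have h1 := h (3 / 4 / u ^ 2) (by positivity) (by
    rw [div_le_iff₀ (by positivity)]
    have : 1 ≤ u ^ 2 := one_le_pow₀ hu1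
    linarith)
  set ℓ : ℝ := Real.log (d + 1) with hℓ
  have hℓ2 : Real.log 2 ≤ ℓ := Real.log_le_log (by norm_num) (by linarith)
  have hl2 := log2_half
  have hd2 : (d : ℝ) ≤ d ^ 2 := by nlinarith
  have e1 : 6 * (d : ℝ) / (3 / 4 / u ^ 2) = 8 * u ^ 8 := by
    rw [← hu6]
    field_simp
    ring
  have e2 : 2 * (3 / 4 / u ^ 2) * √(d : ℝ) + 1 = 3 / 2 * u + 1 := by
    rw [hsq]
    field_simp
    ring
  rw [e1, e2] at h1
  have h4log : Real.log (((d : ℝ) + 1) ^ 4) = 4 * ℓ := by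
    rw [Real.log_pow, ← hℓ]
    norm_num
  -- first majorant
  have b1 : BB (8 * u ^ 8) ≤ 12 * (u ^ 4 * ℓ) := by
    unfold BB
    have c1 : √(1 + 8 * u ^ 8) ≤ 3 * u ^ 4 := by
      rw [Real.sqrt_le_left (by positivity)]
      have : 1 ≤ u ^ 8 := one_le_pow₀ hu1
      nlinarith
    have c2 : Real.log (2 + 8 * u ^ 8) ≤ 4 * ℓ := by
      rw [← h4log]
      apply Real.log_le_log (by positivity)
      have : u ^ 8 ≤ (d : ℝ) ^ 2 := by
        rw [← hu6, ← pow_mul]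
        exact pow_le_pow_right₀ hu1 (by norm_num)
      nlinarith [pow_nonneg hd0 3, pow_nonneg hd0 4, mul_nonneg hd0 (sq_nonneg ((d : ℝ) - 1))]
    calc √(1 + 8 * u ^ 8) * Real.log (2 + 8 * u ^ 8) ≤ 3 * u ^ 4 * (4 * ℓ) :=
          mul_le_mul c1 c2 (Real.log_nonneg (by nlinarith [pow_nonneg hupos.le 8])) (by positivity)
      _ = _ := by ring
  have b2 : BB (12 * d) ≤ 16 * (u ^ 3 * ℓ) := by
    unfold BB
    have c1 : √(1 + 12 * (d : ℝ)) ≤ 4 * u ^ 3 := by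
      rw [Real.sqrt_le_left (by positivity), ← hu6]
      have : 1 ≤ u ^ 6 := one_le_pow₀ hu1
      nlinarith
    have c2 : Real.log (2 + 12 * (d : ℝ)) ≤ 4 * ℓ := by
      rw [← h4log]
      apply Real.log_le_log (by positivity)
      nlinarith [pow_nonneg hd0 3, pow_nonneg hd0 4, mul_nonneg hd0 (sq_nonneg ((d : ℝ) - 1))]
    calc √(1 + 12 * (d : ℝ)) * Real.log (2 + 12 * (d : ℝ)) ≤ 4 * u ^ 3 * (4 * ℓ) :=
          mul_le_mul c1 c2 (Real.log_nonneg (by linarith)) (by positivity)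
      _ = _ := by ring
  have hℓ0 : 0 ≤ ℓ := by linarith
  have h2 : N * Real.log 2 ≤ (55 * K + 1) * (u ^ 4 * ℓ) := by
    have c1 : K * BB (8 * u ^ 8) ≤ K * (12 * (u ^ 4 * ℓ)) := mul_le_mul_of_nonneg_left b1 hK
    have c2 : K * BB (12 * d) * (3 / 2 * u + 1) ≤ K * (16 * (u ^ 3 * ℓ)) * (5 / 2 * u) := by
      refine mul_le_mul (mul_le_mul_of_nonneg_left b2 hK) (by linarith) (by positivity)
        (by positivity)
    have c3 : Real.log 2 ≤ u ^ 4 * ℓ := by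
      have : 1 ≤ u ^ 4 := one_le_pow₀ hu1
      nlinarith
    have c4 : K * (16 * (u ^ 3 * ℓ)) * (5 / 2 * u) = 40 * K * (u ^ 4 * ℓ) := by ring
    have c5 : 0 ≤ K * (u ^ 4 * ℓ) := by positivity
    nlinarith
  rw [hu4]
  have h3 : 0 ≤ (55 * K + 1) * (u ^ 4 * ℓ) := by positivity
  by_contra hcon
  push Not at hcon
  have h5 : (110 * K + 2) * (u ^ 4 * ℓ) * Real.log 2 < N * Real.log 2 :=
    mul_lt_mul_of_pos_right hcon (by linarith)
  nlinarith

end Pool.Agent.TH99.RJ
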