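import Pool.Agent.TH99.RJ.Split

set_option autoImplicit false

/-!
# Counting the real zeros of `f(D) X ^ d`
-/

namespace Pool.Agent.TH99.RJ

open Polynomial Filter Topology
open Pool.Agent.H24R2.JP (Par)

theorem par_im {a : ℂ} (ha : a ∈ Par) : a.im ^ 2 ≤ ‖a‖ + 1 / 4 := by
  have h1 : a.re + a.im ^ 2 ≤ 1 / 4 := ha
  have h2 : -‖a‖ ≤ a.re := by
    have := Complex.abs_re_le_norm a
    linarith [neg_abs_le a.re]
  linarith

/-- the polynomial statement -/
theorem polyCount (f : ℝ[X]) (d : ℕ) (hd : 1 ≤ d) (h0 : f.coeff 0 ≠ 0)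
    (hpar : ∀ a : ℂ, aeval a f = 0 → a ∈ Par) (x A1 A2 : ℝ) (hx : 0 < x) (hx1 : x ≤ 3 / 4)
    (hA1 : ∀ w : ℂ, ‖w‖ = 12 * d → ‖aeval w f‖ ≤ ‖aeval (0 : ℂ) f‖ * Real.exp A1)
    (hA2 : ∀ w : ℂ, ‖w‖ = 6 * d / x → ‖aeval w f‖ ≤ ‖aeval (0 : ℂ) f‖ * Real.exp A2) :
    ((d : ℝ) - (rop f (X ^ d)).roots.card) * Real.log 2 ≤
      A2 + Real.log 2 + A1 * (2 * x * √d + 1) := by
  have hd1 : (1 : ℝ) ≤ d := by exact_mod_cast hd
  have hsd : 0 < √(d : ℝ) := Real.sqrt_pos.2 (by linarith)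
  have hlog : 0 ≤ Real.log 2 := Real.log_nonneg (by norm_num)
  obtain ⟨h, g, hfg, hh, hg⟩ := split_disc (4 * d) f.natDegree f le_rfl h0
  have hmul : f.coeff 0 = h.coeff 0 * g.coeff 0 := by rw [hfg, mul_coeff_zero]
  have hh0 : h.coeff 0 ≠ 0 := by
    intro h1
    rw [h1, zero_mul] at hmul
    exact h0 hmul
  have hg0 : g.coeff 0 ≠ 0 := by
    intro h1
    rw [h1, mul_zero] at hmul
    exact h0 hmul
  have hpow : (X ^ d : ℝ[X]) ≠ 0 := pow_ne_zero _ X_ne_zero
  -- near zeros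
  have hnear : (h.natDegree : ℝ) * Real.log 2 ≤ A1 := by
    refine count_near f h0 (4 * d) A1 (by positivity) (fun w hw => hA1 w (by rw [hw]; ring)) h
      ⟨g, hfg⟩ hh
  have hwin : ∀ b : ℂ, aeval b h = 0 → 1 / √d * |b.im| ≤ Real.pi := by
    intro b hb
    have h1 : b ∈ Par := hpar b (by rw [hfg, map_mul, hb, zero_mul])
    have h2 := par_im h1
    have h3 := hh b hb
    have h4 : |b.im| ≤ 3 * √d := by
      apply abs_le_of_sq_le_sq _ (by positivity)
      rw [mul_pow, Real.sq_sqrt (by linarith)]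
      linarith
    rw [one_div, inv_mul_le_iff₀ hsd]
    have := Real.pi_gt_three
    nlinarith
  -- far zeros
  have hfar : ∀ a : ℂ, aeval a g = 0 → (d : ℝ) * a.im ^ 2 ≤ ‖a‖ ^ 2 := by
    intro a ha
    have h1 : a ∈ Par := hpar a (by rw [hfg, map_mul, ha, mul_zero])
    have h2 := par_im h1
    have h3 := hg a ha
    calc (d : ℝ) * a.im ^ 2 ≤ d * (‖a‖ + 1 / 4) := mul_le_mul_of_nonneg_left h2 (by linarith)
      _ ≤ ‖a‖ ^ 2 := by nlinarith
  have hgA : ∀ w : ℂ, ‖w‖ = 6 * d / x → ‖aeval w g‖ ≤ ‖aeval (0 : ℂ) g‖ * Real.exp A2 := by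
    intro w hw
    have h8 : 8 * (d : ℝ) ≤ ‖w‖ := by
      rw [hw, le_div_iff₀ hx]
      nlinarith
    have h1 := lower_far h hh0 w (fun b hb => by linarith [hh b hb])
    have h2 := hA2 w hw
    rw [hfg, map_mul, map_mul, norm_mul, norm_mul] at h2
    have h3 : 0 < ‖aeval (0 : ℂ) h‖ := by
      rw [aeval_zero_coe, norm_pos_iff]
      exact_mod_cast hh0
    have h4 : ‖aeval (0 : ℂ) h‖ * ‖aeval w g‖ ≤
        ‖aeval (0 : ℂ) h‖ * (‖aeval (0 : ℂ) g‖ * Real.exp A2) := by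
      calc ‖aeval (0 : ℂ) h‖ * ‖aeval w g‖ ≤ ‖aeval w h‖ * ‖aeval w g‖ :=
            mul_le_mul_of_nonneg_right h1 (norm_nonneg _)
        _ ≤ _ := by rw [← mul_assoc]; exact h2
    exact le_of_mul_le_mul_left h4 h3
  have h5 := count_far g d hd hg0 hfar x A2 hx hgA
  set G : ℝ[X] := rop g (X ^ d) with hG
  have hG0 : G ≠ 0 := by
    intro h1
    have h2 := natDegree_rop_pow g d hg0
    rw [← hG, h1, natDegree_zero] at h2
    omega
  have hfG : rop f (X ^ d) = rop h G := by rw [hfg, rop_mul]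
  have hne : rop h G ≠ 0 := by
    intro h1
    have h2 := natDegree_rop_pow f d h0
    rw [hfG, h1, natDegree_zero] at h2
    omega
  set q : ℕ := ⌈2 * x * √d⌉₊ with hq
  have hq1 : 2 * x * √d ≤ q := Nat.le_ceil _
  have hq2 : (q : ℝ) ≤ 2 * x * √d + 1 := (Nat.ceil_lt_add_one (by positivity)).le
  have h6 := rop_windows (-x) (1 / √d) (by positivity) h hh0 hwin G hG0 q
  have h7 : cnt G (Set.Ioo (-x) x) ≤ cnt G (Set.Ico (-x) (-x + q * (1 / √d))) := by
    refine cnt_mono fun y hy => ⟨hy.1.le, hy.2.trans_le ?_⟩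
    have : 2 * x ≤ q * (1 / √d) := by
      rw [mul_one_div, le_div_iff₀ hsd]
      exact hq1
    linarith
  have h8 : cnt (rop h G) (Set.Ico (-x) (-x + q * (1 / √d))) ≤ (rop h G).roots.card := by
    rw [← cnt_univ]
    exact cnt_mono (Set.subset_univ _)
  have h9 : ((cnt G (Set.Ioo (-x) x) : ℕ) : ℝ) ≤ (rop f (X ^ d)).roots.card + q * h.natDegree := by
    rw [hfG]
    have : cnt G (Set.Ioo (-x) x) ≤ (rop h G).roots.card + q * h.natDegree := by omega
    exact_mod_cast this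
  have h10 : (q : ℝ) * (h.natDegree * Real.log 2) ≤ A1 * (2 * x * √d + 1) := by
    calc (q : ℝ) * (h.natDegree * Real.log 2) ≤ (2 * x * √d + 1) * (h.natDegree * Real.log 2) :=
          mul_le_mul_of_nonneg_right hq2 (by positivity)
      _ ≤ (2 * x * √d + 1) * A1 := mul_le_mul_of_nonneg_left hnear (by positivity)
      _ = _ := by ring
  have h11 : ((d : ℝ) - (rop f (X ^ d)).roots.card) * Real.log 2 ≤
      ((d : ℝ) - cnt G (Set.Ioo (-x) x) + q * h.natDegree) * Real.log 2 :=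
    mul_le_mul_of_nonneg_right (by linarith) hlog
  have h12 : ((d : ℝ) - cnt G (Set.Ioo (-x) x) + q * h.natDegree) * Real.log 2 =
      ((d : ℝ) - cnt G (Set.Ioo (-x) x)) * Real.log 2 + q * (h.natDegree * Real.log 2) := by ring
  linarith

/-- The limit polynomial. -/
noncomputable def Ap (d : ℕ) (γ : ℕ → ℝ) : ℝ[X] :=
  ∑ j ∈ Finset.range (d + 1), C ((d.choose j : ℝ) * γ j) * X ^ (d - j)

/-- The Jensen polynomial. -/
noncomputable def Jp (d : ℕ) (γ : ℕ → ℝ) : ℝ[X] :=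
  ∑ j ∈ Finset.range (d + 1), C ((d.choose j : ℝ) * γ j) * X ^ j

theorem rop_eq_Ap (f : ℝ[X]) (d : ℕ) : rop f (X ^ d) = Ap d fun j => (j.factorial : ℝ) * f.coeff j :=
  rop_pow f d

theorem coeff_Ap (d : ℕ) (γ : ℕ → ℝ) (j : ℕ) (hj : j ≤ d) :
    (Ap d γ).coeff (d - j) = (d.choose j : ℝ) * γ j := by
  rw [Ap, finsetSum_coeff, Finset.sum_eq_single j]
  · rw [coeff_C_mul, coeff_X_pow, if_pos rfl, mul_one]
  · intro i hi hij
    have := Finset.mem_range.1 hi
    rw [coeff_C_mul, coeff_X_pow, if_neg (by omega), mul_zero]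
  · intro h
    exact absurd (Finset.mem_range.2 (by omega)) h

theorem natDegree_Ap_le (d : ℕ) (γ : ℕ → ℝ) : (Ap d γ).natDegree ≤ d := by
  rw [Ap]
  refine natDegree_sum_le_of_forall_le _ _ fun j _ => ?_
  exact (natDegree_C_mul_X_pow_le _ _).trans (Nat.sub_le _ _)

theorem natDegree_Ap (d : ℕ) (γ : ℕ → ℝ) (h0 : γ 0 ≠ 0) : (Ap d γ).natDegree = d := by
  refine le_antisymm (natDegree_Ap_le d γ) (le_natDegree_of_ne_zero ?_)
  have := coeff_Ap d γ 0 (Nat.zero_le d)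
  rw [Nat.sub_zero] at this
  rw [this]
  simpa using h0

theorem leadingCoeff_Ap (d : ℕ) (γ : ℕ → ℝ) (h0 : γ 0 ≠ 0) : (Ap d γ).leadingCoeff = γ 0 := by
  rw [leadingCoeff, natDegree_Ap d γ h0]
  have := coeff_Ap d γ 0 (Nat.zero_le d)
  rw [Nat.sub_zero] at this
  rw [this]
  simp

theorem CT_Ap (d : ℕ) (γ : ℕ → ℕ → ℝ) (γ' : ℕ → ℝ)
    (h : ∀ j, Tendsto (fun N => γ N j) atTop (𝓝 (γ' j))) : CT (fun N => Ap d (γ N)) (Ap d γ') := by
  intro n
  simp only [Ap, finsetSum_coeff, coeff_C_mul]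
  exact tendsto_finsetSum _ fun j _ => ((h j).const_mul _).mul_const _

/-- uniform bound for the zeros -/
theorem Ap_bound (d : ℕ) (hd : 1 ≤ d) (γ : ℕ → ℕ → ℝ) (γ' : ℕ → ℝ) (h0 : γ' 0 ≠ 0)
    (h : ∀ j, Tendsto (fun N => γ N j) atTop (𝓝 (γ' j))) :
    ∃ B : ℝ, ∀ᶠ N in atTop, γ N 0 ≠ 0 ∧ ∀ t : ℝ, (Ap d (γ N)).IsRoot t → |t| ≤ B := by
  have hct := CT_Ap d γ γ' h
  have e1 : ∀ᶠ N in atTop, γ N 0 ≠ 0 := (h 0).eventually_ne h0
  have e2 : ∀ᶠ N in atTop, |γ' 0| / 2 ≤ |γ N 0| := by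
    have : |γ' 0| / 2 < |γ' 0| := by linarith [abs_pos.2 h0]
    exact ((h 0).abs.eventually (lt_mem_nhds this)).mono fun N hN => hN.le
  have e3 : ∀ᶠ N in atTop, ∀ j ∈ Finset.range d, |(Ap d (γ N)).coeff j| ≤ |(Ap d γ').coeff j| + 1 := by
    rw [Filter.eventually_all_finset]
    intro j _
    have : |(Ap d γ').coeff j| < |(Ap d γ').coeff j| + 1 := by linarith
    exact ((hct j).abs.eventually (gt_mem_nhds this)).mono fun N hN => hN.le
  set S : ℝ := ∑ j ∈ Finset.range d, (|(Ap d γ').coeff j| + 1) with hS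
  have hS0 : 0 ≤ S := Finset.sum_nonneg fun j _ => by positivity
  refine ⟨max 1 (S / (|γ' 0| / 2)), ?_⟩
  filter_upwards [e1, e2, e3] with N h1 h2 h3
  refine ⟨h1, fun t ht => ?_⟩
  by_cases ht1 : |t| ≤ 1
  · exact ht1.trans (le_max_left _ _)
  push Not at ht1
  refine le_trans ?_ (le_max_right _ _)
  have hroot : (Ap d (γ N)).eval t = 0 := ht
  rw [eval_eq_sum_range' (n := d + 1) (Nat.lt_succ_of_le (natDegree_Ap_le d (γ N))),
    Finset.sum_range_succ] at hroot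
  have hc : (Ap d (γ N)).coeff d = γ N 0 := by
    have := coeff_Ap d (γ N) 0 (Nat.zero_le d)
    rw [Nat.sub_zero] at this
    rw [this]
    simp
  rw [hc] at hroot
  have h4 : |γ N 0| * |t| ^ d ≤ S * |t| ^ (d - 1) := by
    have h5 : |γ N 0 * t ^ d| = |∑ j ∈ Finset.range d, (Ap d (γ N)).coeff j * t ^ j| := by
      rw [← abs_neg (∑ j ∈ Finset.range d, (Ap d (γ N)).coeff j * t ^ j)]
      congr 1
      linarith
    rw [abs_mul, abs_pow] at h5
    rw [h5, hS, Finset.sum_mul]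
    refine (Finset.abs_sum_le_sum_abs _ _).trans (Finset.sum_le_sum fun j hj => ?_)
    rw [abs_mul, abs_pow]
    have hj' := Finset.mem_range.1 hj
    exact mul_le_mul (h3 j hj) (pow_le_pow_right₀ ht1.le (by omega)) (by positivity) (by positivity)
  have h6 : |t| ^ d = |t| * |t| ^ (d - 1) := by
    rw [← pow_succ']
    congr 1
    omega
  rw [h6, ← mul_assoc] at h4
  have h7 : |γ N 0| * |t| ≤ S := le_of_mul_le_mul_right h4 (by positivity)
  have h8 : 0 < |γ' 0| / 2 := by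
    have := abs_pos.2 h0
    linarith
  rw [le_div_iff₀ h8]
  calc |t| * (|γ' 0| / 2) ≤ |t| * |γ N 0| := mul_le_mul_of_nonneg_left h2 (abs_nonneg _)
    _ = |γ N 0| * |t| := mul_comm _ _
    _ ≤ S := h7

/-- the sphere estimate for the approximants -/
theorem sphere_est (f : ℂ → ℂ) (P : ℕ → ℝ[X])
    (hlim : TendstoLocallyUniformly (fun (N : ℕ) (x : ℂ) => aeval x (P N)) f atTop)
    (hf0 : f 0 ≠ 0) (ρ A : ℝ) (hA : ∀ w : ℂ, ‖w‖ = ρ → ‖f w‖ ≤ ‖f 0‖ * Real.exp A)
    (ε : ℝ) (hε : 0 < ε) : ∀ᶠ N in atTop, ∀ w : ℂ, ‖w‖ = ρ →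
      ‖aeval w (P N)‖ ≤ ‖aeval (0 : ℂ) (P N)‖ * Real.exp (A + ε) := by
  have hpos : 0 < ‖f 0‖ := norm_pos_iff.2 hf0
  set δ : ℝ := ‖f 0‖ * Real.exp A * (Real.exp (ε / 2) - 1) with hδ
  have hexp : 1 < Real.exp (ε / 2) := by
    have := Real.add_one_lt_exp (show ε / 2 ≠ 0 by linarith)
    linarith
  have hδpos : 0 < δ := by
    have : 0 < Real.exp (ε / 2) - 1 := by linarith
    positivity
  have h1 : TendstoUniformlyOn (fun (N : ℕ) (x : ℂ) => aeval x (P N)) f atTop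
      (Metric.sphere (0 : ℂ) ρ) :=
    (tendstoLocallyUniformlyOn_iff_tendstoUniformlyOn_of_compact
      (isCompact_sphere (0 : ℂ) ρ)).1 hlim.tendstoLocallyUniformlyOn
  have h2 := Metric.tendstoUniformlyOn_iff.1 h1 δ hδpos
  have h3 : Tendsto (fun N => ‖aeval (0 : ℂ) (P N)‖) atTop (𝓝 ‖f 0‖) :=
    ((tendstoLocallyUniformlyOn_univ.2 hlim).tendsto_at (Set.mem_univ (0 : ℂ))).norm
  have h4 : ‖f 0‖ * Real.exp (-(ε / 2)) < ‖f 0‖ := by
    have : Real.exp (-(ε / 2)) < 1 := by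
      have := Real.exp_lt_exp.2 (show -(ε / 2) < 0 by linarith)
      rwa [Real.exp_zero] at this
    nlinarith
  filter_upwards [h2, h3.eventually (lt_mem_nhds h4)] with N h5 h6 w hw
  have h7 := h5 w (by simpa using hw)
  rw [dist_comm, dist_eq_norm] at h7
  have h8 := hA w hw
  calc ‖aeval w (P N)‖ ≤ ‖f w‖ + ‖aeval w (P N) - f w‖ := by
        have := norm_add_le (f w) (aeval w (P N) - f w)
        rwa [add_sub_cancel] at this
    _ ≤ ‖f 0‖ * Real.exp A + δ := by linarith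
    _ = ‖f 0‖ * Real.exp (-(ε / 2)) * Real.exp (A + ε) := by
        rw [hδ, mul_assoc ‖f 0‖ (Real.exp (-(ε / 2))), ← Real.exp_add]
        have : -(ε / 2) + (A + ε) = A + ε / 2 := by ring
        rw [this, Real.exp_add]
        ring
    _ ≤ _ := mul_le_mul_of_nonneg_right h6.le (Real.exp_pos _).le

/-- the limit statement -/
theorem limCount (f : ℂ → ℂ) (P : ℕ → ℝ[X]) (γ : ℕ → ℝ)
    (hpar : ∀ᶠ N in atTop, ∀ x : ℂ, aeval x (P N) = 0 → x ∈ Par)
    (hlim : TendstoLocallyUniformly (fun (N : ℕ) (x : ℂ) => aeval x (P N)) f atTop)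
    (hγ : ∀ j, Tendsto (fun N => (j.factorial : ℝ) * (P N).coeff j) atTop (𝓝 (γ j)))
    (h0 : γ 0 ≠ 0) (d : ℕ) (hd : 1 ≤ d) (x A1 A2 : ℝ) (hx : 0 < x) (hx1 : x ≤ 3 / 4)
    (hA1 : ∀ w : ℂ, ‖w‖ = 12 * d → ‖f w‖ ≤ |γ 0| * Real.exp A1)
    (hA2 : ∀ w : ℂ, ‖w‖ = 6 * d / x → ‖f w‖ ≤ |γ 0| * Real.exp A2) :
    ((d : ℝ) - (Ap d γ).roots.card) * Real.log 2 ≤
      A2 + Real.log 2 + A1 * (2 * x * √d + 1) := by
  have hf0 : f 0 = ((γ 0 : ℝ) : ℂ) := by
    have h1 := (tendstoLocallyUniformlyOn_univ.2 hlim).tendsto_at (Set.mem_univ (0 : ℂ))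
    have h2 := (Complex.continuous_ofReal.tendsto (γ 0)).comp (hγ 0)
    refine tendsto_nhds_unique h1 (h2.congr fun N => ?_)
    simp [aeval_zero_coe]
  have hf0n : ‖f 0‖ = |γ 0| := by rw [hf0, Complex.norm_real, Real.norm_eq_abs]
  have hf0' : f 0 ≠ 0 := by rw [hf0]; exact_mod_cast h0
  by_contra hcon
  push Not at hcon
  -- choose ε
  set B : ℝ := A2 + Real.log 2 + A1 * (2 * x * √d + 1) with hB
  set V : ℝ := ((d : ℝ) - (Ap d γ).roots.card) * Real.log 2 with hV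
  set c : ℝ := 2 * x * √d + 2 with hc
  have hc0 : 0 < c := by positivity
  set ε : ℝ := (V - B) / (2 * c) with hε
  have hεpos : 0 < ε := by
    have : 0 < V - B := by linarith
    positivity
  have hεc : ε * c < V - B := by
    rw [hε]
    have : 0 < V - B := by linarith
    have h1 : (V - B) / (2 * c) * c = (V - B) / 2 := by field_simp
    rw [h1]
    linarith
  have s1 := sphere_est f P hlim hf0' (12 * d) A1 (by rw [hf0n]; exact hA1) ε hεpos
  have s2 := sphere_est f P hlim hf0' (6 * d / x) A2 (by rw [hf0n]; exact hA2) ε hεpos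
  obtain ⟨R, hR⟩ := Ap_bound d hd (fun N j => (j.factorial : ℝ) * (P N).coeff j) γ h0 hγ
  set M : ℕ := (Ap d γ).roots.card + 1 with hM
  have hAp0 : Ap d γ ≠ 0 := by
    intro h1
    have h2 := natDegree_Ap d γ h0
    rw [h1, natDegree_zero] at h2
    omega
  have key : ∀ᶠ N in atTop, ∃ t : Fin M → ℝ, (∀ i, -R ≤ t i ∧ t i ≤ R) ∧
      (∏ i, (X - C (t i))) ∣ Ap d fun j => (j.factorial : ℝ) * (P N).coeff j := by
    filter_upwards [s1, s2, hR, hpar] with N t1 t2 t3 t4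
    have hP0 : (P N).coeff 0 ≠ 0 := by
      intro h1
      apply t3.1
      simp [h1]
    have h1 := polyCount (P N) d hd hP0 t4 x (A1 + ε) (A2 + ε) hx hx1 t1 t2
    rw [rop_eq_Ap] at h1
    have h2 : M ≤ (Ap d fun j => (j.factorial : ℝ) * (P N).coeff j).roots.card := by
      by_contra hlt
      have h3 : (Ap d fun j => (j.factorial : ℝ) * (P N).coeff j).roots.card ≤
        (Ap d γ).roots.card := by omega
      have h4 : ((Ap d fun j => (j.factorial : ℝ) * (P N).coeff j).roots.card : ℝ) ≤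
        (Ap d γ).roots.card := by exact_mod_cast h3
      have h5 : V ≤ ((d : ℝ) - (Ap d fun j => (j.factorial : ℝ) * (P N).coeff j).roots.card) *
          Real.log 2 :=
        mul_le_mul_of_nonneg_right (by linarith) (Real.log_nonneg (by norm_num))
      have h6 : A2 + ε + Real.log 2 + (A1 + ε) * (2 * x * √d + 1) = B + ε * c := by
        rw [hB, hc]; ring
      linarith
    rw [← cnt_univ] at h2
    obtain ⟨t, -, ht2⟩ := dvd_of_cnt h2
    refine ⟨t, fun i => ?_, ht2⟩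
    have h3 : (Ap d fun j => (j.factorial : ℝ) * (P N).coeff j).IsRoot (t i) :=
      dvd_iff_isRoot.1 ((Finset.dvd_prod_of_mem _ (Finset.mem_univ i)).trans ht2)
    exact abs_le.1 (t3.2 _ h3)
  obtain ⟨t, ht1, ht2⟩ := closed (CT_Ap d _ γ hγ) (fun N => natDegree_Ap_le d _)
    tendsto_const_nhds tendsto_const_nhds key
  have h1 := cnt_of_dvd hAp0 (s := Set.univ) (fun i => Set.mem_univ _) ht2
  rw [cnt_univ] at h1
  omega

/-- The number of non-real zeros. -/
noncomputable def nonreal (p : ℝ[X]) : ℕ :=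
  ((p.map (algebraMap ℝ ℂ)).roots.filter fun z => z.im ≠ 0).card

theorem nonreal_eq (p : ℝ[X]) : nonreal p + p.roots.card = p.natDegree := by
  classical
  have h1 : (p.map (algebraMap ℝ ℂ)).roots.card = p.natDegree := by
    rw [IsAlgClosed.card_roots_eq_natDegree, natDegree_map]
  rw [← h1]
  have h2 : ((p.map (algebraMap ℝ ℂ)).roots.filter fun z => ¬ (z.im ≠ 0)) =
      p.roots.map (algebraMap ℝ ℂ) := by
    by_cases hp : p = 0
    · simp [hp]
    ext z
    by_cases hz : z.im = 0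
    · have hzr : z = algebraMap ℝ ℂ z.re := by
        apply Complex.ext
        · simp
        · simp [hz]
      rw [Multiset.count_filter_of_pos (by simpa using hz), hzr,
        Multiset.count_map_eq_count' _ _ (algebraMap ℝ ℂ).injective, count_roots, count_roots,
        ← eq_rootMultiplicity_map (algebraMap ℝ ℂ).injective]
    · rw [Multiset.count_filter_of_neg (by simpa using hz)]
      symm
      rw [Multiset.count_eq_zero]
      intro h3
      obtain ⟨r, -, rfl⟩ := Multiset.mem_map.1 h3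
      exact hz (by simp)
  have h3 := congrArg Multiset.card h2
  rw [Multiset.card_map] at h3
  rw [← h3]
  unfold nonreal
  rw [← Multiset.card_add, Multiset.filter_add_not]

theorem nonreal_eq_zero {p : ℝ[X]} (hp : p ≠ 0) :
    nonreal p = 0 ↔ ∀ z : ℂ, aeval z p = 0 → z.im = 0 := by
  have hne : p.map (algebraMap ℝ ℂ) ≠ 0 := by
    rwa [Ne, Polynomial.map_eq_zero_iff (algebraMap ℝ ℂ).injective]
  unfold nonreal
  rw [Multiset.card_eq_zero, Multiset.filter_eq_nil]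
  constructor
  · intro h z hz
    by_contra him
    refine h z ?_ him
    rw [mem_roots hne]
    show _ = _
    rw [← aeval_eq_map]
    exact hz
  · intro h z hz him
    apply him
    apply h
    rw [aeval_eq_map]
    exact isRoot_of_mem_roots hz

/-- reversal -/
theorem nonreal_Jp (d : ℕ) (γ : ℕ → ℝ) (h0 : γ 0 ≠ 0) : nonreal (Jp d γ) = nonreal (Ap d γ) := by
  classical
  set A : ℂ[X] := (Ap d γ).map (algebraMap ℝ ℂ) with hA
  set s : Multiset ℂ := A.roots with hs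
  have hsp := IsAlgClosed.splits A
  have hdeg : A.natDegree = d := by rw [hA, natDegree_map, natDegree_Ap d γ h0]
  have hcard : s.card = d := by rw [hs, IsAlgClosed.card_roots_eq_natDegree, hdeg]
  have hlc : A.leadingCoeff = ((γ 0 : ℝ) : ℂ) := by
    rw [hA, leadingCoeff_map, leadingCoeff_Ap d γ h0]
    rfl
  have hγ0 : ((γ 0 : ℝ) : ℂ) ≠ 0 := by exact_mod_cast h0
  have hJ : (Jp d γ).map (algebraMap ℝ ℂ) =
      C ((γ 0 : ℝ) : ℂ) * (s.map fun a => 1 - C a * X).prod := by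
    refine eq_of_infinite_eval_eq _ _ (Set.Infinite.mono (s := {t : ℂ | t ≠ 0}) ?_ ?_)
    · intro t ht
      have ht0 : t ≠ 0 := ht
      show _ = _
      have e0 : (C ((γ 0 : ℝ) : ℂ) * (s.map fun a => 1 - C a * X).prod).eval t =
          ((γ 0 : ℝ) : ℂ) * (s.map fun u => 1 - t * u).prod := by
        rw [eval_mul, eval_C, eval_multiset_prod, Multiset.map_map]
        congr 2
        refine Multiset.map_congr rfl fun u _ => ?_
        simp only [Function.comp_apply, eval_sub, eval_one, eval_mul, eval_C, eval_X]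
        ring
      have e1 : A.eval t⁻¹ = ((γ 0 : ℝ) : ℂ) * (s.map fun u => t⁻¹ - u).prod := by
        rw [hsp.eval_eq_prod_roots, hlc]
      have e2 : t ^ d * (s.map fun u => t⁻¹ - u).prod = (s.map fun u => 1 - t * u).prod := by
        rw [← hcard, ← Multiset.prod_replicate, ← Multiset.map_const', ← Multiset.prod_map_mul]
        congr 1
        refine Multiset.map_congr rfl fun u _ => ?_
        field_simp
      rw [e0, ← e2]
      have e3 : ((γ 0 : ℝ) : ℂ) * (t ^ d * (s.map fun u => t⁻¹ - u).prod) = t ^ d * A.eval t⁻¹ := by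
        rw [e1]; ring
      rw [e3, hA, ← aeval_eq_map, ← aeval_eq_map, Ap, Jp, map_sum, map_sum, Finset.mul_sum]
      refine Finset.sum_congr rfl fun j hj => ?_
      have hj' : j ≤ d := Nat.lt_succ_iff.1 (Finset.mem_range.1 hj)
      have e5 : t ^ d = t ^ j * t ^ (d - j) := by rw [← pow_add, Nat.add_sub_cancel' hj']
      simp only [map_mul, aeval_C, map_pow, aeval_X]
      rw [e5, inv_pow]
      have e6 : t ^ (d - j) ≠ 0 := pow_ne_zero _ ht0
      field_simp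
    · have : {t : ℂ | t ≠ 0} = ({0} : Set ℂ)ᶜ := rfl
      rw [this]
      exact (Set.finite_singleton (0 : ℂ)).infinite_compl
  have hroots : ∀ v : Multiset ℂ, (v.map fun a => (1 - C a * X : ℂ[X])).prod ≠ 0 ∧
      (v.map fun a => (1 - C a * X : ℂ[X])).prod.roots =
        (v.filter fun a => a ≠ 0).map fun a => a⁻¹ := by
    intro v
    induction v using Multiset.induction_on with
    | empty => simp
    | cons a v ih =>
      rw [Multiset.map_cons, Multiset.prod_cons]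
      by_cases ha : a = 0
      · rw [ha, C_0, zero_mul, sub_zero, one_mul, Multiset.filter_cons_of_neg _ (by simp)]
        exact ih
      · have e1 : (1 - C a * X : ℂ[X]) = C (-a) * (X - C a⁻¹) := by
          rw [mul_sub, ← C_mul]
          have : -a * a⁻¹ = -1 := by field_simp
          rw [this]
          simp only [C_neg, C_1]
          ring
        have e2 : (1 - C a * X : ℂ[X]) ≠ 0 := by
          rw [e1]
          exact mul_ne_zero (C_ne_zero.2 (neg_ne_zero.2 ha)) (X_sub_C_ne_zero _)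
        refine ⟨mul_ne_zero e2 ih.1, ?_⟩
        rw [roots_mul (mul_ne_zero e2 ih.1), ih.2, e1, roots_C_mul _ (neg_ne_zero.2 ha),
          roots_X_sub_C, Multiset.filter_cons_of_pos (p := fun a => a ≠ 0) v ha, Multiset.map_cons,
          Multiset.singleton_add]
  unfold nonreal
  rw [hJ, roots_C_mul _ hγ0, (hroots s).2, Multiset.filter_map, Multiset.card_map,
    Multiset.filter_filter]
  congr 1
  rw [← hA, ← hs]
  refine Multiset.filter_congr fun z _ => ?_
  simp only [Function.comp_apply, Complex.inv_im, ne_eq]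
  constructor
  · rintro ⟨h1, h2⟩ h3
    apply h1
    rw [h3]
    simp
  · intro h1
    have h2 : z ≠ 0 := by
      rintro rfl
      exact h1 rfl
    refine ⟨?_, h2⟩
    rw [div_eq_zero_iff, not_or]
    exact ⟨neg_ne_zero.2 h1, fun h3 => h2 (Complex.normSq_eq_zero.1 h3)⟩

/-- the final form of the limit statement -/
theorem limCountJ (f : ℂ → ℂ) (P : ℕ → ℝ[X]) (γ : ℕ → ℝ)
    (hpar : ∀ᶠ N in atTop, ∀ x : ℂ, aeval x (P N) = 0 → x ∈ Par)
    (hlim : TendstoLocallyUniformly (fun (N : ℕ) (x : ℂ) => aeval x (P N)) f atTop)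
    (hγ : ∀ j, Tendsto (fun N => (j.factorial : ℝ) * (P N).coeff j) atTop (𝓝 (γ j)))
    (h0 : γ 0 ≠ 0) (d : ℕ) (hd : 1 ≤ d) (x A1 A2 : ℝ) (hx : 0 < x) (hx1 : x ≤ 3 / 4)
    (hA1 : ∀ w : ℂ, ‖w‖ = 12 * d → ‖f w‖ ≤ |γ 0| * Real.exp A1)
    (hA2 : ∀ w : ℂ, ‖w‖ = 6 * d / x → ‖f w‖ ≤ |γ 0| * Real.exp A2) :
    (nonreal (Jp d γ) : ℝ) * Real.log 2 ≤ A2 + Real.log 2 + A1 * (2 * x * √d + 1) := by
  have h1 := limCount f P γ hpar hlim hγ h0 d hd x A1 A2 hx hx1 hA1 hA2
  rw [nonreal_Jp d γ h0]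
  have h2 := nonreal_eq (Ap d γ)
  rw [natDegree_Ap d γ h0] at h2
  have h3 : (d : ℝ) = nonreal (Ap d γ) + (Ap d γ).roots.card := by exact_mod_cast h2.symm
  rw [h3] at h1
  have h4 : (nonreal (Ap d γ) : ℝ) + (Ap d γ).roots.card - (Ap d γ).roots.card =
    nonreal (Ap d γ) := by ring
  rw [h4] at h1
  have h5 : √((nonreal (Ap d γ) : ℝ) + (Ap d γ).roots.card) = √(d : ℝ) := by rw [← h3]
  rw [h5] at h1
  exact h1

end Pool.Agent.TH99.RJ
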