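import Pool.Agent.TH99.RJ.Window
import Pool.Agent.H24R2.JP.Sector
import Pool.Agent.H24R2.JP.Chasse

set_option autoImplicit false

/-!
# Near and far zeros
-/

namespace Pool.Agent.TH99.RJ

open Polynomial Filter Topology

/-- splitting off the zeros in a disc -/
theorem split_disc (R : ℝ) : ∀ (N : ℕ) (f : ℝ[X]), f.natDegree ≤ N → f.coeff 0 ≠ 0 →
    ∃ h g : ℝ[X], f = h * g ∧ (∀ b : ℂ, aeval b h = 0 → ‖b‖ ≤ R) ∧
      (∀ a : ℂ, aeval a g = 0 → R < ‖a‖) := by
  intro N
  induction N with
  | zero =>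
    intro f hf h0
    refine ⟨1, f, (one_mul f).symm, fun b hb => by simp at hb, fun a ha => ?_⟩
    obtain ⟨e, rfl⟩ := natDegree_eq_zero.1 (Nat.le_zero.1 hf)
    rw [coeff_C_zero] at h0
    rw [aeval_C] at ha
    exact absurd (by simpa using ha) h0
  | succ N ih =>
    intro f hf h0
    by_cases hall : ∀ a : ℂ, aeval a f = 0 → R < ‖a‖
    · exact ⟨1, f, (one_mul f).symm, fun b hb => by simp at hb, hall⟩
    push Not at hall
    obtain ⟨a, ha, haR⟩ := hall
    have hf0 : f ≠ 0 := by rintro rfl; simp at h0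
    by_cases him : a.im = 0
    · have har : a = ((a.re : ℝ) : ℂ) := by
        apply Complex.ext
        · simp
        · simp [him]
      have hroot : f.IsRoot a.re := by
        rw [har] at ha
        have h1 : aeval ((a.re : ℝ) : ℂ) f = ((f.eval a.re : ℝ) : ℂ) := by
          have := aeval_algebraMap_apply ℂ a.re f
          simpa using this
        rw [h1] at ha
        exact_mod_cast ha
      obtain ⟨g, hg⟩ := dvd_iff_isRoot.2 hroot
      have hg0 : g ≠ 0 := by rintro rfl; rw [mul_zero] at hg; exact hf0 hg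
      have hfg : f.natDegree = 1 + g.natDegree := by
        rw [hg, natDegree_mul (X_sub_C_ne_zero _) hg0, natDegree_X_sub_C]
      have hgc : g.coeff 0 ≠ 0 := by
        intro h
        apply h0
        rw [hg, mul_coeff_zero, h, mul_zero]
      obtain ⟨h1, g1, e1, e2, e3⟩ := ih g (by omega) hgc
      refine ⟨(X - C a.re) * h1, g1, by rw [hg, e1]; ring, ?_, e3⟩
      intro b hb
      rw [map_mul] at hb
      rcases mul_eq_zero.1 hb with h2 | h2
      · have h3 : b = a := by
          rw [har]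
          simp only [map_sub, aeval_X, aeval_C, sub_eq_zero] at h2
          rw [h2]
          rfl
        rw [h3]
        exact haR
      · exact e2 b h2
    · obtain ⟨g, hg⟩ := quadratic_dvd_of_aeval_eq_zero_im_ne_zero f ha him
      have hg0 : g ≠ 0 := by rintro rfl; rw [mul_zero] at hg; exact hf0 hg
      have hq : (X ^ 2 - C (2 * a.re) * X + C (‖a‖ ^ 2) : ℝ[X]).natDegree = 2 := by
        have : (X ^ 2 - C (2 * a.re) * X + C (‖a‖ ^ 2) : ℝ[X]) =
            C 1 * X ^ 2 + C (-(2 * a.re)) * X + C (‖a‖ ^ 2) := by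
          simp only [map_neg, map_one]; ring
        rw [this]
        exact natDegree_quadratic one_ne_zero
      have hq0 : (X ^ 2 - C (2 * a.re) * X + C (‖a‖ ^ 2) : ℝ[X]) ≠ 0 := by
        intro h
        rw [h] at hq
        simp at hq
      have hfg : f.natDegree = 2 + g.natDegree := by
        rw [hg, natDegree_mul hq0 hg0, hq]
      have hgc : g.coeff 0 ≠ 0 := by
        intro h
        apply h0
        rw [hg, mul_coeff_zero, h, mul_zero]
      obtain ⟨h1, g1, e1, e2, e3⟩ := ih g (by omega) hgc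
      refine ⟨(X ^ 2 - C (2 * a.re) * X + C (‖a‖ ^ 2)) * h1, g1, by rw [hg, e1]; ring, ?_, e3⟩
      intro b hb
      rw [map_mul] at hb
      rcases mul_eq_zero.1 hb with h2 | h2
      · have h3 : aeval b (X ^ 2 - C (2 * a.re) * X + C (‖a‖ ^ 2) : ℝ[X]) =
            (b - a) * (b - (starRingEnd ℂ) a) := by
          have h4 : a * (starRingEnd ℂ) a = ((‖a‖ ^ 2 : ℝ) : ℂ) := by
            rw [Complex.mul_conj, Complex.normSq_eq_norm_sq]
          have h5 : a + (starRingEnd ℂ) a = ((2 * a.re : ℝ) : ℂ) := Complex.add_conj a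
          simp only [map_add, map_sub, map_mul, map_pow, aeval_X, aeval_C,
            Complex.coe_algebraMap]
          have h4' : a * (starRingEnd ℂ) a = (‖a‖ : ℂ) ^ 2 := by rw [h4]; push_cast; rfl
          have h5' : a + (starRingEnd ℂ) a = ((2 : ℝ) : ℂ) * (a.re : ℂ) := by
            rw [h5]; push_cast; rfl
          rw [← h4', ← h5']
          ring
        rw [h3] at h2
        rcases mul_eq_zero.1 h2 with h4 | h4
        · rw [sub_eq_zero.1 h4]; exact haR
        · rw [sub_eq_zero.1 h4, RCLike.norm_conj]; exact haR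
      · exact e2 b h2

/-- Jensen's inequality for the number of zeros, for products. -/
theorem jensen_prod (s : Multiset ℂ) (y A : ℝ) (hy : 0 < y)
    (hA : ∀ t : ℂ, ‖t‖ = 3 / y → ‖(s.map fun u => 1 - t * u).prod‖ ≤ Real.exp A) :
    ((s.filter fun u => y ≤ ‖u‖).card : ℝ) * Real.log 2 ≤ A := by
  set s1 := s.filter fun u => y ≤ ‖u‖ with hs1
  set s2 := s.filter fun u => ¬ (y ≤ ‖u‖) with hs2
  have hs : s = s1 + s2 := (Multiset.filter_add_not _ s).symm
  have h1 : ∀ (v : Multiset ℂ), (∀ u ∈ v, y ≤ ‖u‖) → ∀ t : ℂ, ‖t‖ = 3 / y →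
      (2 : ℝ) ^ v.card ≤ ‖(v.map fun u => 1 - t * u).prod‖ := by
    intro v
    induction v using Multiset.induction_on with
    | empty => intro _ t _; simp
    | cons a v ih =>
      intro hv t ht
      have ha : y ≤ ‖a‖ := hv a (Multiset.mem_cons_self a v)
      have h2 := ih (fun u hu => hv u (Multiset.mem_cons_of_mem hu)) t ht
      rw [Multiset.map_cons, Multiset.prod_cons, Multiset.card_cons, norm_mul, pow_succ, mul_comm]
      have h3 : 2 ≤ ‖1 - t * a‖ := by
        have h4 : ‖t * a‖ ≤ ‖1 - t * a‖ + 1 := by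
          have := norm_sub_norm_le (t * a) 1
          rw [norm_one, norm_sub_rev] at this
          linarith
        have h5 : 3 ≤ ‖t * a‖ := by
          rw [norm_mul, ht, div_mul_eq_mul_div, le_div_iff₀ hy]
          linarith
        linarith
      exact mul_le_mul h3 h2 (by positivity) (by positivity)
  set Q : ℂ[X] := (s2.map fun u => 1 - C u * X).prod with hQ
  have hQe : ∀ t : ℂ, Q.eval t = (s2.map fun u => 1 - t * u).prod := by
    intro t
    rw [hQ, eval_multiset_prod, Multiset.map_map]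
    congr 1
    refine Multiset.map_congr rfl fun u _ => ?_
    simp only [Function.comp_apply, eval_sub, eval_one, eval_mul, eval_C, eval_X]
    ring
  have hQ0 : Q.eval 0 = 1 := by
    rw [hQe]
    simp
  have hr : 0 < 3 / y := by positivity
  have h2 : ∀ t : ℂ, ‖t‖ = 3 / y → ‖Q.eval t‖ ≤ Real.exp A / 2 ^ s1.card := by
    intro t ht
    have h3 := hA t ht
    rw [hs, Multiset.map_add, Multiset.prod_add, norm_mul] at h3
    have h4 := h1 s1 (fun u hu => (Multiset.mem_filter.1 hu).2) t ht
    rw [hQe, le_div_iff₀ (by positivity), mul_comm]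
    refine le_trans ?_ h3
    exact mul_le_mul_of_nonneg_right h4 (norm_nonneg _)
  have h3 : ‖Q.eval 0‖ ≤ Real.exp A / 2 ^ s1.card := by
    refine Complex.norm_le_of_forall_mem_frontier_norm_le (U := Metric.ball (0 : ℂ) (3 / y))
      (f := fun t => Q.eval t) Metric.isBounded_ball Q.differentiable.diffContOnCl ?_ ?_
    · intro z hz
      rw [frontier_ball _ hr.ne', mem_sphere_zero_iff_norm] at hz
      exact h2 z hz
    · exact subset_closure (Metric.mem_ball_self hr)
  rw [hQ0, norm_one, le_div_iff₀ (by positivity), one_mul] at h3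
  have h4 := Real.log_le_log (by positivity) h3
  rwa [Real.log_pow, Real.log_exp] at h4

/-- The evaluation as a product over the inverse zeros. -/
theorem eval_eq_inv (F : ℂ[X]) (h0 : F.eval 0 ≠ 0) (t : ℂ) :
    F.eval t = F.eval 0 * ((F.roots.map fun b => b⁻¹).map fun u => 1 - t * u).prod := by
  have hs := IsAlgClosed.splits F
  have hne : ∀ b ∈ F.roots, b ≠ 0 := by
    intro b hb hb0
    rw [hb0] at hb
    exact h0 (isRoot_of_mem_roots hb)
  rw [hs.eval_eq_prod_roots t, hs.eval_eq_prod_roots 0, mul_assoc, Multiset.map_map,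
    ← Multiset.prod_map_mul]
  congr 2
  refine Multiset.map_congr rfl fun b hb => ?_
  have := hne b hb
  simp only [Function.comp_apply]
  field_simp
  ring

theorem aeval_eq_map (f : ℝ[X]) (z : ℂ) : aeval z f = (f.map (algebraMap ℝ ℂ)).eval z := by
  rw [eval_map_algebraMap]

theorem aeval_zero_coe (f : ℝ[X]) : aeval (0 : ℂ) f = ((f.coeff 0 : ℝ) : ℂ) := by
  rw [← coeff_zero_eq_aeval_zero']
  rfl

/-- the number of near zeros -/
theorem count_near (f : ℝ[X]) (h0 : f.coeff 0 ≠ 0) (R A : ℝ) (hR : 0 < R)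
    (hA : ∀ w : ℂ, ‖w‖ = 3 * R → ‖aeval w f‖ ≤ ‖aeval (0 : ℂ) f‖ * Real.exp A)
    (h : ℝ[X]) (hdvd : h ∣ f) (hroots : ∀ b : ℂ, aeval b h = 0 → ‖b‖ ≤ R) :
    (h.natDegree : ℝ) * Real.log 2 ≤ A := by
  set F : ℂ[X] := f.map (algebraMap ℝ ℂ) with hF
  have hF0 : F.eval 0 ≠ 0 := by
    rw [hF, ← aeval_eq_map, aeval_zero_coe]
    exact_mod_cast h0
  have hFne : F ≠ 0 := by
    intro h1
    rw [h1] at hF0
    simp at hF0
  have h1 := jensen_prod (F.roots.map fun b => b⁻¹) (1 / R) A (by positivity) (by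
    intro t ht
    have h2 := eval_eq_inv F hF0 t
    have h3 := hA t (by rw [ht]; field_simp)
    rw [aeval_eq_map, aeval_eq_map, ← hF, h2, norm_mul] at h3
    exact le_of_mul_le_mul_left h3 (norm_pos_iff.2 hF0))
  refine le_trans ?_ h1
  refine mul_le_mul_of_nonneg_right ?_ (Real.log_nonneg (by norm_num))
  have h2 : (h.map (algebraMap ℝ ℂ)).roots ≤ F.roots :=
    Polynomial.roots.le_of_dvd hFne (Polynomial.map_dvd _ hdvd)
  have h3 : (h.map (algebraMap ℝ ℂ)).roots.map (fun b => b⁻¹) ≤
      (F.roots.map fun b => b⁻¹).filter fun u => 1 / R ≤ ‖u‖ := by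
    rw [Multiset.le_filter]
    refine ⟨Multiset.map_le_map h2, fun u hu => ?_⟩
    obtain ⟨b, hb, rfl⟩ := Multiset.mem_map.1 hu
    have hb0 : b ≠ 0 := by
      rintro rfl
      exact hF0 (isRoot_of_mem_roots (Multiset.mem_of_le h2 hb))
    have hbR : ‖b‖ ≤ R := hroots b (by
      rw [aeval_eq_map]
      exact isRoot_of_mem_roots hb)
    rw [norm_inv, one_div]
    exact inv_anti₀ (norm_pos_iff.2 hb0) hbR
  have h4 := Multiset.card_le_card h3
  rw [Multiset.card_map, IsAlgClosed.card_roots_eq_natDegree, natDegree_map] at h4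
  exact_mod_cast h4

/-- lower bound away from the zeros -/
theorem lower_far (f : ℝ[X]) (h0 : f.coeff 0 ≠ 0) (w : ℂ)
    (hw : ∀ b : ℂ, aeval b f = 0 → 2 * ‖b‖ ≤ ‖w‖) : ‖aeval (0 : ℂ) f‖ ≤ ‖aeval w f‖ := by
  set F : ℂ[X] := f.map (algebraMap ℝ ℂ) with hF
  have hF0 : F.eval 0 ≠ 0 := by
    rw [hF, ← aeval_eq_map, aeval_zero_coe]
    exact_mod_cast h0
  have h2 := eval_eq_inv F hF0 w
  rw [aeval_eq_map, aeval_eq_map, ← hF, h2, norm_mul]
  refine le_mul_of_one_le_right (norm_nonneg _) ?_
  have h1 : ∀ v : Multiset ℂ, (∀ u ∈ v, 2 ≤ ‖w * u‖) →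
      1 ≤ ‖(v.map fun u => 1 - w * u).prod‖ := by
    intro v
    induction v using Multiset.induction_on with
    | empty => intro _; simp
    | cons a v ih =>
      intro hv
      have ha := hv a (Multiset.mem_cons_self a v)
      have h2 := ih (fun u hu => hv u (Multiset.mem_cons_of_mem hu))
      rw [Multiset.map_cons, Multiset.prod_cons, norm_mul]
      have h3 : 1 ≤ ‖1 - w * a‖ := by
        have := norm_sub_norm_le (w * a) 1
        rw [norm_one, norm_sub_rev] at this
        linarith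
      exact one_le_mul_of_one_le_of_one_le h3 h2
  apply h1
  intro u hu
  obtain ⟨b, hb, rfl⟩ := Multiset.mem_map.1 hu
  have hb0 : b ≠ 0 := by
    rintro rfl
    exact hF0 (isRoot_of_mem_roots hb)
  have h3 := hw b (by rw [aeval_eq_map]; exact isRoot_of_mem_roots hb)
  rw [norm_mul, norm_inv, ← div_eq_mul_inv, le_div_iff₀ (norm_pos_iff.2 hb0)]
  exact h3

/-- `f(D) X ^ d`. -/
theorem rop_pow (f : ℝ[X]) (d : ℕ) : rop f (X ^ d) =
    ∑ j ∈ Finset.range (d + 1), C ((d.choose j : ℝ) * ((j.factorial : ℝ) * f.coeff j)) *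
      X ^ (d - j) := by
  have h1 : rop f (X ^ d) = ∑ j ∈ Finset.range (max (f.natDegree + 1) (d + 1)),
      C (f.coeff j) * derivative^[j] (X ^ d) := by
    unfold rop
    rw [aeval_eq_sum_range' (lt_of_lt_of_le (Nat.lt_succ_self _) (le_max_left _ _)),
      LinearMap.sum_apply]
    refine Finset.sum_congr rfl fun j _ => ?_
    rw [LinearMap.smul_apply, Module.End.pow_apply, smul_eq_C_mul]
  rw [h1]
  symm
  refine (Finset.sum_subset (Finset.range_subset_range.2 (le_max_right (f.natDegree + 1) (d + 1)))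
    ?_).trans ?_
  · intro j _ hj
    have : d < j := by simpa using hj
    rw [Nat.choose_eq_zero_of_lt this]
    simp
  · refine Finset.sum_congr rfl fun j _ => ?_
    rw [iterate_derivative_X_pow_eq_C_mul, Nat.descFactorial_eq_factorial_mul_choose]
    rw [← mul_assoc (C (f.coeff j)), ← C_mul]
    congr 2
    push_cast
    ring

theorem aeval_rop_pow (f : ℝ[X]) (d : ℕ) (z : ℂ) : aeval z (rop f (X ^ d)) =
    ∑ j ∈ Finset.range (d + 1), (d.choose j : ℂ) * ((j.factorial : ℂ) * ((f.coeff j : ℝ) : ℂ)) *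
      z ^ (d - j) := by
  rw [rop_pow, map_sum]
  refine Finset.sum_congr rfl fun j _ => ?_
  simp only [map_mul, aeval_C, map_pow, aeval_X, Complex.coe_algebraMap]
  push_cast
  ring

theorem coeff_rop_pow (f : ℝ[X]) (d j : ℕ) (hj : j ≤ d) : (rop f (X ^ d)).coeff (d - j) =
    (d.choose j : ℝ) * ((j.factorial : ℝ) * f.coeff j) := by
  rw [rop_pow, finsetSum_coeff, Finset.sum_eq_single j]
  · rw [coeff_C_mul, coeff_X_pow, if_pos rfl, mul_one]
  · intro i hi hij
    have := Finset.mem_range.1 hi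
    rw [coeff_C_mul, coeff_X_pow, if_neg (by omega), mul_zero]
  · intro h
    exact absurd (Finset.mem_range.2 (by omega)) h

theorem natDegree_rop_pow_le (f : ℝ[X]) (d : ℕ) : (rop f (X ^ d)).natDegree ≤ d := by
  rw [rop_pow]
  refine natDegree_sum_le_of_forall_le _ _ fun j _ => ?_
  exact (natDegree_C_mul_X_pow_le _ _).trans (Nat.sub_le _ _)

theorem natDegree_rop_pow (f : ℝ[X]) (d : ℕ) (h0 : f.coeff 0 ≠ 0) :
    (rop f (X ^ d)).natDegree = d := by
  refine le_antisymm (natDegree_rop_pow_le f d) (le_natDegree_of_ne_zero ?_)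
  have := coeff_rop_pow f d 0 (Nat.zero_le d)
  rw [Nat.sub_zero] at this
  rw [this]
  simpa using h0

theorem leadingCoeff_rop_pow (f : ℝ[X]) (d : ℕ) (h0 : f.coeff 0 ≠ 0) :
    (rop f (X ^ d)).leadingCoeff = f.coeff 0 := by
  rw [leadingCoeff, natDegree_rop_pow f d h0]
  have := coeff_rop_pow f d 0 (Nat.zero_le d)
  rw [Nat.sub_zero] at this
  rw [this]
  simp

theorem iter_aeval (Q : ℝ[X]) (j : ℕ) : iteratedDeriv j (fun x : ℂ => aeval x Q) =
    fun x : ℂ => aeval x (derivative^[j] Q) := by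
  induction j with
  | zero => rfl
  | succ j ih =>
    rw [iteratedDeriv_succ, ih]
    funext x
    rw [Function.iterate_succ_apply']
    exact ((derivative^[j] Q).hasDerivAt_aeval x).deriv

/-- Cauchy's estimate for the coefficients -/
theorem coeff_le (g : ℝ[X]) (ρ M : ℝ) (hρ : 0 < ρ)
    (hM : ∀ w : ℂ, ‖w‖ = ρ → ‖aeval w g‖ ≤ M) (j : ℕ) : |g.coeff j| * ρ ^ j ≤ M := by
  have hdiff : Differentiable ℂ fun x : ℂ => aeval x g := fun x =>
    (g.hasDerivAt_aeval x).differentiableAt
  have h1 := Complex.norm_iteratedDeriv_le_of_forall_mem_sphere_norm_le (c := 0) (R := ρ) (C := M)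
    (f := fun x : ℂ => aeval x g) j hρ hdiff.diffContOnCl (fun z hz => hM z (by simpa using hz))
  rw [iter_aeval] at h1
  have h2 : aeval (0 : ℂ) (derivative^[j] g) = (j.factorial : ℂ) * ((g.coeff j : ℝ) : ℂ) := by
    rw [← coeff_zero_eq_aeval_zero', coeff_iterate_derivative]
    simp [Nat.descFactorial_self]
  change ‖aeval (0 : ℂ) (derivative^[j] g)‖ ≤ _ at h1
  rw [h2, norm_mul, Complex.norm_natCast, Complex.norm_real, Real.norm_eq_abs,
    mul_div_assoc] at h1
  have h3 : (0 : ℝ) < j.factorial := by positivity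
  have h4 := le_of_mul_le_mul_left h1 h3
  rwa [le_div_iff₀ (by positivity)] at h4

/-- a polynomial with only real zeros splits -/
theorem splits_of_real (p : ℝ[X]) (h : ∀ z : ℂ, aeval z p = 0 → z.im = 0) : p.Splits := by
  refine Splits.of_splits_map (algebraMap ℝ ℂ) (IsAlgClosed.splits _) fun a ha => ?_
  have h1 : aeval a p = 0 := by
    rw [aeval_eq_map]
    exact isRoot_of_mem_roots ha
  exact ⟨a.re, Complex.ext (by simp) (by simp [h a h1])⟩

/-- the number of far zeros of `g(D) X ^ d` -/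
theorem count_far (g : ℝ[X]) (d : ℕ) (hd : 1 ≤ d) (h0 : g.coeff 0 ≠ 0)
    (hs : ∀ a : ℂ, aeval a g = 0 → (d : ℝ) * a.im ^ 2 ≤ ‖a‖ ^ 2) (x A : ℝ) (hx : 0 < x)
    (hA : ∀ w : ℂ, ‖w‖ = 6 * d / x → ‖aeval w g‖ ≤ ‖aeval (0 : ℂ) g‖ * Real.exp A) :
    ((d : ℝ) - cnt (rop g (X ^ d)) (Set.Ioo (-x) x)) * Real.log 2 ≤ A + Real.log 2 := by
  classical
  set G : ℝ[X] := rop g (X ^ d) with hG
  have hreal : ∀ z : ℂ, aeval z G = 0 → z.im = 0 := by
    intro z hz
    rw [hG, aeval_rop_pow] at hz
    exact Pool.Agent.H24R2.JP.sector Pool.Agent.H24R2.JP.chasse g d h0 hs z hz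
  have hsp : G.Splits := splits_of_real G hreal
  have hcard : G.roots.card = d := by
    rw [← hsp.natDegree_eq_card_roots, hG, natDegree_rop_pow g d h0]
  have hdpos : (0 : ℝ) < d := by exact_mod_cast hd
  set s : Multiset ℂ := G.roots.map (fun r : ℝ => (r : ℂ)) with hsdef
  have hcoef := coeff_le g (6 * d / x) _ (by positivity) hA
  rw [aeval_zero_coe, Complex.norm_real, Real.norm_eq_abs] at hcoef
  have h1 := jensen_prod s x (A + Real.log 2) hx (by
    intro t ht
    have ht0 : t ≠ 0 := by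
      intro h
      rw [h, norm_zero] at ht
      have : 0 < 3 / x := by positivity
      linarith
    have h2 : ((g.coeff 0 : ℝ) : ℂ) * (s.map fun u => 1 - t * u).prod =
        ∑ j ∈ Finset.range (d + 1), (d.choose j : ℂ) *
          ((j.factorial : ℂ) * ((g.coeff j : ℝ) : ℂ)) * t ^ j := by
      have e1 : aeval t⁻¹ G = ((g.coeff 0 : ℝ) : ℂ) * (s.map fun u => t⁻¹ - u).prod := by
        rw [aeval_eq_map, (hsp.map (algebraMap ℝ ℂ)).eval_eq_prod_roots, hsp.roots_map,
          leadingCoeff_map, hG, leadingCoeff_rop_pow g d h0, ← hG]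
        rfl
      have e2 : t ^ d * (s.map fun u => t⁻¹ - u).prod = (s.map fun u => 1 - t * u).prod := by
        have e3 : s.card = d := by rw [hsdef, Multiset.card_map, hcard]
        rw [← e3, ← Multiset.prod_replicate, ← Multiset.map_const', ← Multiset.prod_map_mul]
        congr 1
        refine Multiset.map_congr rfl fun u _ => ?_
        field_simp
      have e4 : t ^ d * aeval t⁻¹ G = ∑ j ∈ Finset.range (d + 1), (d.choose j : ℂ) *
          ((j.factorial : ℂ) * ((g.coeff j : ℝ) : ℂ)) * t ^ j := by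
        rw [hG, aeval_rop_pow, Finset.mul_sum]
        refine Finset.sum_congr rfl fun j hj => ?_
        have hj' : j ≤ d := Nat.lt_succ_iff.1 (Finset.mem_range.1 hj)
        have e5 : t ^ d = t ^ j * t ^ (d - j) := by rw [← pow_add, Nat.add_sub_cancel' hj']
        rw [e5, inv_pow]
        have e6 : t ^ (d - j) ≠ 0 := pow_ne_zero _ ht0
        field_simp
      rw [← e4, e1, ← e2]
      ring
    have hg0 : 0 < |g.coeff 0| := abs_pos.2 h0
    have h3 : |g.coeff 0| * ‖(s.map fun u => 1 - t * u).prod‖ ≤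
        |g.coeff 0| * Real.exp (A + Real.log 2) := by
      have e1 : |g.coeff 0| * ‖(s.map fun u => 1 - t * u).prod‖ =
          ‖((g.coeff 0 : ℝ) : ℂ) * (s.map fun u => 1 - t * u).prod‖ := by
        rw [norm_mul, Complex.norm_real, Real.norm_eq_abs]
      rw [e1, h2]
      refine (norm_sum_le _ _).trans ?_
      have e2 : ∀ j ∈ Finset.range (d + 1), ‖(d.choose j : ℂ) *
          ((j.factorial : ℂ) * ((g.coeff j : ℝ) : ℂ)) * t ^ j‖ ≤
          |g.coeff 0| * Real.exp A * (1 / 2) ^ j := by
        intro j _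
        rw [norm_mul, norm_mul, norm_mul, Complex.norm_natCast, Complex.norm_natCast,
          Complex.norm_real, Real.norm_eq_abs, norm_pow, ht]
        have e3 : (d.choose j : ℝ) * (j.factorial : ℝ) ≤ (d : ℝ) ^ j := by
          have := Nat.descFactorial_le_pow d j
          rw [Nat.descFactorial_eq_factorial_mul_choose] at this
          calc (d.choose j : ℝ) * (j.factorial : ℝ) = ((j.factorial * d.choose j : ℕ) : ℝ) := by
                push_cast; ring
            _ ≤ ((d ^ j : ℕ) : ℝ) := by exact_mod_cast this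
            _ = _ := by push_cast; rfl
        have e4 := hcoef j
        calc (d.choose j : ℝ) * ((j.factorial : ℝ) * |g.coeff j|) * (3 / x) ^ j
            = ((d.choose j : ℝ) * (j.factorial : ℝ)) * (|g.coeff j| * (3 / x) ^ j) := by ring
          _ ≤ (d : ℝ) ^ j * (|g.coeff j| * (3 / x) ^ j) := by
              refine mul_le_mul_of_nonneg_right e3 (by positivity)
          _ = (|g.coeff j| * (6 * d / x) ^ j) * (1 / 2) ^ j := by
              have : (6 * (d : ℝ) / x) ^ j * (1 / 2) ^ j = (d : ℝ) ^ j * (3 / x) ^ j := by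
                rw [← mul_pow, ← mul_pow]
                congr 1
                field_simp
                norm_num
              rw [mul_assoc, this]
              ring
          _ ≤ _ := mul_le_mul_of_nonneg_right e4 (by positivity)
      refine (Finset.sum_le_sum e2).trans ?_
      rw [← Finset.mul_sum]
      have e3 : ∑ j ∈ Finset.range (d + 1), ((1 : ℝ) / 2) ^ j ≤ 2 := by
        have := Summable.sum_le_tsum (Finset.range (d + 1)) (fun j _ => by positivity)
          (summable_geometric_two)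
        rw [tsum_geometric_two] at this
        exact this
      rw [Real.exp_add, Real.exp_log (by norm_num)]
      calc |g.coeff 0| * Real.exp A * ∑ j ∈ Finset.range (d + 1), ((1 : ℝ) / 2) ^ j
          ≤ |g.coeff 0| * Real.exp A * 2 := mul_le_mul_of_nonneg_left e3 (by positivity)
        _ = _ := by ring
    exact le_of_mul_le_mul_left h3 hg0)
  have h2 : (s.filter fun u => x ≤ ‖u‖).card = (G.roots.filter fun r => x ≤ |r|).card := by
    rw [hsdef, Multiset.filter_map, Multiset.card_map]
    congr 1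
    refine Multiset.filter_congr fun r _ => ?_
    simp
  have h3 : (d : ℝ) = cnt G (Set.Ioo (-x) x) + (G.roots.filter fun r => x ≤ |r|).card := by
    have e1 := Multiset.filter_add_not (fun r => x ≤ |r|) G.roots
    have e2 := congrArg Multiset.card e1
    rw [Multiset.card_add, hcard] at e2
    have e3 : (G.roots.filter fun r => ¬ (x ≤ |r|)).card = cnt G (Set.Ioo (-x) x) := by
      unfold cnt
      congr 1
      have : ∀ r : ℝ, ¬ (x ≤ |r|) ↔ r ∈ Set.Ioo (-x) x := by
        intro r
        rw [not_le, abs_lt]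
        rfl
      simp only [this]
      congr!
    rw [e3] at e2
    rw [← e2]
    push_cast
    ring
  rw [h2] at h1
  rw [h3]
  have : cnt G (Set.Ioo (-x) x) + ((G.roots.filter fun r => x ≤ |r|).card : ℝ) -
      cnt G (Set.Ioo (-x) x) = ((G.roots.filter fun r => x ≤ |r|).card : ℝ) := by ring
  rw [this]
  exact h1

end Pool.Agent.TH99.RJ
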