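import Pool.Agent.TH99.RJ.Base

set_option autoImplicit false

/-!
# The operators `D - r` and `D ^ 2 - 2 a D + (a ^ 2 + b ^ 2)` lose at most `1`, `2` zeros in a
short interval
-/

namespace Pool.Agent.TH99.RJ

open Polynomial Filter Topology

/-- Rolle's theorem for several zeros. -/
theorem rolle_many {m : ℕ} {f f' : ℝ → ℝ} (t : Fin (m + 1) → ℝ) (ht : StrictMono t)
    (hf : ∀ x, t 0 ≤ x → x ≤ t (Fin.last m) → HasDerivAt f (f' x) x) (hz : ∀ i, f (t i) = 0) :
    ∃ s : Fin m → ℝ, StrictMono s ∧ (∀ i, t 0 ≤ s i ∧ s i ≤ t (Fin.last m)) ∧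
      (∀ i, f' (s i) = 0) ∧ (∀ i : Fin m, t i.castSucc < s i ∧ s i < t i.succ) := by
  have h1 : ∀ i : Fin m, ∃ c ∈ Set.Ioo (t i.castSucc) (t i.succ), f' c = 0 := by
    intro i
    have hlt : t i.castSucc < t i.succ := ht (Fin.castSucc_lt_succ)
    have hlo : t 0 ≤ t i.castSucc := ht.monotone (Fin.zero_le _)
    have hhi : t i.succ ≤ t (Fin.last m) := ht.monotone (Fin.le_last _)
    refine exists_hasDerivAt_eq_zero (f := f) hlt ?_ (by rw [hz, hz]) ?_
    · intro x hx
      exact (hf x (hlo.trans hx.1) (hx.2.trans hhi)).continuousAt.continuousWithinAt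
    · intro x hx
      exact hf x (hlo.trans hx.1.le) (hx.2.le.trans hhi)
  choose s hs hs0 using h1
  refine ⟨s, ?_, ?_, hs0, hs⟩
  · intro i j hij
    have h2 : t i.succ ≤ t j.castSucc := ht.monotone (by
      rw [Fin.le_iff_val_le_val]
      simp only [Fin.val_succ, Fin.val_castSucc]
      exact hij)
    linarith [(hs i).2, (hs j).1]
  · intro i
    have hlo : t 0 ≤ t i.castSucc := ht.monotone (Fin.zero_le _)
    have hhi : t i.succ ≤ t (Fin.last m) := ht.monotone (Fin.le_last _)
    exact ⟨by linarith [(hs i).1], by linarith [(hs i).2]⟩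

/-- distinct zeros, linear factor -/
theorem lin_simple {m : ℕ} (p : ℝ[X]) (r : ℝ) (t : Fin (m + 1) → ℝ) (ht : StrictMono t)
    (hz : ∀ i, p.eval (t i) = 0) :
    ∃ s : Fin m → ℝ, StrictMono s ∧ (∀ i, t 0 ≤ s i ∧ s i ≤ t (Fin.last m)) ∧
      (∀ i, (derivative p - C r * p).eval (s i) = 0) := by
  obtain ⟨s, h1, h2, h3, -⟩ := rolle_many (f := fun x => Real.exp (-(r * x)) * p.eval x)
    (f' := fun x => Real.exp (-(r * x)) * (derivative p - C r * p).eval x) t ht (by
      intro x _ _
      have ha : HasDerivAt (fun x => Real.exp (-(r * x))) (Real.exp (-(r * x)) * (-(r * 1))) x :=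
        ((hasDerivAt_id x).const_mul r).neg.exp
      have hb := ha.mul (p.hasDerivAt x)
      refine hb.congr_deriv ?_
      simp only [eval_sub, eval_mul, eval_C]
      ring) (by
      intro i
      simp only [hz i, mul_zero])
  refine ⟨s, h1, h2, fun i => ?_⟩
  exact (mul_eq_zero.1 (h3 i)).resolve_left (Real.exp_pos _).ne'

/-- distinct zeros, quadratic factor -/
theorem quad_simple {m : ℕ} (p : ℝ[X]) (a b : ℝ) (hb : 0 < b) (t : Fin (m + 2) → ℝ)
    (ht : StrictMono t) (hlen : (t (Fin.last (m + 1)) - t 0) * b < Real.pi)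
    (hz : ∀ i, p.eval (t i) = 0) :
    ∃ s : Fin m → ℝ, StrictMono s ∧ (∀ i, t 0 ≤ s i ∧ s i ≤ t (Fin.last (m + 1))) ∧
      (∀ i, (derivative (derivative p) - C (2 * a) * derivative p +
        C (a ^ 2 + b ^ 2) * p).eval (s i) = 0) := by
  set c : ℝ := (t 0 + t (Fin.last (m + 1))) / 2 with hc
  have hcos : ∀ x, t 0 ≤ x → x ≤ t (Fin.last (m + 1)) → 0 < Real.cos (b * (x - c)) := by
    intro x hx1 hx2
    apply Real.cos_pos_of_mem_Ioo
    constructor
    · have : -((t (Fin.last (m + 1)) - t 0) * b) ≤ 2 * (b * (x - c)) := by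
        rw [hc]; nlinarith
      linarith
    · have : 2 * (b * (x - c)) ≤ (t (Fin.last (m + 1)) - t 0) * b := by
        rw [hc]; nlinarith
      linarith
  have hE : ∀ x : ℝ, HasDerivAt (fun x => Real.exp (-(a * x))) (-a * Real.exp (-(a * x))) x := by
    intro x
    have ha : HasDerivAt (fun x => Real.exp (-(a * x))) (Real.exp (-(a * x)) * (-(a * 1))) x :=
      ((hasDerivAt_id x).const_mul a).neg.exp
    refine ha.congr_deriv ?_
    ring
  have hlin : ∀ x : ℝ, HasDerivAt (fun x => b * (x - c)) b x := by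
    intro x
    have := ((hasDerivAt_id x).sub_const c).const_mul b
    simpa using this
  have hC : ∀ x : ℝ, HasDerivAt (fun x => Real.cos (b * (x - c)))
      (-b * Real.sin (b * (x - c))) x := by
    intro x
    have := (hlin x).cos
    refine this.congr_deriv ?_
    ring
  have hS : ∀ x : ℝ, HasDerivAt (fun x => Real.sin (b * (x - c)))
      (b * Real.cos (b * (x - c))) x := by
    intro x
    have := (hlin x).sin
    refine this.congr_deriv ?_
    ring
  -- first application
  set u' : ℝ → ℝ := fun x => Real.exp (-(a * x)) * ((derivative p).eval x - a * p.eval x) with hu'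
  set v : ℝ → ℝ := fun x => u' x * Real.cos (b * (x - c)) +
    b * (Real.exp (-(a * x)) * p.eval x) * Real.sin (b * (x - c)) with hv
  obtain ⟨s, h1, h2, h3, h4⟩ := rolle_many
    (f := fun x => Real.exp (-(a * x)) * p.eval x / Real.cos (b * (x - c)))
    (f' := fun x => v x / Real.cos (b * (x - c)) ^ 2) t ht (by
      intro x hx1 hx2
      have h5 := ((hE x).mul (p.hasDerivAt x)).div (hC x) (hcos x hx1 hx2).ne'
      refine h5.congr_deriv ?_
      congr 1
      simp only [hv, hu', Pi.mul_apply]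
      ring) (by
      intro i
      simp only [hz i, mul_zero, zero_div])
  have hv0 : ∀ i, v (s i) = 0 := by
    intro i
    have h5 := hcos (s i) (h2 i).1 (h2 i).2
    have h6 := h3 i
    simp only [div_eq_zero_iff] at h6
    rcases h6 with h6 | h6
    · exact h6
    · exact absurd h6 (by positivity)
  -- second application
  have hsl : s 0 ≤ s (Fin.last m) := h1.monotone (Fin.zero_le _)
  obtain ⟨w, h5, h6, h7, -⟩ := rolle_many (m := m) (f := v)
    (f' := fun x => Real.exp (-(a * x)) * (derivative (derivative p) - C (2 * a) * derivative p +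
        C (a ^ 2 + b ^ 2) * p).eval x * Real.cos (b * (x - c))) s h1 (by
      intro x _ _
      have e1 := ((derivative p).hasDerivAt x).sub ((p.hasDerivAt x).const_mul a)
      have e2 := (hE x).mul e1
      have e3 := e2.mul (hC x)
      have e4 := ((hE x).mul (p.hasDerivAt x)).const_mul b
      have e5 := e4.mul (hS x)
      have e6 := e3.add e5
      refine e6.congr_deriv ?_
      simp only [Pi.mul_apply, Pi.sub_apply, eval_add, eval_sub, eval_mul, eval_C]
      ring) hv0
  refine ⟨w, h5, fun i => ⟨?_, ?_⟩, fun i => ?_⟩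
  · exact (h2 0).1.trans (h6 i).1
  · exact (h6 i).2.trans (h2 (Fin.last m)).2
  · have h8 := h7 i
    have h9 := hcos (w i) ((h2 0).1.trans (h6 i).1) ((h6 i).2.trans (h2 (Fin.last m)).2)
    rcases mul_eq_zero.1 h8 with h10 | h10
    · exact (mul_eq_zero.1 h10).resolve_left (Real.exp_pos _).ne'
    · exact absurd h10 h9.ne'

/-- distinct zeros give a divisor -/
theorem prod_dvd_of_strictMono {m : ℕ} (q : ℝ[X]) (s : Fin m → ℝ) (hs : StrictMono s)
    (hz : ∀ i, q.eval (s i) = 0) : (∏ i, (X - C (s i))) ∣ q := by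
  refine Finset.prod_dvd_of_coprime ?_ ?_
  · intro i _ j _ hij
    exact pairwise_coprime_X_sub_C hs.injective hij
  · intro i _
    exact dvd_iff_isRoot.2 (hz i)

/-- from distinct zeros to zeros with multiplicity -/
theorem mult_of_simple {κ : ℕ} {L : ℝ} (T : ℝ[X] → ℝ[X])
    (hT : ∀ (p : ℕ → ℝ[X]) (P : ℝ[X]), CT p P → CT (fun k => T (p k)) (T P))
    (hD : ∀ p, (T p).natDegree ≤ p.natDegree)
    (hs : ∀ (m : ℕ) (p : ℝ[X]) (t : Fin (m + κ) → ℝ), StrictMono t → (∀ i j, t i - t j < L) →
      (∀ i, p.eval (t i) = 0) → ∃ s : Fin m → ℝ, StrictMono s ∧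
        (∀ i, ∃ j j', t j ≤ s i ∧ s i ≤ t j') ∧ ∀ i, (T p).eval (s i) = 0)
    (m : ℕ) (p : ℝ[X]) (l r : ℝ) (hlr : r - l < L) (t : Fin (m + κ) → ℝ)
    (ht : ∀ i, l ≤ t i ∧ t i ≤ r) (hp : (∏ i, (X - C (t i))) ∣ p) :
    ∃ s : Fin m → ℝ, (∀ i, l ≤ s i ∧ s i ≤ r) ∧ (∏ i, (X - C (s i))) ∣ T p := by
  -- sort
  wlog hmono : Monotone t generalizing t with hw
  · refine hw (t ∘ Tuple.sort t) (fun i => ht _) ?_ (Tuple.monotone_sort t)
    have : (∏ i, (X - C ((t ∘ Tuple.sort t) i)) : ℝ[X]) = ∏ i, (X - C (t i)) :=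
      Equiv.prod_comp (Tuple.sort t) fun i => (X - C (t i) : ℝ[X])
    rw [this]
    exact hp
  obtain ⟨q, rfl⟩ := hp
  set e : ℕ → ℝ := fun k => 1 / ((k : ℝ) + 1) with he
  have he0 : Tendsto e atTop (𝓝 0) := tendsto_one_div_add_atTop_nhds_zero_nat
  have hepos : ∀ k, 0 < e k := fun k => by simp only [he]; positivity
  set tk : ℕ → Fin (m + κ) → ℝ := fun k i => t i + e k * i with htk
  set pk : ℕ → ℝ[X] := fun k => (∏ i, (X - C (tk k i))) * q with hpk
  have htkT : ∀ i, Tendsto (fun k => tk k i) atTop (𝓝 (t i)) := by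
    intro i
    have := (he0.mul_const (i : ℝ)).const_add (t i)
    simpa [htk] using this
  have hpkCT : CT pk ((∏ i, (X - C (t i))) * q) := by
    refine CT.mul (CT.prod fun i => ?_) (CT.const q)
    exact (CT.const X).sub (CT.C (htkT i))
  have hrk : Tendsto (fun k => r + e k * ((m + κ : ℕ) : ℝ)) atTop (𝓝 r) := by
    simpa using (he0.mul_const ((m + κ : ℕ) : ℝ)).const_add r
  refine closed (D := m + κ + q.natDegree) (lk := fun _ => l) (rk := fun k => r + e k * ((m + κ : ℕ) : ℝ))
    (hT _ _ hpkCT) ?_ tendsto_const_nhds hrk ?_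
  · intro k
    refine (hD _).trans ((natDegree_mul_le).trans ?_)
    refine Nat.add_le_add_right ?_ _
    refine (natDegree_prod_le _ _).trans ?_
    refine (Finset.sum_le_sum fun i _ => natDegree_X_sub_C_le (tk k i)).trans ?_
    simp
  · have h1 : Tendsto (fun k => r + e k * ((m + κ : ℕ) : ℝ) - l) atTop (𝓝 (r - l)) := hrk.sub_const l
    filter_upwards [h1.eventually (gt_mem_nhds hlr)] with k hk
    have hbd : ∀ i, l ≤ tk k i ∧ tk k i ≤ r + e k * ((m + κ : ℕ) : ℝ) := by
      intro i
      have h2 := ht i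
      have h3 : (0 : ℝ) ≤ i := Nat.cast_nonneg _
      have h4 : ((i : ℕ) : ℝ) ≤ ((m + κ : ℕ) : ℝ) := by exact_mod_cast i.2.le
      have h5 := hepos k
      simp only [htk]
      constructor
      · nlinarith
      · nlinarith
    have hsm : StrictMono (tk k) := by
      intro i j hij
      have h2 := hmono hij.le
      have h3 : ((i : ℕ) : ℝ) < ((j : ℕ) : ℝ) := by exact_mod_cast hij
      have h5 := hepos k
      simp only [htk]
      nlinarith
    obtain ⟨s, h2, h3, h4⟩ := hs m (pk k) (tk k) hsm (fun i j => by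
      have := hbd i
      have := hbd j
      linarith) (fun i => by
      simp only [hpk, eval_mul]
      rw [eval_prodX, Finset.prod_eq_zero (Finset.mem_univ i) (sub_self _), zero_mul])
    refine ⟨s, fun i => ?_, prod_dvd_of_strictMono _ s h2 h4⟩
    obtain ⟨j, j', h5, h6⟩ := h3 i
    exact ⟨(hbd j).1.trans h5, h6.trans (hbd j').2⟩

/-- the counting form -/
theorem cnt_of_simple {κ : ℕ} {L : ℝ} (T : ℝ[X] → ℝ[X])
    (hT : ∀ (p : ℕ → ℝ[X]) (P : ℝ[X]), CT p P → CT (fun k => T (p k)) (T P))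
    (hD : ∀ p, (T p).natDegree ≤ p.natDegree)
    (hs : ∀ (m : ℕ) (p : ℝ[X]) (t : Fin (m + κ) → ℝ), StrictMono t → (∀ i j, t i - t j < L) →
      (∀ i, p.eval (t i) = 0) → ∃ s : Fin m → ℝ, StrictMono s ∧
        (∀ i, ∃ j j', t j ≤ s i ∧ s i ≤ t j') ∧ ∀ i, (T p).eval (s i) = 0)
    (p : ℝ[X]) (hp : T p ≠ 0) (a : ℝ) :
    cnt p (Set.Ico a (a + L)) ≤ cnt (T p) (Set.Ico a (a + L)) + κ := by
  by_contra hcon
  push Not at hcon
  set m : ℕ := cnt (T p) (Set.Ico a (a + L)) + 1 with hm
  obtain ⟨t, ht, hd⟩ := dvd_of_cnt (M := m + κ) (p := p) (s := Set.Ico a (a + L)) (by omega)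
  have hne : (Finset.univ : Finset (Fin (m + κ))).Nonempty := ⟨⟨0, by omega⟩, Finset.mem_univ _⟩
  obtain ⟨i0, -, hi0⟩ := Finset.exists_min_image Finset.univ t hne
  obtain ⟨i1, -, hi1⟩ := Finset.exists_max_image Finset.univ t hne
  obtain ⟨s, h1, h2⟩ := mult_of_simple T hT hD hs m p (t i0) (t i1)
    (by have := (ht i0).1; have := (ht i1).2; linarith) t
    (fun i => ⟨hi0 i (Finset.mem_univ _), hi1 i (Finset.mem_univ _)⟩) hd
  have h3 := cnt_of_dvd hp (s := Set.Ico a (a + L)) (fun i =>
    ⟨(ht i0).1.trans (h1 i).1, (h1 i).2.trans_lt (ht i1).2⟩) h2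
  omega

/-- linear factor -/
theorem cnt_lin (p : ℝ[X]) (r : ℝ) (hp : derivative p - C r * p ≠ 0) (a L : ℝ) :
    cnt p (Set.Ico a (a + L)) ≤ cnt (derivative p - C r * p) (Set.Ico a (a + L)) + 1 := by
  refine cnt_of_simple (κ := 1) (L := L) (fun p => derivative p - C r * p) ?_ ?_ ?_ p hp a
  · intro p P h
    exact h.derivative.sub ((CT.const _).mul h)
  · intro p
    refine (natDegree_sub_le _ _).trans (max_le ?_ (natDegree_C_mul_le _ _))
    exact (natDegree_derivative_le p).trans (Nat.sub_le _ _)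
  · intro m p t ht _ hz
    obtain ⟨s, h1, h2, h3⟩ := lin_simple p r t ht hz
    exact ⟨s, h1, fun i => ⟨_, _, h2 i⟩, h3⟩

/-- quadratic factor -/
theorem cnt_quad (p : ℝ[X]) (a b : ℝ) (hb : 0 < b)
    (hp : derivative (derivative p) - C (2 * a) * derivative p + C (a ^ 2 + b ^ 2) * p ≠ 0)
    (c L : ℝ) (hL : L * b ≤ Real.pi) :
    cnt p (Set.Ico c (c + L)) ≤ cnt (derivative (derivative p) - C (2 * a) * derivative p +
      C (a ^ 2 + b ^ 2) * p) (Set.Ico c (c + L)) + 2 := by
  refine cnt_of_simple (κ := 2) (L := L) (fun p => derivative (derivative p) -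
    C (2 * a) * derivative p + C (a ^ 2 + b ^ 2) * p) ?_ ?_ ?_ p hp c
  · intro p P h
    exact (h.derivative.derivative.sub ((CT.const _).mul h.derivative)).add ((CT.const _).mul h)
  · intro p
    have h1 : (derivative p).natDegree ≤ p.natDegree :=
      (natDegree_derivative_le p).trans (Nat.sub_le _ _)
    have h2 : (derivative (derivative p)).natDegree ≤ p.natDegree :=
      ((natDegree_derivative_le _).trans (Nat.sub_le _ _)).trans h1
    refine (natDegree_add_le _ _).trans (max_le ?_ (natDegree_C_mul_le _ _))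
    exact (natDegree_sub_le _ _).trans (max_le h2 ((natDegree_C_mul_le _ _).trans h1))
  · intro m p t ht hlen hz
    have h1 := hlen (Fin.last (m + 1)) 0
    obtain ⟨s, h2, h3, h4⟩ := quad_simple p a b hb t ht (by nlinarith) hz
    exact ⟨s, h2, fun i => ⟨_, _, h3 i⟩, h4⟩

/-- The operator `f(D)` on `ℝ[X]`. -/
noncomputable def rop (f : ℝ[X]) : Module.End ℝ ℝ[X] :=
  aeval (derivative : Module.End ℝ ℝ[X]) f

lemma rop_mul (f g : ℝ[X]) (Q : ℝ[X]) : rop (f * g) Q = rop f (rop g Q) := by
  unfold rop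
  rw [map_mul]
  rfl

lemma rop_C (c : ℝ) (Q : ℝ[X]) : rop (C c) Q = C c * Q := by
  unfold rop
  rw [aeval_C, Module.algebraMap_end_apply]
  rw [← smul_eq_C_mul]

lemma rop_X (Q : ℝ[X]) : rop X Q = derivative Q := by
  unfold rop
  rw [aeval_X]

lemma rop_lin (r : ℝ) (Q : ℝ[X]) : rop (X - C r) Q = derivative Q - C r * Q := by
  have h : rop (X - C r) = rop X - rop (C r) := by unfold rop; rw [map_sub]
  rw [h, LinearMap.sub_apply, rop_X, rop_C]

lemma rop_quad (a c : ℝ) (Q : ℝ[X]) : rop (X ^ 2 - C (2 * a) * X + C c) Q =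
    derivative (derivative Q) - C (2 * a) * derivative Q + C c * Q := by
  have h : rop (X ^ 2 - C (2 * a) * X + C c) =
      rop (X * X) - rop (C (2 * a) * X) + rop (C c) := by
    unfold rop
    rw [map_add, map_sub, pow_two]
  rw [h, LinearMap.add_apply, LinearMap.sub_apply, rop_mul, rop_mul, rop_X, rop_X, rop_C, rop_C]

/-- `h(D)` loses at most `deg h` zeros in a short interval -/
theorem rop_window (c L : ℝ) : ∀ (N : ℕ) (h : ℝ[X]), h.natDegree ≤ N → h.coeff 0 ≠ 0 →
    (∀ b : ℂ, aeval b h = 0 → L * |b.im| ≤ Real.pi) → ∀ Q : ℝ[X], Q ≠ 0 → rop h Q ≠ 0 ∧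
      cnt Q (Set.Ico c (c + L)) ≤ cnt (rop h Q) (Set.Ico c (c + L)) + h.natDegree := by
  intro N
  induction N with
  | zero =>
    intro h hh h0 _ Q hQ
    obtain ⟨e, rfl⟩ := natDegree_eq_zero.1 (Nat.le_zero.1 hh)
    rw [coeff_C_zero] at h0
    rw [rop_C]
    refine ⟨mul_ne_zero (C_ne_zero.2 h0) hQ, ?_⟩
    unfold cnt
    rw [roots_C_mul _ h0]
    omega
  | succ N ih =>
    intro f hf h0 hs Q hQ
    by_cases hdeg : f.natDegree ≤ N
    · exact ih f hdeg h0 hs Q hQ
    have hfd : f.natDegree = N + 1 := by omega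
    have hf0 : f ≠ 0 := by rintro rfl; simp at h0
    have hdeg0 : f.degree ≠ 0 := by
      rw [degree_eq_natDegree hf0, hfd]
      exact_mod_cast Nat.succ_ne_zero N
    obtain ⟨a, ha⟩ := IsAlgClosed.exists_aeval_eq_zero ℂ f hdeg0
    have ha0 : a ≠ 0 := by
      rintro rfl
      rw [← coeff_zero_eq_aeval_zero'] at ha
      exact h0 (by simpa using ha)
    have hQd : (derivative Q).degree < Q.degree := degree_derivative_lt hQ
    have hQd2 : (derivative (derivative Q)).degree < Q.degree := by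
      by_cases h1 : derivative Q = 0
      · rw [h1, derivative_zero]
        rw [h1] at hQd
        exact hQd
      · exact (degree_derivative_lt h1).trans hQd
    by_cases him : a.im = 0
    · -- real root
      have har : a = ((a.re : ℝ) : ℂ) := by
        apply Complex.ext
        · simp
        · simp [him]
      have hroot : f.IsRoot a.re := by
        rw [har] at ha
        have h1 : aeval ((a.re : ℝ) : ℂ) f = ((f.eval a.re : ℝ) : ℂ) := by
          have := aeval_algebraMap_apply ℂ a.re f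
          simpa using this
        rw [h1] at ha
        exact_mod_cast ha
      obtain ⟨g, hg⟩ := dvd_iff_isRoot.2 hroot
      have hr0 : a.re ≠ 0 := by
        intro h
        apply ha0
        rw [har, h]; simp
      have hg0 : g ≠ 0 := by rintro rfl; rw [mul_zero] at hg; exact hf0 hg
      have hfg : f.natDegree = 1 + g.natDegree := by
        rw [hg, natDegree_mul (X_sub_C_ne_zero _) hg0, natDegree_X_sub_C]
      have hgdeg : g.natDegree ≤ N := by omega
      have hgc : g.coeff 0 ≠ 0 := by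
        intro h
        apply h0
        rw [hg, mul_coeff_zero, h, mul_zero]
      have hgs : ∀ b : ℂ, aeval b g = 0 → L * |b.im| ≤ Real.pi := by
        intro b hb
        apply hs
        rw [hg, map_mul, hb, mul_zero]
      set Q' : ℝ[X] := derivative Q - C a.re * Q with hQ'
      have hQ'0 : Q' ≠ 0 := by
        intro h1
        rw [hQ', sub_eq_zero] at h1
        rw [h1, degree_C_mul hr0] at hQd
        exact lt_irrefl _ hQd
      obtain ⟨h1, h2⟩ := ih g hgdeg hgc hgs Q' hQ'0
      have h3 : rop f Q = rop g Q' := by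
        rw [hg, mul_comm, rop_mul, rop_lin]
      rw [h3]
      refine ⟨h1, ?_⟩
      have h4 := cnt_lin Q a.re hQ'0 c L
      rw [← hQ'] at h4
      omega
    · -- pair of conjugate roots
      obtain ⟨g, hg⟩ := quadratic_dvd_of_aeval_eq_zero_im_ne_zero f ha him
      have hg0 : g ≠ 0 := by rintro rfl; rw [mul_zero] at hg; exact hf0 hg
      have hq : (X ^ 2 - C (2 * a.re) * X + C (‖a‖ ^ 2) : ℝ[X]).natDegree = 2 := by
        have : (X ^ 2 - C (2 * a.re) * X + C (‖a‖ ^ 2) : ℝ[X]) =
            C 1 * X ^ 2 + C (-(2 * a.re)) * X + C (‖a‖ ^ 2) := by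
          simp only [map_neg, map_one]; ring
        rw [this]
        exact natDegree_quadratic one_ne_zero
      have hq0 : (X ^ 2 - C (2 * a.re) * X + C (‖a‖ ^ 2) : ℝ[X]) ≠ 0 := by
        intro h
        rw [h] at hq
        simp at hq
      have hfg : f.natDegree = 2 + g.natDegree := by
        rw [hg, natDegree_mul hq0 hg0, hq]
      have hgdeg : g.natDegree ≤ N := by omega
      have hgc : g.coeff 0 ≠ 0 := by
        intro h
        apply h0
        rw [hg, mul_coeff_zero, h, mul_zero]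
      have hgs : ∀ b : ℂ, aeval b g = 0 → L * |b.im| ≤ Real.pi := by
        intro b hb
        apply hs
        rw [hg, map_mul, hb, mul_zero]
      have hnorm : ‖a‖ ^ 2 = a.re ^ 2 + |a.im| ^ 2 := by
        rw [sq_abs, ← Complex.normSq_eq_norm_sq, Complex.normSq_apply]
        ring
      set Q' : ℝ[X] := derivative (derivative Q) - C (2 * a.re) * derivative Q +
        C (a.re ^ 2 + |a.im| ^ 2) * Q with hQ'
      have hQ'0 : Q' ≠ 0 := by
        intro h1
        rw [← hnorm] at hQ'
        have h2 : C (‖a‖ ^ 2) * Q = -(derivative (derivative Q) - C (2 * a.re) * derivative Q) := by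
          rw [hQ'] at h1
          linear_combination h1
        have h3 : (C (‖a‖ ^ 2) * Q).degree = Q.degree := by
          apply degree_C_mul
          have : 0 < ‖a‖ := norm_pos_iff.2 ha0
          positivity
        rw [h2, degree_neg] at h3
        have h4 : (derivative (derivative Q) - C (2 * a.re) * derivative Q).degree < Q.degree := by
          refine lt_of_le_of_lt (degree_sub_le _ _) (max_lt hQd2 ?_)
          refine lt_of_le_of_lt ?_ hQd
          refine (degree_mul_le _ _).trans ?_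
          calc (C (2 * a.re)).degree + (derivative Q).degree ≤ 0 + (derivative Q).degree := by
                gcongr; exact degree_C_le
            _ = _ := zero_add _
        rw [h3] at h4
        exact lt_irrefl _ h4
      obtain ⟨h1, h2⟩ := ih g hgdeg hgc hgs Q' hQ'0
      have h3 : rop f Q = rop g Q' := by
        rw [hg, mul_comm, rop_mul, rop_quad, hnorm]
      rw [h3]
      refine ⟨h1, ?_⟩
      have h4 := cnt_quad Q a.re |a.im| (abs_pos.2 him) hQ'0 c L (hs a ha)
      rw [← hQ'] at h4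
      omega

theorem cnt_union {p : ℝ[X]} {s t : Set ℝ} (h : Disjoint s t) :
    cnt p (s ∪ t) = cnt p s + cnt p t := by
  classical
  unfold cnt
  have h1 := Multiset.filter_add_filter (· ∈ s) (· ∈ t) p.roots
  have h2 : Multiset.filter (fun a => a ∈ s ∧ a ∈ t) p.roots = 0 := by
    rw [Multiset.filter_eq_nil]
    intro a _ hcon
    exact Set.disjoint_left.1 h hcon.1 hcon.2
  rw [h2, add_zero] at h1
  have h3 := congrArg Multiset.card h1
  rw [Multiset.card_add] at h3
  rw [h3]
  congr!

/-- many windows -/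
theorem rop_windows (c L : ℝ) (hL : 0 < L) (h : ℝ[X]) (h0 : h.coeff 0 ≠ 0)
    (hs : ∀ b : ℂ, aeval b h = 0 → L * |b.im| ≤ Real.pi) (Q : ℝ[X]) (hQ : Q ≠ 0) (q : ℕ) :
    cnt Q (Set.Ico c (c + q * L)) ≤ cnt (rop h Q) (Set.Ico c (c + q * L)) + q * h.natDegree := by
  induction q with
  | zero => simp [cnt]
  | succ q ih =>
    have hsplit : Set.Ico c (c + ((q + 1 : ℕ) : ℝ) * L) =
        Set.Ico c (c + q * L) ∪ Set.Ico (c + q * L) (c + q * L + L) := by
      rw [Set.Ico_union_Ico_eq_Ico]
      · congr 1; push_cast; ring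
      · have : (0 : ℝ) ≤ q := Nat.cast_nonneg q
        nlinarith
      · linarith
    have hdisj : Disjoint (Set.Ico c (c + q * L)) (Set.Ico (c + q * L) (c + q * L + L)) := by
      rw [Set.disjoint_left]
      intro x hx hy
      exact absurd hx.2 (not_lt.2 hy.1)
    rw [hsplit, cnt_union hdisj, cnt_union hdisj]
    have h1 := (rop_window (c + q * L) L h.natDegree h le_rfl h0 hs Q hQ).2
    have h2 : (q + 1) * h.natDegree = q * h.natDegree + h.natDegree := by ring
    rw [h2]
    omega

end Pool.Agent.TH99.RJ
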